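import Mathlib

set_option autoImplicit false

namespace Pool.Agent.LatticeTrees

/-- Finite coin flipping computations: a binary decision tree. -/
inductive RC (α : Type) : Type
  | ret (a : α) : RC α
  | flip (f : Bool → RC α) : RC α

namespace RC

variable {α β γ : Type}

/-- sequencing -/
def bind : RC α → (α → RC β) → RC β
  | ret a, f => f a
  | flip g, f => flip (fun b => bind (g b) f)

/-- expectation with fair coins -/
noncomputable def E : RC α → (α → ℝ) → ℝ
  | ret a, g => g a
  | flip f, g => (E (f true) g + E (f false) g) / 2

/-- run on a list of bits (missing bits are read as `false`), returning the remaining bits -/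
def run : RC α → List Bool → α × List Bool
  | ret a, l => (a, l)
  | flip f, l => run (f (l.headD false)) l.tail

/-- at most `n` coins are flipped -/
def depthLE : RC α → ℕ → Prop
  | ret _, _ => True
  | flip _, 0 => False
  | flip f, n + 1 => ∀ b, depthLE (f b) n

@[simp] lemma bind_ret (a : α) (f : α → RC β) : bind (ret a) f = f a := rfl
@[simp] lemma bind_flip (g : Bool → RC α) (f : α → RC β) :
    bind (flip g) f = flip (fun b => bind (g b) f) := rfl
@[simp] lemma E_ret (a : α) (g : α → ℝ) : E (ret a) g = g a := rfl
@[simp] lemma E_flip (f : Bool → RC α) (g : α → ℝ) :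
    E (flip f) g = (E (f true) g + E (f false) g) / 2 := rfl

@[simp] lemma E_bind (x : RC α) (f : α → RC β) (g : β → ℝ) :
    E (bind x f) g = E x (fun a => E (f a) g) := by
  induction x with
  | ret a => rfl
  | flip h ih => simp [ih]

lemma E_mono (x : RC α) {g h : α → ℝ} (H : ∀ a, g a ≤ h a) : E x g ≤ E x h := by
  induction x with
  | ret a => exact H a
  | flip f ih =>
    have h1 := ih true
    have h2 := ih false
    simp only [E_flip]
    linarith

lemma E_congr (x : RC α) {g h : α → ℝ} (H : ∀ a, g a = h a) : E x g = E x h := by
  have : g = h := funext H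
  rw [this]

@[simp] lemma E_const (x : RC α) (c : ℝ) : E x (fun _ => c) = c := by
  induction x with
  | ret a => rfl
  | flip f ih => simp [ih]

lemma E_add (x : RC α) (g h : α → ℝ) : E x (fun a => g a + h a) = E x g + E x h := by
  induction x with
  | ret a => rfl
  | flip f ih => simp only [E_flip, ih]; ring

lemma E_mul_left (x : RC α) (c : ℝ) (g : α → ℝ) : E x (fun a => c * g a) = c * E x g := by
  induction x with
  | ret a => rfl
  | flip f ih => simp only [E_flip, ih]; ring

lemma E_sub (x : RC α) (g h : α → ℝ) : E x (fun a => g a - h a) = E x g - E x h := by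
  induction x with
  | ret a => rfl
  | flip f ih => simp only [E_flip, ih]; ring

lemma E_sum {ι : Type} (s : Finset ι) (x : RC α) (g : ι → α → ℝ) :
    E x (fun a => ∑ i ∈ s, g i a) = ∑ i ∈ s, E x (g i) := by
  classical
  induction s using Finset.induction_on with
  | empty => simp
  | insert i s hi ih =>
    simp only [Finset.sum_insert hi, E_add, ih]

lemma E_nonneg (x : RC α) {g : α → ℝ} (H : ∀ a, 0 ≤ g a) : 0 ≤ E x g := by
  have := E_mono x (g := fun _ => 0) (h := g) H
  simpa using this

lemma E_le_of_le (x : RC α) {g : α → ℝ} {c : ℝ} (H : ∀ a, g a ≤ c) : E x g ≤ c := by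
  have := E_mono x (g := g) (h := fun _ => c) H
  simpa using this

/-- The support of a computation: possible results. -/
def supp : RC α → α → Prop
  | ret a, x => x = a
  | flip f, x => ∃ b, supp (f b) x

@[simp] lemma supp_ret (a x : α) : supp (ret a) x ↔ x = a := Iff.rfl
@[simp] lemma supp_flip (f : Bool → RC α) (x : α) : supp (flip f) x ↔ ∃ b, supp (f b) x := Iff.rfl

lemma supp_bind (x : RC α) (f : α → RC β) (b : β) :
    supp (bind x f) b ↔ ∃ a, supp x a ∧ supp (f a) b := by
  induction x with
  | ret a => simp
  | flip g ih =>
    simp only [bind_flip, supp_flip, ih]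
    constructor
    · rintro ⟨c, a, h1, h2⟩; exact ⟨a, ⟨c, h1⟩, h2⟩
    · rintro ⟨a, ⟨c, h1⟩, h2⟩; exact ⟨c, a, h1, h2⟩

lemma E_mono_supp (x : RC α) {g h : α → ℝ} (H : ∀ a, supp x a → g a ≤ h a) : E x g ≤ E x h := by
  induction x with
  | ret a => exact H a rfl
  | flip f ih =>
    have h1 := ih true (fun a ha => H a ⟨true, ha⟩)
    have h2 := ih false (fun a ha => H a ⟨false, ha⟩)
    simp only [E_flip]
    linarith

lemma E_congr_supp (x : RC α) {g h : α → ℝ} (H : ∀ a, supp x a → g a = h a) : E x g = E x h :=
  le_antisymm (E_mono_supp x (fun a ha => (H a ha).le)) (E_mono_supp x (fun a ha => (H a ha).ge))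

lemma depthLE_mono {x : RC α} {n m : ℕ} (h : depthLE x n) (hnm : n ≤ m) : depthLE x m := by
  induction x generalizing n m with
  | ret a => trivial
  | flip f ih =>
    cases n with
    | zero => exact absurd h (by simp [depthLE])
    | succ n =>
      cases m with
      | zero => omega
      | succ m => exact fun b => ih b (h b) (by omega)

lemma depthLE_bind {x : RC α} {f : α → RC β} {n m : ℕ} (hx : depthLE x n)
    (hf : ∀ a, supp x a → depthLE (f a) m) : depthLE (bind x f) (n + m) := by
  induction x generalizing n with
  | ret a => exact depthLE_mono (hf a rfl) (by omega)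
  | flip g ih =>
    cases n with
    | zero => exact absurd hx (by simp [depthLE])
    | succ n =>
      have : n + 1 + m = (n + m) + 1 := by omega
      rw [this]
      exact fun b => ih b (hx b) (fun a ha => hf a ⟨b, ha⟩)

lemma run_bind (x : RC α) (f : α → RC β) (l : List Bool) :
    run (bind x f) l = run (f (run x l).1) (run x l).2 := by
  induction x generalizing l with
  | ret a => rfl
  | flip g ih => simp only [bind_flip, run, ih]

lemma run_supp (x : RC α) (l : List Bool) : supp x (run x l).1 := by
  induction x generalizing l with
  | ret a => rfl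
  | flip g ih => exact ⟨_, ih _ _⟩

/-- averaging over all bit strings of length `Q` gives the expectation. -/
lemma sum_run (x : RC α) (g : α → ℝ) (Q : ℕ) (h : depthLE x Q) :
    ∑ r : Fin Q → Bool, g (run x (List.ofFn r)).1 = 2 ^ Q * E x g := by
  induction Q generalizing x with
  | zero =>
    cases x with
    | ret a => simp [run]
    | flip f => exact absurd h (by simp [depthLE])
  | succ Q ih =>
    cases x with
    | ret a => simp [run, Finset.card_univ]
    | flip f =>
      rw [← (Fin.consEquiv (fun _ : Fin (Q+1) => Bool)).sum_comp]
      rw [Fintype.sum_prod_type]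
      have key : ∀ (b : Bool) (y : Fin Q → Bool),
          List.ofFn ((Fin.consEquiv (fun _ : Fin (Q+1) => Bool)) (b, y)) = b :: List.ofFn y := by
        intro b y
        simp [Fin.consEquiv, List.ofFn_succ]
      simp only [key, run, List.headD_cons, List.tail_cons,
        Fintype.sum_bool, E_flip]
      rw [ih _ (h true), ih _ (h false)]
      ring

end RC

end Pool.Agent.LatticeTrees
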