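import Mathlib
import Pool.Agent.LatticeTrees.Coin

set_option autoImplicit false

namespace Pool.Agent.LatticeTrees

namespace RC

variable {τ : Type} [DecidableEq τ]

/-- indicator function of a point -/
noncomputable def ind (y : τ) : τ → ℝ := fun z => if z = y then 1 else 0

/-- iterate a randomized step -/
def iter (P : τ → RC τ) : ℕ → τ → RC τ
  | 0, x => ret x
  | n + 1, x => bind (P x) (iter P n)

lemma E_eq_sum (T : Finset τ) (x : RC τ) (hx : ∀ y, supp x y → y ∈ T) (g : τ → ℝ) :
    E x g = ∑ y ∈ T, E x (ind y) * g y := by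
  have h1 : E x g = E x (fun z => ∑ y ∈ T, g y * ind y z) := by
    apply E_congr_supp
    intro a ha
    have haT := hx a ha
    simp only [ind, mul_ite, mul_one, mul_zero]
    rw [Finset.sum_ite_eq]
    simp [haT]
  rw [h1, E_sum]
  apply Finset.sum_congr rfl
  intro y _
  rw [E_mul_left]; ring

/-- Doeblin / Markov chain convergence for a symmetric kernel. -/
theorem chain (T : Finset τ) (hT : T.Nonempty) (P : τ → RC τ) (c : ℝ)
    (hsupp : ∀ x ∈ T, ∀ y, supp (P x) y → y ∈ T)
    (hsymm : ∀ x ∈ T, ∀ y ∈ T, E (P x) (ind y) = E (P y) (ind x))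
    (hmin : ∀ x ∈ T, ∀ y ∈ T, c / T.card ≤ E (P x) (ind y))
    (g : τ → ℝ) (hg0 : ∀ x, 0 ≤ g x) (hg1 : ∀ x, g x ≤ 1) (R : ℕ) :
    ∀ x ∈ T, |E (iter P R x) g - (∑ y ∈ T, g y) / T.card| ≤ (1 - c) ^ R := by
  have hcard : (0 : ℝ) < T.card := by exact_mod_cast hT.card_pos
  -- total mass one
  have hone : ∀ x ∈ T, ∑ y ∈ T, E (P x) (ind y) = 1 := by
    intro x hx
    have := E_eq_sum T (P x) (hsupp x hx) (fun _ => 1)
    simpa using this.symm
  have hc1 : c ≤ 1 := by
    obtain ⟨x, hx⟩ := hT
    have h1 : ∑ y ∈ T, c / T.card ≤ ∑ y ∈ T, E (P x) (ind y) :=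
      Finset.sum_le_sum (fun y hy => hmin x hx y hy)
    rw [hone x hx, Finset.sum_const, nsmul_eq_mul] at h1
    have : (T.card : ℝ) * (c / T.card) = c := by field_simp
    linarith
  -- induction
  have key : ∀ R : ℕ, (∑ x ∈ T, E (iter P R x) g = ∑ x ∈ T, g x) ∧
      (∀ x ∈ T, ∀ x' ∈ T, E (iter P R x) g - E (iter P R x') g ≤ (1 - c) ^ R) := by
    intro R
    induction R with
    | zero =>
      constructor
      · simp [iter]
      · intro x _ x' _
        simp only [iter, E_ret, pow_zero]
        linarith [hg1 x, hg0 x']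
    | succ R ih =>
      obtain ⟨ih1, ih2⟩ := ih
      set h : τ → ℝ := fun y => E (iter P R y) g with hh
      have hstep : ∀ x ∈ T, E (iter P (R+1) x) g = ∑ y ∈ T, E (P x) (ind y) * h y := by
        intro x hx
        simp only [iter, E_bind]
        exact E_eq_sum T (P x) (hsupp x hx) h
      constructor
      · rw [Finset.sum_congr rfl hstep, Finset.sum_comm, ← ih1]
        apply Finset.sum_congr rfl
        intro y hy
        rw [← Finset.sum_mul]
        have : ∑ x ∈ T, E (P x) (ind y) = 1 := by
          rw [← hone y hy]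
          exact Finset.sum_congr rfl (fun x hx => hsymm x hx y hy)
        rw [this, one_mul]
      · intro x hx x' hx'
        rw [hstep x hx, hstep x' hx']
        -- decompose
        obtain ⟨a, haT, ha⟩ := T.exists_max_image h hT
        obtain ⟨b, hbT, hb⟩ := T.exists_min_image h hT
        have e1 : ∑ y ∈ T, E (P x) (ind y) * h y
            ≤ (c / T.card) * ∑ y ∈ T, h y + (1 - c) * h a := by
          have : ∑ y ∈ T, (E (P x) (ind y) - c / T.card) * h y
              ≤ ∑ y ∈ T, (E (P x) (ind y) - c / T.card) * h a := by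
            apply Finset.sum_le_sum
            intro y hy
            apply mul_le_mul_of_nonneg_left (ha y hy)
            linarith [hmin x hx y hy]
          rw [← Finset.sum_mul, Finset.sum_sub_distrib, hone x hx, Finset.sum_const,
            nsmul_eq_mul] at this
          have h2 : (T.card : ℝ) * (c / T.card) = c := by field_simp
          rw [h2] at this
          have h3 : ∑ y ∈ T, (E (P x) (ind y) - c / T.card) * h y
              = ∑ y ∈ T, E (P x) (ind y) * h y - (c / T.card) * ∑ y ∈ T, h y := by
            rw [Finset.mul_sum, ← Finset.sum_sub_distrib]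
            exact Finset.sum_congr rfl (fun y _ => by ring)
          linarith
        have e2 : (c / T.card) * ∑ y ∈ T, h y + (1 - c) * h b
            ≤ ∑ y ∈ T, E (P x') (ind y) * h y := by
          have : ∑ y ∈ T, (E (P x') (ind y) - c / T.card) * h b
              ≤ ∑ y ∈ T, (E (P x') (ind y) - c / T.card) * h y := by
            apply Finset.sum_le_sum
            intro y hy
            apply mul_le_mul_of_nonneg_left (hb y hy)
            linarith [hmin x' hx' y hy]
          rw [← Finset.sum_mul, Finset.sum_sub_distrib, hone x' hx', Finset.sum_const,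
            nsmul_eq_mul] at this
          have h2 : (T.card : ℝ) * (c / T.card) = c := by field_simp
          rw [h2] at this
          have h3 : ∑ y ∈ T, (E (P x') (ind y) - c / T.card) * h y
              = ∑ y ∈ T, E (P x') (ind y) * h y - (c / T.card) * ∑ y ∈ T, h y := by
            rw [Finset.mul_sum, ← Finset.sum_sub_distrib]
            exact Finset.sum_congr rfl (fun y _ => by ring)
          linarith
        have e3 : (1 - c) * (h a - h b) ≤ (1 - c) * (1 - c) ^ R :=
          mul_le_mul_of_nonneg_left (ih2 a haT b hbT) (by linarith)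
        rw [pow_succ]
        nlinarith [e1, e2, e3]
  intro x hx
  obtain ⟨k1, k2⟩ := key R
  rw [← k1]
  have h1 : E (iter P R x) g - (∑ y ∈ T, E (iter P R y) g) / T.card
      = (∑ y ∈ T, (E (iter P R x) g - E (iter P R y) g)) / T.card := by
    rw [Finset.sum_sub_distrib, Finset.sum_const, nsmul_eq_mul]
    field_simp
  rw [h1, abs_div, abs_of_pos hcard, div_le_iff₀ hcard]
  calc |∑ y ∈ T, (E (iter P R x) g - E (iter P R y) g)|
      ≤ ∑ y ∈ T, |E (iter P R x) g - E (iter P R y) g| := Finset.abs_sum_le_sum_abs _ _
    _ ≤ ∑ y ∈ T, (1 - c) ^ R := by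
        apply Finset.sum_le_sum
        intro y hy
        rw [abs_le]
        constructor
        · linarith [k2 y hy x hx]
        · exact k2 x hx y hy
    _ = (1 - c) ^ R * T.card := by rw [Finset.sum_const, nsmul_eq_mul]; ring

end RC

end Pool.Agent.LatticeTrees
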