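import Mathlib
import Pool.Agent.LatticeTrees.Coin

set_option autoImplicit false
set_option linter.unusedSectionVars false
set_option linter.unusedSimpArgs false

namespace Pool.Agent.LatticeTrees

open RC

variable {τ : Type} [DecidableEq τ]

/-- every element of the list flips a coin; it survives if `keep` holds or the coin is heads -/
def thin (keep : τ → Bool) : List τ → RC (List τ)
  | [] => ret []
  | z :: l => RC.flip (fun b => RC.bind (thin keep l)
      (fun l' => ret (if keep z || b then z :: l' else l')))

lemma thin_supp {keep : τ → Bool} {K K' : List τ} (h : supp (thin keep K) K') :
    K'.Sublist K ∧ ∀ z ∈ K, keep z = true → z ∈ K' := by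
  induction K generalizing K' with
  | nil =>
    simp only [thin, supp_ret] at h
    subst h; simp
  | cons z l ih =>
    simp only [thin, supp_flip, supp_bind, supp_ret] at h
    obtain ⟨b, l', hl', rfl⟩ := h
    obtain ⟨h1, h2⟩ := ih hl'
    split_ifs with hb
    · refine ⟨h1.cons_cons z, ?_⟩
      intro w hw hk
      rcases List.mem_cons.mp hw with rfl | hw
      · simp
      · exact List.mem_cons_of_mem _ (h2 w hw hk)
    · refine ⟨h1.cons z, ?_⟩
      intro w hw hk
      rcases List.mem_cons.mp hw with rfl | hw
      · simp [hk] at hb
      · exact h2 w hw hk

lemma thin_depth (keep : τ → Bool) (K : List τ) : depthLE (thin keep K) K.length := by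
  induction K with
  | nil => trivial
  | cons z l ih =>
    intro b
    have := depthLE_bind (f := fun l' => ret (if keep z || b then z :: l' else l')) (m := 0) ih
      (fun _ _ => trivial)
    simpa using this

/-- change of measure for one thinning round -/
lemma thin_cm (keep0 F : τ → Bool) (K : List τ) (hK : K.Nodup) (h : List τ → ℝ) :
    E (thin (fun z => keep0 z || F z) K) h =
    E (thin keep0 K) (fun K' => if (∀ u ∈ K, F u = true → u ∈ K') then
      2 ^ ((K.filter (fun u => F u && !keep0 u)).length) * h K' else 0) := by
  induction K generalizing h with
  | nil => simp [thin]
  | cons z l ih =>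
    have hz : z ∉ l := (List.nodup_cons.mp hK).1
    have hl : l.Nodup := (List.nodup_cons.mp hK).2
    have ih' := ih hl
    have hmem : ∀ l', supp (thin keep0 l) l' → z ∉ l' := fun l' hs hz' =>
      hz ((thin_supp hs).1.subset hz')
    -- kept version of the RHS
    have kept : E (thin keep0 l) (fun l' => if (∀ u ∈ z :: l, F u = true → u ∈ z :: l') then
          2 ^ ((l.filter (fun u => F u && !keep0 u)).length) * h (z :: l') else 0)
        = E (thin (fun z => keep0 z || F z) l) (fun l' => h (z :: l')) := by
      rw [ih' (fun l' => h (z :: l'))]
      apply E_congr_supp
      intro l' hs
      have : (∀ u ∈ z :: l, F u = true → u ∈ z :: l') ↔ (∀ u ∈ l, F u = true → u ∈ l') := by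
        constructor
        · intro H u hu hF
          rcases List.mem_cons.mp (H u (List.mem_cons_of_mem _ hu) hF) with rfl | h2
          · exact absurd hu hz
          · exact h2
        · intro H u hu hF
          rcases List.mem_cons.mp hu with rfl | hu
          · simp
          · exact List.mem_cons_of_mem _ (H u hu hF)
      simp only [this]
    by_cases h0 : keep0 z = true
    · -- always kept, no extra weight
      have hlen : ((z :: l).filter (fun u => F u && !keep0 u)).length
          = (l.filter (fun u => F u && !keep0 u)).length := by
        simp [List.filter_cons, h0]
      simp only [thin, E_flip, E_bind, E_ret, h0, Bool.true_or, if_true, hlen]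
      rw [kept]
    · have h0' : keep0 z = false := by simpa using h0
      by_cases hF : F z = true
      · have hlen : ((z :: l).filter (fun u => F u && !keep0 u)).length
            = (l.filter (fun u => F u && !keep0 u)).length + 1 := by
          simp [List.filter_cons, h0', hF]
        simp only [thin, E_flip, E_bind, E_ret, h0', hF, Bool.false_or, Bool.true_or, if_true,
          hlen]
        have hdrop : E (thin keep0 l) (fun l' => if (∀ u ∈ z :: l, F u = true → u ∈ l') then
            2 ^ ((l.filter (fun u => F u && !keep0 u)).length + 1) * h l' else 0) = 0 := by
          refine (E_congr_supp _ ?_).trans (E_const (thin keep0 l) 0)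
          intro l' hs
          rw [if_neg]
          intro H
          exact hmem l' hs (H z (List.mem_cons_self ..) hF)
        simp only [Bool.false_eq_true, if_false]
        rw [hdrop, ← kept]
        have : E (thin keep0 l) (fun l' => if (∀ u ∈ z :: l, F u = true → u ∈ z :: l') then
            2 ^ ((l.filter (fun u => F u && !keep0 u)).length + 1) * h (z :: l') else 0)
          = 2 * E (thin keep0 l) (fun l' => if (∀ u ∈ z :: l, F u = true → u ∈ z :: l') then
            2 ^ ((l.filter (fun u => F u && !keep0 u)).length) * h (z :: l') else 0) := by
          rw [← E_mul_left]
          apply E_congr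
          intro l'
          split_ifs
          · rw [pow_succ]; ring
          · simp
        rw [this]
        ring
      · have hF' : F z = false := by simpa using hF
        have hlen : ((z :: l).filter (fun u => F u && !keep0 u)).length
            = (l.filter (fun u => F u && !keep0 u)).length := by
          simp [List.filter_cons, h0', hF']
        simp only [thin, E_flip, E_bind, E_ret, h0', hF', Bool.false_or, if_true,
          hlen, Bool.false_eq_true, if_false]
        rw [kept]
        congr 1
        congr 1
        rw [ih' h]
        apply E_congr
        intro l'
        have : (∀ u ∈ z :: l, F u = true → u ∈ l') ↔ (∀ u ∈ l, F u = true → u ∈ l') := by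
          constructor
          · intro H u hu hFu
            exact H u (List.mem_cons_of_mem _ hu) hFu
          · intro H u hu hFu
            rcases List.mem_cons.mp hu with rfl | hu
            · exact absurd hFu hF
            · exact H u hu hFu
        simp only [this]

/-- expected weight after one thinning round -/
lemma thin_weight (keep : τ → Bool) (w : τ → ℝ) (K : List τ) :
    E (thin keep K) (fun K' => (K'.map w).sum)
      = (K.map (fun z => if keep z then w z else w z / 2)).sum := by
  induction K with
  | nil => simp [thin]
  | cons z l ih =>
    simp only [thin, E_flip, E_bind, E_ret]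
    by_cases hk : keep z = true
    · simp only [hk, Bool.true_or, if_true, List.map_cons, List.sum_cons, E_add, E_const, ih]
      ring
    · have hk' : keep z = false := by simpa using hk
      simp only [hk', Bool.false_or, if_true, List.map_cons, List.sum_cons, E_add, E_const, ih,
        Bool.false_eq_true, if_false]
      ring

end Pool.Agent.LatticeTrees
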