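import Mathlib
import Pool.Agent.LatticeTrees.Thin

set_option autoImplicit false
set_option linter.unusedSectionVars false
set_option linter.unusedSimpArgs false

namespace Pool.Agent.LatticeTrees

open RC

variable {τ : Type} [DecidableEq τ]

/-- stopping rule -/
def stop (M : ℕ) (c : τ → ℕ) (e : ℕ) (K : List τ) : Bool :=
  K.all (fun z => decide (c z ≤ e)) && decide (K.length ≤ M)

lemma stop_iff {M : ℕ} {c : τ → ℕ} {e : ℕ} {K : List τ} :
    stop M c e K = true ↔ (∀ z ∈ K, c z ≤ e) ∧ K.length ≤ M := by
  simp [stop]

/-- repeated halving -/
def loop (M : ℕ) (F : τ → Bool) (c : τ → ℕ) : ℕ → ℕ → List τ → RC (Option (ℕ × List τ))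
  | 0, e, K => if stop M c e K then ret (some (e, K)) else ret none
  | n + 1, e, K => if stop M c e K then ret (some (e, K)) else
      RC.bind (thin (fun z => decide (e < c z) || F z) K) (fun K' => loop M F c n (e + 1) K')

lemma loop_supp {M : ℕ} {F : τ → Bool} {c : τ → ℕ} {n e : ℕ} {K : List τ} {e' : ℕ} {K' : List τ}
    (h : supp (loop M F c n e K) (some (e', K'))) :
    e ≤ e' ∧ e' ≤ e + n ∧ K'.Sublist K ∧ (∀ z ∈ K', c z ≤ e') ∧ K'.length ≤ M ∧
      (∀ z ∈ K, F z = true → z ∈ K') := by
  induction n generalizing e K with
  | zero =>
    simp only [loop] at h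
    split_ifs at h with hs
    · simp only [supp_ret, Option.some.injEq, Prod.mk.injEq] at h
      obtain ⟨rfl, rfl⟩ := h
      rw [stop_iff] at hs
      exact ⟨le_rfl, by omega, List.Sublist.refl _, hs.1, hs.2, fun z hz _ => hz⟩
    · simp at h
  | succ n ih =>
    simp only [loop] at h
    split_ifs at h with hs
    · simp only [supp_ret, Option.some.injEq, Prod.mk.injEq] at h
      obtain ⟨rfl, rfl⟩ := h
      rw [stop_iff] at hs
      exact ⟨le_rfl, by omega, List.Sublist.refl _, hs.1, hs.2, fun z hz _ => hz⟩
    · rw [supp_bind] at h
      obtain ⟨K1, h1, h2⟩ := h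
      obtain ⟨a1, a2, a3, a4, a5, a6⟩ := ih h2
      obtain ⟨b1, b2⟩ := thin_supp h1
      refine ⟨by omega, by omega, a3.trans b1, a4, a5, ?_⟩
      intro z hz hF
      exact a6 z (b2 z hz (by simp [hF])) hF

lemma loop_depth (M : ℕ) (F : τ → Bool) (c : τ → ℕ) (n e : ℕ) (K : List τ) :
    depthLE (loop M F c n e K) (n * K.length) := by
  induction n generalizing e K with
  | zero =>
    simp only [loop]
    split_ifs <;> trivial
  | succ n ih =>
    simp only [loop]
    split_ifs
    · trivial
    · have := depthLE_bind (f := fun K' => loop M F c n (e + 1) K') (m := n * K.length)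
        (thin_depth (fun z => decide (e < c z) || F z) K) (by
          intro K' hK'
          refine depthLE_mono (ih (e+1) K') ?_
          exact Nat.mul_le_mul_left _ (thin_supp hK').1.length_le)
      refine depthLE_mono this ?_
      rw [Nat.succ_mul]; omega

/-- weight accumulated by the frozen elements -/
lemma loop_cm (M : ℕ) (F : τ → Bool) (c : τ → ℕ) (n e : ℕ) (K : List τ) (hK : K.Nodup)
    (G : Option (ℕ × List τ) → ℝ) (hG : G none = 0) :
    E (loop M F c n e K) G = E (loop M (fun _ => false) c n e K) (fun r => r.elim 0 (fun p =>
      if (∀ u ∈ K, F u = true → u ∈ p.2) then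
        2 ^ (((K.filter F).map (fun u => p.1 - max e (c u))).sum) * G (some p) else 0)) := by
  induction n generalizing e K with
  | zero =>
    simp only [loop]
    split_ifs with hs
    · rw [stop_iff] at hs
      have h0 : ((K.filter F).map (fun u => e - max e (c u))).sum = 0 := by
        apply List.sum_eq_zero
        intro x hx
        simp only [List.mem_map] at hx
        obtain ⟨u, hu, rfl⟩ := hx
        omega
      have h1 : (∀ u ∈ K, F u = true → u ∈ K) := fun u hu _ => hu
      simp only [E_ret, Option.elim_some, h0, pow_zero, one_mul, if_pos h1]
    · simp [hG]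
  | succ n ih =>
    simp only [loop]
    split_ifs with hs
    · rw [stop_iff] at hs
      have h0 : ((K.filter F).map (fun u => e - max e (c u))).sum = 0 := by
        apply List.sum_eq_zero
        intro x hx
        simp only [List.mem_map] at hx
        obtain ⟨u, hu, rfl⟩ := hx
        omega
      have h1 : (∀ u ∈ K, F u = true → u ∈ K) := fun u hu _ => hu
      simp only [E_ret, Option.elim_some, h0, pow_zero, one_mul, if_pos h1]
    · rw [E_bind, E_bind]
      rw [thin_cm (fun z => decide (e < c z)) F K hK]
      have e1 : (fun z => decide (e < c z) || (fun _ : τ => false) z) = (fun z => decide (e < c z)) := by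
        funext z; simp
      rw [e1]
      apply E_congr_supp
      intro K' hK'
      obtain ⟨hsub, _⟩ := thin_supp hK'
      have hK'n : K'.Nodup := hsub.nodup hK
      split_ifs with hc
      · rw [ih (e+1) K' hK'n, ← E_mul_left]
        apply E_congr_supp
        intro r hr
        cases r with
        | none => simp
        | some p =>
          obtain ⟨e', K''⟩ := p
          obtain ⟨a1, a2, a3, a4, a5, a6⟩ := loop_supp hr
          simp only [Option.elim_some]
          have hiff : (∀ u ∈ K', F u = true → u ∈ K'') ↔ (∀ u ∈ K, F u = true → u ∈ K'') := by
            constructor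
            · intro H u hu hF
              exact H u (hc u hu hF) hF
            · intro H u hu hF
              exact H u (hsub.subset hu) hF
          simp only [hiff]
          split_ifs with hc2
          · -- exponents
            have hfil : K'.filter F = K.filter F := by
              -- sublist with the same F-elements, nodup
              have h1 : (K'.filter F).Sublist (K.filter F) := hsub.filter F
              apply h1.eq_of_length_le
              have h2 : (K.filter F) ⊆ (K'.filter F) := by
                intro u hu
                rw [List.mem_filter] at hu ⊢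
                exact ⟨hc u hu.1 hu.2, hu.2⟩
              exact ((hK.filter F).subperm h2).length_le
            rw [hfil, ← mul_assoc, ← pow_add]
            congr 2
            have : ∀ L : List τ,
                (L.filter (fun u => !decide (e < c u))).length +
                  (L.map (fun u => e' - max (e+1) (c u))).sum
                = (L.map (fun u => e' - max e (c u))).sum := by
              intro L
              induction L with
              | nil => simp
              | cons a L ihL =>
                by_cases hca : e < c a
                · have : max (e+1) (c a) = max e (c a) := by omega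
                  simp only [List.filter_cons, hca, decide_true, Bool.not_true,
                    Bool.false_eq_true, if_false, List.map_cons, List.sum_cons, this]
                  omega
                · have h3 : max (e+1) (c a) = e+1 := by omega
                  have h4 : max e (c a) = e := by omega
                  simp only [List.filter_cons, hca, decide_false, Bool.not_false, if_true,
                    List.map_cons, List.sum_cons, h3, h4, List.length_cons]
                  omega
            rw [← this (K.filter F), List.filter_filter]
            congr 2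
            apply List.filter_congr
            intro x _
            rw [Bool.and_comm]
          · simp
      · -- condition fails: RHS vanishes
        symm
        refine (E_congr_supp _ ?_).trans (E_const _ 0)
        intro r hr
        cases r with
        | none => simp
        | some p =>
          obtain ⟨e', K''⟩ := p
          obtain ⟨a1, a2, a3, a4, a5, a6⟩ := loop_supp hr
          simp only [Option.elim_some]
          rw [if_neg]
          intro H
          apply hc
          intro u hu hF
          exact a3.subset (H u hu hF)

/-- the weight of a list of non-frozen candidates at level `e` -/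
noncomputable def wt (F : τ → Bool) (c : τ → ℕ) (e : ℕ) (K : List τ) : ℝ :=
  (K.map (fun z => if F z then (0:ℝ) else 2 ^ (max e (c z)))).sum

lemma wt_nonneg (F : τ → Bool) (c : τ → ℕ) (e : ℕ) (K : List τ) : 0 ≤ wt F c e K := by
  unfold wt
  apply List.sum_nonneg
  intro x hx
  simp only [List.mem_map] at hx
  obtain ⟨u, _, rfl⟩ := hx
  split_ifs <;> positivity

lemma thin_wt (F : τ → Bool) (c : τ → ℕ) (e : ℕ) (K : List τ) :
    E (thin (fun z => decide (e < c z) || F z) K) (fun K' => wt F c (e+1) K') = wt F c e K := by
  unfold wt
  rw [thin_weight]
  congr 1
  apply List.map_congr_left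
  intro z _
  by_cases hF : F z = true
  · simp [hF]
  · have hF' : F z = false := by simpa using hF
    by_cases hc : e < c z
    · have : max (e+1) (c z) = max e (c z) := by omega
      simp [hF', hc, this, hc.le]
    · have h3 : max (e+1) (c z) = e+1 := by omega
      have h4 : max e (c z) = e := by omega
      simp [hF', hc, h3, h4, pow_succ]

lemma wt_lower (F : τ → Bool) (c : τ → ℕ) (e : ℕ) (K : List τ) :
    (2:ℝ) ^ e * ((K.length : ℝ) - ((K.filter F).length : ℝ)) ≤ wt F c e K := by
  unfold wt
  induction K with
  | nil => simp
  | cons z l ih =>
    simp only [List.map_cons, List.sum_cons, List.length_cons, List.filter_cons]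
    by_cases hF : F z = true
    · simp only [hF, if_true, List.length_cons]
      push_cast
      linarith
    · have hF' : F z = false := by simpa using hF
      simp only [hF', Bool.false_eq_true, if_false]
      have : (2:ℝ)^e ≤ 2 ^ (max e (c z)) := pow_le_pow_right₀ (by norm_num) (le_max_left _ _)
      push_cast
      nlinarith

/-- failure indicator -/
noncomputable def bad (R : ℝ) (r : Option (ℕ × List τ)) : ℝ :=
  r.elim 1 (fun p => if p.1 = 0 ∨ (2:ℝ) ^ p.1 ≤ R then 0 else 1)

lemma bad_le_one (R : ℝ) (r : Option (ℕ × List τ)) : bad R r ≤ 1 := by
  cases r with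
  | none => simp [bad]
  | some p => simp only [bad, Option.elim_some]; split_ifs <;> norm_num

lemma loop_bad (M : ℕ) (hM : 0 < M) (F : τ → Bool) (c : τ → ℕ) (R : ℝ) (hR : 0 < R) (n e : ℕ)
    (K : List τ) (hc : ∀ z ∈ K, c z = 0 ∨ (2:ℝ) ^ (c z) ≤ R)
    (hF : 2 * (K.filter F).length ≤ M) (he : e = 0 ∨ (2:ℝ) ^ e ≤ R)
    (hn : R < 2 ^ (e + n + 1)) :
    E (loop M F c n e K) (bad R) ≤ (n + 1) * (4 / (M * R)) * wt F c e K := by
  -- key: if not stopped and 2^(e+1) > R then the weight is large
  have hM' : (0:ℝ) < M := by exact_mod_cast hM
  have key : ∀ (e : ℕ) (K : List τ), (∀ z ∈ K, c z = 0 ∨ (2:ℝ) ^ (c z) ≤ R) →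
      2 * (K.filter F).length ≤ M → stop M c e K = false → R < 2 ^ (e+1) →
      1 ≤ (4 / (M * R)) * wt F c e K := by
    intro e K hc hF hs hRe
    have hlen : M < K.length := by
      by_contra hcon
      push Not at hcon
      have : stop M c e K = true := by
        rw [stop_iff]
        refine ⟨?_, hcon⟩
        intro z hz
        by_contra hce
        push Not at hce
        rcases hc z hz with h0 | h1
        · omega
        · have : (2:ℝ)^(e+1) ≤ 2 ^ (c z) := pow_le_pow_right₀ (by norm_num) hce
          linarith
      rw [this] at hs; exact absurd hs (by simp)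
    have h1 := wt_lower F c e K
    have h2 : (M:ℝ) / 2 ≤ (K.length : ℝ) - ((K.filter F).length : ℝ) := by
      have a1 : (M:ℝ) ≤ K.length := by exact_mod_cast hlen.le
      have a2 : 2 * ((K.filter F).length : ℝ) ≤ M := by exact_mod_cast hF
      linarith
    have h3 : R / 2 ≤ (2:ℝ)^e := by
      rw [pow_succ] at hRe; linarith
    have h4 : M * R / 4 ≤ wt F c e K := by
      have : R / 2 * (M / 2) ≤ (2:ℝ)^e * ((K.length : ℝ) - ((K.filter F).length : ℝ)) := by
        apply mul_le_mul h3 h2 (by positivity) (by positivity)
      linarith
    have h5 : (4 / (M * R)) * (M * R / 4) = 1 := by field_simp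
    calc (1:ℝ) = (4 / (M * R)) * (M * R / 4) := h5.symm
      _ ≤ (4 / (M * R)) * wt F c e K := by
        apply mul_le_mul_of_nonneg_left h4 (by positivity)
  induction n generalizing e K with
  | zero =>
    simp only [loop]
    by_cases hs : stop M c e K = true
    · rw [if_pos hs]
      simp only [E_ret, bad, Option.elim_some]
      rw [if_pos he]
      have := wt_nonneg F c e K
      positivity
    · rw [if_neg hs]
      simp only [E_ret, bad, Option.elim_none]
      have := key e K hc hF (by simpa using hs) (by simpa using hn)
      simpa using this
  | succ n ih =>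
    simp only [loop]
    by_cases hs : stop M c e K = true
    · rw [if_pos hs]
      simp only [E_ret, bad, Option.elim_some]
      rw [if_pos he]
      have := wt_nonneg F c e K
      positivity
    · rw [if_neg hs]
      have hs' : stop M c e K = false := by simpa using hs
      by_cases hRe : R < 2 ^ (e+1)
      · have h1 := key e K hc hF hs' hRe
        have h2 : E (RC.bind (thin (fun z => decide (e < c z) || F z) K)
            (fun K' => loop M F c n (e + 1) K')) (bad R) ≤ 1 :=
          E_le_of_le _ (fun r => bad_le_one R r)
        refine h2.trans ?_
        have h3 : (1:ℝ) ≤ ((n+1:ℕ):ℝ) + 1 := by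
          have : (0:ℝ) ≤ ((n+1:ℕ):ℝ) := by positivity
          linarith
        calc (1:ℝ) ≤ (4 / (M * R)) * wt F c e K := h1
          _ = 1 * ((4 / (M * R)) * wt F c e K) := by ring
          _ ≤ (((n+1:ℕ):ℝ) + 1) * ((4 / (M * R)) * wt F c e K) := by
              apply mul_le_mul_of_nonneg_right h3 (by linarith)
          _ = (((n+1:ℕ):ℝ) + 1) * (4 / (M * R)) * wt F c e K := by ring
      · push Not at hRe
        rw [E_bind]
        have h1 : ∀ K', supp (thin (fun z => decide (e < c z) || F z) K) K' →
            E (loop M F c n (e+1) K') (bad R) ≤ (n+1) * (4 / (M * R)) * wt F c (e+1) K' := by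
          intro K' hK'
          obtain ⟨hsub, _⟩ := thin_supp hK'
          apply ih (e+1) K'
          · intro z hz; exact hc z (hsub.subset hz)
          · have := (hsub.filter F).length_le
            omega
          · right; exact hRe
          · have : e + 1 + n + 1 = e + (n+1) + 1 := by ring
            rw [this]; exact hn
        refine (E_mono_supp _ h1).trans ?_
        rw [E_mul_left, thin_wt]
        have h2 := wt_nonneg F c e K
        have h3 : (0:ℝ) ≤ (4 / (M * R)) * wt F c e K := by positivity
        push_cast
        nlinarith

end Pool.Agent.LatticeTrees
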