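import Mathlib
import Pool.Agent.LatticeTrees.Loop

set_option autoImplicit false
set_option linter.unusedSectionVars false
set_option linter.unusedSimpArgs false

namespace Pool.Agent.LatticeTrees

open RC

variable {τ : Type} [DecidableEq τ]

/-- combinatorial data of a class of rooted trees -/
structure Sys (τ : Type) [DecidableEq τ] where
  size : τ → ℕ
  psub : τ → Finset τ
  cand : List τ → ℕ → List τ
  T : ℕ → Finset τ

/-- basic laws -/
structure Sys.Laws (S : Sys τ) : Prop where
  size_T : ∀ {k : ℕ} {z : τ}, z ∈ S.T k → S.size z = k
  T_zero : S.T 0 = ∅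
  psub_T : ∀ {k : ℕ} {z u : τ}, z ∈ S.T k → u ∈ S.psub z → S.size u < k ∧ u ∈ S.T (S.size u)
  psub_trans : ∀ {k : ℕ} {z u v : τ}, z ∈ S.T k → u ∈ S.psub z → v ∈ S.psub u → v ∈ S.psub z
  card_psub : ∀ {k : ℕ} {z : τ}, z ∈ S.T k → (S.psub z).card + 1 ≤ k
  cand_spec : ∀ (A : List τ) (k : ℕ), A.Nodup → (∀ u ∈ A, u ∈ S.T (S.size u)) →
    (∀ u ∈ A, ∀ v ∈ S.psub u, v ∈ A) →
    (S.cand A (k+1)).Nodup ∧ ∀ z, z ∈ S.cand A (k+1) ↔ z ∈ S.T (k+1) ∧ ∀ u ∈ S.psub z, u ∈ A

/-- total exponent of the members of `X` recorded in the state `A` -/
def tot (A : List (τ × ℕ)) (X : Finset τ) : ℕ :=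
  ((A.filter (fun p => decide (p.1 ∈ X))).map Prod.snd).sum

lemma tot_nil (X : Finset τ) : tot ([] : List (τ × ℕ)) X = 0 := rfl

lemma tot_cons (p : τ × ℕ) (A : List (τ × ℕ)) (X : Finset τ) :
    tot (p :: A) X = (if p.1 ∈ X then p.2 else 0) + tot A X := by
  unfold tot
  by_cases h : p.1 ∈ X <;> simp [h]

lemma tot_append (A B : List (τ × ℕ)) (X : Finset τ) : tot (A ++ B) X = tot A X + tot B X := by
  unfold tot
  simp

lemma tot_union_inter (A : List (τ × ℕ)) (X Y : Finset τ) :
    tot A X + tot A Y = tot A (X ∪ Y) + tot A (X ∩ Y) := by
  induction A with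
  | nil => simp [tot_nil]
  | cons p A ih =>
    simp only [tot_cons, Finset.mem_union, Finset.mem_inter]
    by_cases h1 : p.1 ∈ X <;> by_cases h2 : p.1 ∈ Y <;> simp [h1, h2] <;> omega

lemma tot_mono {A : List (τ × ℕ)} {X Y : Finset τ} (h : ∀ p ∈ A, p.1 ∈ X → p.2 ≠ 0 → p.1 ∈ Y) :
    tot A X ≤ tot A Y := by
  induction A with
  | nil => simp [tot_nil]
  | cons p A ih =>
    have ih' := ih (fun q hq => h q (List.mem_cons_of_mem _ hq))
    have hp := h p (List.mem_cons_self ..)
    simp only [tot_cons]
    by_cases h1 : p.1 ∈ X
    · by_cases h0 : p.2 = 0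
      · simp only [h1, if_true, h0]; split_ifs <;> omega
      · have := hp h1 h0
        simp only [h1, this, if_true]; omega
    · simp only [h1, if_false]; omega

lemma tot_congr {A : List (τ × ℕ)} {X Y : Finset τ} (h : ∀ p ∈ A, p.1 ∈ X ↔ p.1 ∈ Y) :
    tot A X = tot A Y :=
  le_antisymm (tot_mono (fun p hp h1 _ => (h p hp).mp h1))
    (tot_mono (fun p hp h1 _ => (h p hp).mpr h1))

lemma tot_biUnion_le {ι : Type} [DecidableEq ι] (A : List (τ × ℕ)) (s : Finset ι)
    (f : ι → Finset τ) : tot A (s.biUnion f) ≤ ∑ i ∈ s, tot A (f i) := by
  induction s using Finset.induction_on with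
  | empty => simp [tot]
  | insert i s hi ih =>
    rw [Finset.sum_insert hi, Finset.biUnion_insert]
    have := tot_union_inter A (f i) (s.biUnion f)
    omega

namespace Sys

variable (S : Sys τ)

/-- all subtrees including the tree itself -/
def sub (z : τ) : Finset τ := insert z (S.psub z)

/-- current cost of a candidate -/
def cost (A : List (τ × ℕ)) (z : τ) : ℕ := tot A (S.psub z)

/-- new entries -/
def upd (A : List (τ × ℕ)) (p : ℕ × List τ) : List (τ × ℕ) :=
  p.2.map (fun z => (z, p.1 - S.cost A z))

/-- the population process with frozen set `F` -/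
def proc (M Em : ℕ) (F : τ → Bool) : ℕ → RC (Option (List (τ × ℕ)))
  | 0 => ret (some [])
  | k + 1 => RC.bind (proc M Em F k) (fun o => o.elim (ret none) (fun A =>
      RC.bind (loop M F (S.cost A) Em 0 (S.cand (A.map Prod.fst) (k+1)))
        (fun r => ret (r.elim none (fun p => some (A ++ S.upd A p))))))

/-- the keys of a state -/
def keys (A : List (τ × ℕ)) : List τ := A.map Prod.fst

/-- invariant of the process -/
structure Inv (M k : ℕ) (A : List (τ × ℕ)) : Prop where
  nodup : (keys A).Nodup
  memT : ∀ u ∈ keys A, u ∈ S.T (S.size u)
  size_le : ∀ u ∈ keys A, S.size u ≤ k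
  closed : ∀ u ∈ keys A, ∀ v ∈ S.psub u, v ∈ keys A
  lev : ∃ l : ℕ → ℕ, ∀ u ∈ keys A, tot A (S.sub u) = l (S.size u)
  len : ∀ j, ((keys A).filter (fun u => decide (S.size u = j))).length ≤ M

variable {S}

lemma not_mem_psub_self (hS : S.Laws) {k : ℕ} {z : τ} (hz : z ∈ S.T k) : z ∉ S.psub z := by
  intro h
  have h1 := hS.psub_T hz h
  have h2 := hS.size_T hz
  omega

lemma keys_append (A B : List (τ × ℕ)) : keys (A ++ B) = keys A ++ keys B := by
  simp [keys]

lemma keys_upd (A : List (τ × ℕ)) (p : ℕ × List τ) : keys (S.upd A p) = p.2 := by
  simp [keys, upd, Function.comp_def]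

lemma tot_upd (A : List (τ × ℕ)) (e : ℕ) (K : List τ) (X : Finset τ) :
    tot (S.upd A (e, K)) X = ((K.filter (fun z => decide (z ∈ X))).map (fun z => e - S.cost A z)).sum := by
  induction K with
  | nil => simp [upd, tot]
  | cons z K ih =>
    have : S.upd A (e, z :: K) = (z, e - S.cost A z) :: S.upd A (e, K) := by simp [upd]
    rw [this, tot_cons, ih]
    by_cases h : z ∈ X <;> simp [h]

lemma inv_step (hS : S.Laws) {M k : ℕ} {A : List (τ × ℕ)} (hA : S.Inv M k A) {e : ℕ} {K : List τ}
    (hsub : K.Sublist (S.cand (keys A) (k+1))) (hc : ∀ z ∈ K, S.cost A z ≤ e)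
    (hlen : K.length ≤ M) : S.Inv M (k+1) (A ++ S.upd A (e, K)) := by
  obtain ⟨hnd, hmem⟩ := hS.cand_spec (keys A) k hA.nodup hA.memT hA.closed
  have hK : ∀ z ∈ K, z ∈ S.T (k+1) ∧ ∀ u ∈ S.psub z, u ∈ keys A := fun z hz =>
    (hmem z).mp (hsub.subset hz)
  have hKsz : ∀ z ∈ K, S.size z = k + 1 := fun z hz => hS.size_T (hK z hz).1
  have hkeys : keys (A ++ S.upd A (e, K)) = keys A ++ K := by
    rw [keys_append, keys_upd]
  have hdisj : ∀ u ∈ keys A, u ∉ K := by
    intro u hu huK
    have h1 := hA.size_le u hu
    have h2 := hKsz u huK
    omega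
  -- totals over sets of small trees
  have htot_old : ∀ u ∈ keys A, tot (A ++ S.upd A (e, K)) (S.sub u) = tot A (S.sub u) := by
    intro u hu
    rw [tot_append, tot_upd]
    have : K.filter (fun z => decide (z ∈ S.sub u)) = [] := by
      rw [List.filter_eq_nil_iff]
      intro z hz
      simp only [decide_eq_true_eq]
      intro hzs
      rcases Finset.mem_insert.mp hzs with rfl | hzp
      · exact hdisj z hu hz
      · have h1 := (hS.psub_T (hA.memT u hu) hzp).1
        have h2 := hKsz z hz
        have h3 := hA.size_le u hu
        omega
    simp [this]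
  have htot_new : ∀ u ∈ K, tot (A ++ S.upd A (e, K)) (S.sub u) = e := by
    intro u hu
    rw [tot_append, tot_upd]
    have h1 : tot A (S.sub u) = S.cost A u := by
      unfold cost
      apply tot_congr
      intro p hp
      simp only [sub, Finset.mem_insert]
      constructor
      · rintro (h | h)
        · exfalso
          apply hdisj p.1 (List.mem_map_of_mem hp)
          rw [h]; exact hu
        · exact h
      · exact Or.inr
    have hKn : K.Nodup := hsub.nodup hnd
    have h2 : K.filter (fun z => decide (z ∈ S.sub u)) = [u] := by
      have h3 : K.filter (fun z => decide (z ∈ S.sub u)) = K.filter (fun z => decide (z = u)) := by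
        apply List.filter_congr
        intro z hz
        have : z ∈ S.sub u ↔ z = u := by
          simp only [sub, Finset.mem_insert]
          constructor
          · rintro (h | h)
            · exact h
            · exfalso
              have h1 := (hS.psub_T (hK u hu).1 h).1
              have h2 := hKsz z hz
              omega
          · exact Or.inl
        simp only [this]
      rw [h3]
      have h4 := List.Nodup.filter (fun z => decide (z = u)) hKn
      have h5 : ∀ z ∈ K.filter (fun z => decide (z = u)), z = u := by
        intro z hz; simpa using (List.mem_filter.mp hz).2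
      have h6 : u ∈ K.filter (fun z => decide (z = u)) := by simp [hu]
      match hL : K.filter (fun z => decide (z = u)) with
      | [] => rw [hL] at h6; simp at h6
      | [a] => rw [hL] at h5; rw [h5 a (by simp)]
      | a :: b :: l =>
        rw [hL] at h4 h5
        have e1 := h5 a (by simp)
        have e2 := h5 b (by simp)
        subst e1; subst e2
        simp at h4
    rw [h2, h1]
    have := hc u hu
    simp only [List.map_cons, List.map_nil, List.sum_cons, List.sum_nil]
    omega
  refine ⟨?_, ?_, ?_, ?_, ?_, ?_⟩
  · rw [hkeys, List.nodup_append]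
    refine ⟨hA.nodup, hsub.nodup hnd, ?_⟩
    intro a ha b hb hab
    subst hab
    exact hdisj a ha hb
  · intro u hu
    rw [hkeys, List.mem_append] at hu
    rcases hu with hu | hu
    · exact hA.memT u hu
    · rw [hKsz u hu]; exact (hK u hu).1
  · intro u hu
    rw [hkeys, List.mem_append] at hu
    rcases hu with hu | hu
    · have := hA.size_le u hu; omega
    · rw [hKsz u hu]
  · intro u hu v hv
    rw [hkeys, List.mem_append] at hu ⊢
    rcases hu with hu | hu
    · exact Or.inl (hA.closed u hu v hv)
    · exact Or.inl ((hK u hu).2 v hv)
  · obtain ⟨l, hl⟩ := hA.lev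
    refine ⟨fun j => if j = k + 1 then e else l j, ?_⟩
    intro u hu
    rw [hkeys, List.mem_append] at hu
    rcases hu with hu | hu
    · rw [htot_old u hu, hl u hu]
      dsimp only
      rw [if_neg]
      have := hA.size_le u hu; omega
    · rw [htot_new u hu]
      dsimp only
      rw [if_pos (hKsz u hu)]
  · intro j
    rw [hkeys, List.filter_append, List.length_append]
    by_cases hj : j = k + 1
    · have h1 : (keys A).filter (fun u => decide (S.size u = j)) = [] := by
        rw [List.filter_eq_nil_iff]
        intro u hu
        have := hA.size_le u hu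
        simp only [decide_eq_true_eq]; omega
      rw [h1]
      have := List.length_filter_le (fun u => decide (S.size u = j)) K
      simp only [List.length_nil]; omega
    · have h1 : K.filter (fun u => decide (S.size u = j)) = [] := by
        rw [List.filter_eq_nil_iff]
        intro u hu
        have := hKsz u hu
        simp only [decide_eq_true_eq]; omega
      rw [h1]
      have := hA.len j
      simpa using this

lemma proc_supp (hS : S.Laws) {M Em : ℕ} {F : τ → Bool} {k : ℕ} {A : List (τ × ℕ)}
    (h : supp (S.proc M Em F k) (some A)) : S.Inv M k A := by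
  induction k generalizing A with
  | zero =>
    simp only [proc, supp_ret, Option.some.injEq] at h
    subst h
    exact ⟨by simp [keys], by simp [keys], by simp [keys], by simp [keys], ⟨fun _ => 0, by simp [keys]⟩,
      by simp [keys]⟩
  | succ k ih =>
    simp only [proc] at h
    rw [supp_bind] at h
    obtain ⟨o, ho, h⟩ := h
    cases o with
    | none => simp at h
    | some A0 =>
      simp only [Option.elim_some] at h
      rw [supp_bind] at h
      obtain ⟨r, hr, h⟩ := h
      cases r with
      | none => simp at h
      | some p =>
        obtain ⟨e, K⟩ := p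
        simp only [Option.elim_some, supp_ret, Option.some.injEq] at h
        subst h
        obtain ⟨a1, a2, a3, a4, a5, a6⟩ := loop_supp hr
        exact inv_step hS (ih ho) a3 a4 a5

/-- frozen elements are always present -/
lemma proc_supp_frozen (hS : S.Laws) {M Em : ℕ} {F : Finset τ}
    (hF : ∀ u ∈ F, u ∈ S.T (S.size u) ∧ ∀ v ∈ S.psub u, v ∈ F)
    {k : ℕ} {A : List (τ × ℕ)}
    (h : supp (S.proc M Em (fun u => decide (u ∈ F)) k) (some A)) :
    ∀ u ∈ F, S.size u ≤ k → u ∈ keys A := by
  induction k generalizing A with
  | zero =>
    intro u hu hs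
    have h0 : S.size u = 0 := by omega
    have := (hF u hu).1
    rw [h0, hS.T_zero] at this
    simp at this
  | succ k ih =>
    simp only [proc] at h
    rw [supp_bind] at h
    obtain ⟨o, ho, h⟩ := h
    cases o with
    | none => simp at h
    | some A0 =>
      simp only [Option.elim_some] at h
      rw [supp_bind] at h
      obtain ⟨r, hr, h⟩ := h
      cases r with
      | none => simp at h
      | some p =>
        obtain ⟨e, K⟩ := p
        simp only [Option.elim_some, supp_ret, Option.some.injEq] at h
        subst h
        obtain ⟨a1, a2, a3, a4, a5, a6⟩ := loop_supp hr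
        intro u hu hs
        rw [keys_append, keys_upd, List.mem_append]
        have hA0 := proc_supp hS ho
        by_cases hk : S.size u ≤ k
        · exact Or.inl (ih ho u hu hk)
        · right
          have hk1 : S.size u = k + 1 := by omega
          apply a6 u _ (by simpa using hu)
          obtain ⟨hnd, hmem⟩ := hS.cand_spec (keys A0) k hA0.nodup hA0.memT hA0.closed
          apply (hmem u).mpr
          refine ⟨by rw [← hk1]; exact (hF u hu).1, ?_⟩
          intro v hv
          have h1 := (hF u hu).2 v hv
          have h2 := (hS.psub_T (hF u hu).1 hv).1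
          exact ih ho v h1 (by omega)

lemma filter_eq_of_keep {P : τ → Bool} {K C : List τ} (hC : C.Nodup) (hsub : K.Sublist C)
    (h : ∀ u ∈ C, P u = true → u ∈ K) : K.filter P = C.filter P := by
  have h1 : (K.filter P).Sublist (C.filter P) := hsub.filter P
  apply h1.eq_of_length_le
  have h2 : (C.filter P) ⊆ (K.filter P) := by
    intro u hu
    rw [List.mem_filter] at hu ⊢
    exact ⟨h u hu.1 hu.2, hu.2⟩
  exact ((hC.filter P).subperm h2).length_le

/-- change of measure for the whole process -/
theorem proc_cm (hS : S.Laws) {M Em : ℕ} {F : Finset τ}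
    (hF : ∀ u ∈ F, u ∈ S.T (S.size u) ∧ ∀ v ∈ S.psub u, v ∈ F)
    (k : ℕ) (G : Option (List (τ × ℕ)) → ℝ) (hG : G none = 0) :
    E (S.proc M Em (fun u => decide (u ∈ F)) k) G =
    E (S.proc M Em (fun _ => false) k) (fun o => o.elim 0 (fun A =>
      if (∀ u ∈ F, S.size u ≤ k → u ∈ keys A) then 2 ^ (tot A F) * G (some A) else 0)) := by
  induction k generalizing G with
  | zero =>
    have h : ∀ u ∈ F, S.size u ≤ 0 → u ∈ keys ([] : List (τ × ℕ)) := by
      intro u hu hs
      have h0 : S.size u = 0 := by omega
      have := (hF u hu).1
      rw [h0, hS.T_zero] at this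
      simp at this
    simp only [proc, E_ret, Option.elim_some, if_pos h, tot_nil, pow_zero, one_mul]
  | succ k ih =>
    simp only [proc]
    rw [E_bind, E_bind]
    set H : Option (List (τ × ℕ)) → ℝ := fun o => o.elim 0 (fun A =>
      E (loop M (fun u => decide (u ∈ F)) (S.cost A) Em 0 (S.cand (keys A) (k+1)))
        (fun r => r.elim 0 (fun p => G (some (A ++ S.upd A p))))) with hH
    have e1 : E (S.proc M Em (fun u => decide (u ∈ F)) k) (fun o => E (o.elim (ret none) (fun A =>
        RC.bind (loop M (fun u => decide (u ∈ F)) (S.cost A) Em 0 (S.cand (A.map Prod.fst) (k+1)))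
          (fun r => ret (r.elim none (fun p => some (A ++ S.upd A p)))))) G)
        = E (S.proc M Em (fun u => decide (u ∈ F)) k) H := by
      apply E_congr
      intro o
      cases o with
      | none => simp [hH, hG]
      | some A =>
        simp only [hH, Option.elim_some, E_bind, E_ret, keys]
        apply E_congr
        intro r
        cases r with
        | none => simp [hG]
        | some p => simp
    rw [e1, ih H (by simp [hH])]
    apply E_congr_supp
    intro o ho
    cases o with
    | none => simp
    | some A =>
      have hA := proc_supp hS ho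
      simp only [Option.elim_some, E_bind, E_ret]
      obtain ⟨hnd, hmem⟩ := hS.cand_spec (keys A) k hA.nodup hA.memT hA.closed
      split_ifs with hc
      · simp only [hH, Option.elim_some]
        rw [loop_cm M (fun u => decide (u ∈ F)) (S.cost A) Em 0 _ hnd _ (by simp)]
        rw [← E_mul_left]
        apply E_congr_supp
        intro r hr
        cases r with
        | none => simp
        | some p =>
          obtain ⟨e, K⟩ := p
          obtain ⟨a1, a2, a3, a4, a5, a6⟩ := loop_supp hr
          simp only [Option.elim_some]
          have hKsz : ∀ z ∈ K, S.size z = k + 1 := fun z hz =>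
            hS.size_T ((hmem z).mp (a3.subset hz)).1
          have hiff : (∀ u ∈ S.cand (keys A) (k+1), decide (u ∈ F) = true → u ∈ K) ↔
              (∀ u ∈ F, S.size u ≤ k + 1 → u ∈ keys (A ++ S.upd A (e, K))) := by
            rw [keys_append, keys_upd]
            constructor
            · intro H1 u hu hs
              rw [List.mem_append]
              by_cases hk : S.size u ≤ k
              · exact Or.inl (hc u hu hk)
              · right
                have hk1 : S.size u = k + 1 := by omega
                apply H1 u _ (by simpa using hu)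
                apply (hmem u).mpr
                refine ⟨by rw [← hk1]; exact (hF u hu).1, ?_⟩
                intro v hv
                have h1 := (hF u hu).2 v hv
                have h2 := (hS.psub_T (hF u hu).1 hv).1
                exact hc v h1 (by omega)
            · intro H1 u hu hFu
              have huF : u ∈ F := by simpa using hFu
              have hsz : S.size u = k + 1 := hS.size_T ((hmem u).mp hu).1
              have := H1 u huF (by omega)
              rw [List.mem_append] at this
              rcases this with h | h
              · have := hA.size_le u h; omega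
              · exact h
          by_cases hcond : ∀ u ∈ S.cand (keys A) (k+1), decide (u ∈ F) = true → u ∈ K
          · rw [if_pos hcond, if_pos (hiff.mp hcond), ← mul_assoc, ← pow_add, tot_append, tot_upd]
            have : K.filter (fun z => decide (z ∈ F))
                = (S.cand (keys A) (k+1)).filter (fun z => decide (z ∈ F)) :=
              filter_eq_of_keep hnd a3 hcond
            rw [this]
            simp
          · rw [if_neg hcond, if_neg (fun h => hcond (hiff.mpr h))]
            simp
      · -- condition fails at level k
        symm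
        refine (E_congr_supp _ ?_).trans (E_const _ 0)
        intro r hr
        cases r with
        | none => simp
        | some p =>
          obtain ⟨e, K⟩ := p
          obtain ⟨a1, a2, a3, a4, a5, a6⟩ := loop_supp hr
          simp only [Option.elim_some]
          rw [if_neg]
          intro H1
          apply hc
          intro u hu hs
          have := H1 u hu (by omega)
          rw [keys_append, keys_upd, List.mem_append] at this
          rcases this with h | h
          · exact h
          · have h2 := hS.size_T ((hmem u).mp (a3.subset h)).1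
            omega

end Sys

end Pool.Agent.LatticeTrees
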