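import Mathlib
import Pool.Agent.LatticeTrees.Proc

set_option autoImplicit false
set_option linter.unusedSectionVars false
set_option linter.unusedSimpArgs false

namespace Pool.Agent.LatticeTrees

open RC

variable {τ : Type} [DecidableEq τ]

namespace Sys

variable (S : Sys τ)

/-- number of trees of a given size -/
noncomputable def gam (k : ℕ) : ℝ := ((S.T k).card : ℝ)

/-- all levels are at most logarithmic in the number of trees -/
def Good (ρ : ℝ) (A : List (τ × ℕ)) : Prop :=
  ∀ z ∈ keys A, tot A (S.sub z) = 0 ∨ (2:ℝ) ^ (tot A (S.sub z)) ≤ ρ * S.gam (S.size z)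

/-- maximal members of `L` below `z` -/
def top (L : Finset τ) (z : τ) : Finset τ :=
  (L ∩ S.psub z).filter (fun s => ∀ s' ∈ L ∩ S.psub z, s ∉ S.psub s')

variable {S}

lemma top_cover (hS : S.Laws) {k : ℕ} {L : Finset τ} {z u : τ} (hz : z ∈ S.T k)
    (hu : u ∈ L ∩ S.psub z) : ∃ s ∈ S.top L z, u ∈ S.sub s := by
  set X := (L ∩ S.psub z).filter (fun s => u ∈ S.sub s) with hX
  have hne : X.Nonempty := ⟨u, by simp [hX, sub, hu, Finset.mem_inter.mp hu]⟩
  obtain ⟨s, hsX, hmax⟩ := X.exists_max_image S.size hne
  have hs : s ∈ L ∩ S.psub z ∧ u ∈ S.sub s := by simpa [hX] using hsX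
  refine ⟨s, ?_, hs.2⟩
  simp only [top, Finset.mem_filter]
  refine ⟨hs.1, ?_⟩
  intro s' hs' hss'
  have hs'T := hS.psub_T hz (Finset.mem_inter.mp hs').2
  have h1 := (hS.psub_T hs'T.2 hss').1
  have h2 : u ∈ S.sub s' := by
    rcases Finset.mem_insert.mp hs.2 with rfl | h
    · exact Finset.mem_insert_of_mem hss'
    · exact Finset.mem_insert_of_mem (hS.psub_trans hs'T.2 hss' h)
  have h3 : s' ∈ X := by
    rw [hX, Finset.mem_filter]; exact ⟨hs', h2⟩
  have := hmax s' h3
  omega

lemma val_le_tot {A : List (τ × ℕ)} {p : τ × ℕ} (hp : p ∈ A) {X : Finset τ} (hX : p.1 ∈ X) :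
    p.2 ≤ tot A X := by
  unfold tot
  apply List.single_le_sum (by simp)
  rw [List.mem_map]
  exact ⟨p, by simp [hp, hX], rfl⟩

lemma tot_le_top (hS : S.Laws) {k : ℕ} {ρ : ℝ} {A : List (τ × ℕ)} (hG : S.Good ρ A)
    (F : Finset τ) {z : τ} (hz : z ∈ S.T k) (hA : ∀ u ∈ S.psub z, u ∈ keys A) :
    (2:ℝ) ^ (tot A (F ∩ S.psub z)) ≤
      ∏ s ∈ S.top (F.filter (fun s => 1 ≤ ρ * S.gam (S.size s))) z, (ρ * S.gam (S.size s)) := by
  set L := F.filter (fun s => 1 ≤ ρ * S.gam (S.size s)) with hL
  have h1 : tot A (F ∩ S.psub z) ≤ tot A ((S.top L z).biUnion S.sub) := by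
    apply tot_mono
    intro p hp hpF h0
    have hk : p.1 ∈ keys A := List.mem_map_of_mem hp
    have h2 : p.2 ≤ tot A (S.sub p.1) := val_le_tot hp (by simp [sub])
    have h3 : 1 ≤ ρ * S.gam (S.size p.1) := by
      rcases hG p.1 hk with h | h
      · omega
      · exact le_trans (one_le_pow₀ (by norm_num)) h
    rw [Finset.mem_inter] at hpF
    obtain ⟨s, hs, hus⟩ := top_cover hS (L := L) (u := p.1) hz
      (Finset.mem_inter.mpr ⟨by rw [hL, Finset.mem_filter]; exact ⟨hpF.1, h3⟩, hpF.2⟩)
    exact Finset.mem_biUnion.mpr ⟨s, hs, hus⟩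
  have h2 := h1.trans (tot_biUnion_le A (S.top L z) S.sub)
  calc (2:ℝ) ^ (tot A (F ∩ S.psub z)) ≤ 2 ^ (∑ s ∈ S.top L z, tot A (S.sub s)) :=
        pow_le_pow_right₀ (by norm_num) h2
    _ = ∏ s ∈ S.top L z, (2:ℝ) ^ (tot A (S.sub s)) := by rw [Finset.prod_pow_eq_pow_sum]
    _ ≤ ∏ s ∈ S.top L z, (ρ * S.gam (S.size s)) := by
        apply Finset.prod_le_prod
        · intro s _; positivity
        · intro s hs
          simp only [top, Finset.mem_filter, Finset.mem_inter] at hs
          have hk : s ∈ keys A := hA s hs.1.2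
          rcases hG s hk with h | h
          · rw [h, pow_zero]
            have := hs.1.1
            rw [hL, Finset.mem_filter] at this
            exact this.2
          · exact h

/-- closedness of the frozen set -/
def Closed (S : Sys τ) (F : Finset τ) : Prop :=
  ∀ u ∈ F, u ∈ S.T (S.size u) ∧ ∀ v ∈ S.psub u, v ∈ F

open Classical in
lemma fm_one (hS : S.Laws) {M Em : ℕ} {F : Finset τ} (hF : S.Closed F) {k : ℕ} {z : τ}
    (hz : z ∈ S.T (k+1)) (ρ W : ℝ) (hW0 : 0 ≤ W)
    (hW : ∀ A, S.Inv M k A → S.Good ρ A → (∀ u ∈ S.psub z, u ∈ keys A) →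
      (2:ℝ) ^ (tot A (F ∩ S.psub z)) ≤ W) :
    E (S.proc M Em (fun u => decide (u ∈ F)) k) (fun o => o.elim 0 (fun A =>
      if S.Good ρ A ∧ (∀ u ∈ S.psub z, u ∈ keys A) then (2:ℝ) ^ (S.cost A z) else 0)) ≤ W := by
  have hF2 : S.Closed (F ∪ S.psub z) := by
    intro u hu
    rw [Finset.mem_union] at hu
    rcases hu with hu | hu
    · exact ⟨(hF u hu).1, fun v hv => Finset.mem_union_left _ ((hF u hu).2 v hv)⟩
    · exact ⟨(hS.psub_T hz hu).2, fun v hv => Finset.mem_union_right _ (hS.psub_trans hz hu hv)⟩
  have e1 := proc_cm hS (M := M) (Em := Em) hF k (fun o => o.elim 0 (fun A =>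
      if S.Good ρ A ∧ (∀ u ∈ S.psub z, u ∈ keys A) then (2:ℝ) ^ (S.cost A z) else 0)) rfl
  have e2 := proc_cm hS (M := M) (Em := Em) hF2 k (fun o => o.elim 0 (fun A =>
      if S.Good ρ A then (2:ℝ) ^ (tot A (F ∩ S.psub z)) else 0)) rfl
  have e3 : E (S.proc M Em (fun u => decide (u ∈ F)) k) (fun o => o.elim 0 (fun A =>
      if S.Good ρ A ∧ (∀ u ∈ S.psub z, u ∈ keys A) then (2:ℝ) ^ (S.cost A z) else 0))
      = E (S.proc M Em (fun u => decide (u ∈ F ∪ S.psub z)) k) (fun o => o.elim 0 (fun A =>
      if S.Good ρ A then (2:ℝ) ^ (tot A (F ∩ S.psub z)) else 0)) := by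
    rw [e1, e2]
    apply E_congr
    intro o
    cases o with
    | none => simp
    | some A =>
      simp only [Option.elim_some]
      have hiff : (∀ u ∈ F ∪ S.psub z, S.size u ≤ k → u ∈ keys A) ↔
          ((∀ u ∈ F, S.size u ≤ k → u ∈ keys A) ∧ (∀ u ∈ S.psub z, u ∈ keys A)) := by
        constructor
        · intro H
          refine ⟨fun u hu hs => H u (Finset.mem_union_left _ hu) hs, fun u hu => ?_⟩
          have := (hS.psub_T hz hu).1
          exact H u (Finset.mem_union_right _ hu) (by omega)
        · rintro ⟨H1, H2⟩ u hu hs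
          rw [Finset.mem_union] at hu
          rcases hu with hu | hu
          · exact H1 u hu hs
          · exact H2 u hu
      by_cases ha : ∀ u ∈ F, S.size u ≤ k → u ∈ keys A
      · by_cases hb : ∀ u ∈ S.psub z, u ∈ keys A
        · by_cases hg : S.Good ρ A
          · rw [if_pos ha, if_pos (hiff.mpr ⟨ha, hb⟩), if_pos ⟨hg, hb⟩, if_pos hg, ← pow_add,
              ← pow_add]
            congr 1
            exact tot_union_inter A F (S.psub z)
          · rw [if_pos ha, if_pos (hiff.mpr ⟨ha, hb⟩), if_neg (fun h => hg h.1), if_neg hg]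
            simp
        · rw [if_pos ha, if_neg (fun h => hb (hiff.mp h).2), if_neg (fun h => hb h.2)]
          simp
      · rw [if_neg ha, if_neg (fun h => ha (hiff.mp h).1)]
  rw [e3]
  have : E (S.proc M Em (fun u => decide (u ∈ F ∪ S.psub z)) k) (fun o => o.elim 0 (fun A =>
      if S.Good ρ A then (2:ℝ) ^ (tot A (F ∩ S.psub z)) else 0)) ≤
      E (S.proc M Em (fun u => decide (u ∈ F ∪ S.psub z)) k) (fun _ => W) := by
    apply E_mono_supp
    intro o ho
    cases o with
    | none => simpa using hW0
    | some A =>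
      simp only [Option.elim_some]
      split_ifs with hg
      · apply hW A (proc_supp hS ho) hg
        intro u hu
        have h1 := (hS.psub_T hz hu).1
        exact proc_supp_frozen hS hF2 ho u (Finset.mem_union_right _ hu) (by omega)
      · exact hW0
  rwa [E_const] at this

/-- numerical hypotheses on the class and the parameters -/
structure Num (S : Sys τ) (N M Em : ℕ) (ρ : ℝ) : Prop where
  M_pos : 0 < M
  ρ_pos : 0 < ρ
  gam_pos : ∀ k, 1 ≤ k → k ≤ N → 0 < S.gam k
  lt_pow : ∀ k, k ≤ N → ρ * S.gam k < 2 ^ (Em + 1)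
  child : ∀ k, k + 1 ≤ N → ∀ z ∈ S.T (k+1), ∃ ch : Finset τ, ch ⊆ S.psub z ∧
    (∀ u ∈ S.psub z, ∃ v ∈ ch, u ∈ S.sub v) ∧
    ∀ J ⊆ ch, J.Nonempty → ∏ v ∈ J, (ρ * S.gam (S.size v)) ≤ ρ * S.gam (k+1)
  kl : ∀ k, k + 1 ≤ N → ∀ L : Finset τ, 2 * L.card ≤ M → L.card ≤ 2 * N → 
    ∑ z ∈ S.T (k+1), ∏ s ∈ S.top L z, (ρ * S.gam (S.size s)) ≤ 2 * S.gam (k+1)

lemma cost_good {N M Em : ℕ} {ρ : ℝ} (hN : S.Num N M Em ρ) {k : ℕ} (hk : k + 1 ≤ N)
    {A : List (τ × ℕ)} (hG : S.Good ρ A) {z : τ} (hz : z ∈ S.T (k+1))
    (hA : ∀ u ∈ S.psub z, u ∈ keys A) :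
    S.cost A z = 0 ∨ (2:ℝ) ^ (S.cost A z) ≤ ρ * S.gam (k+1) := by
  classical
  obtain ⟨ch, h1, h2, h3⟩ := hN.child k hk z hz
  set J := ch.filter (fun v => tot A (S.sub v) ≠ 0) with hJ
  have hle : S.cost A z ≤ ∑ v ∈ J, tot A (S.sub v) := by
    have : S.cost A z ≤ tot A (ch.biUnion S.sub) := by
      apply tot_mono
      intro p _ hp _
      obtain ⟨v, hv, huv⟩ := h2 p.1 hp
      exact Finset.mem_biUnion.mpr ⟨v, hv, huv⟩
    refine this.trans ((tot_biUnion_le A ch S.sub).trans ?_)
    rw [hJ, Finset.sum_filter_ne_zero]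
  by_cases hne : J.Nonempty
  · right
    calc (2:ℝ) ^ (S.cost A z) ≤ 2 ^ (∑ v ∈ J, tot A (S.sub v)) :=
          pow_le_pow_right₀ (by norm_num) hle
      _ = ∏ v ∈ J, (2:ℝ) ^ (tot A (S.sub v)) := by rw [Finset.prod_pow_eq_pow_sum]
      _ ≤ ∏ v ∈ J, (ρ * S.gam (S.size v)) := by
          apply Finset.prod_le_prod
          · intro v _; positivity
          · intro v hv
            rw [hJ, Finset.mem_filter] at hv
            rcases hG v (hA v (h1 hv.1)) with h | h
            · exact absurd h hv.2
            · exact h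
      _ ≤ ρ * S.gam (k+1) := h3 J (Finset.filter_subset _ _) hne
  · left
    rw [Finset.not_nonempty_iff_eq_empty] at hne
    rw [hne] at hle
    simpa using hle

lemma filter_single {K : List τ} (hKn : K.Nodup) {u : τ} (hu : u ∈ K) :
    K.filter (fun z => decide (z = u)) = [u] := by
  have h4 := List.Nodup.filter (fun z => decide (z = u)) hKn
  have h5 : ∀ z ∈ K.filter (fun z => decide (z = u)), z = u := by
    intro z hz; simpa using (List.mem_filter.mp hz).2
  have h6 : u ∈ K.filter (fun z => decide (z = u)) := by simp [hu]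
  match hL : K.filter (fun z => decide (z = u)) with
  | [] => rw [hL] at h6; simp at h6
  | [a] => rw [hL] at h5; rw [h5 a (by simp)]
  | a :: b :: l =>
    rw [hL] at h4 h5
    have e1 := h5 a (by simp)
    have e2 := h5 b (by simp)
    subst e1; subst e2
    simp at h4

lemma good_step (hS : S.Laws) {M k : ℕ} {ρ : ℝ} {A : List (τ × ℕ)} (hA : S.Inv M k A)
    (hG : S.Good ρ A) {e : ℕ} {K : List τ}
    (hsub : K.Sublist (S.cand (keys A) (k+1))) (hc : ∀ z ∈ K, S.cost A z ≤ e)
    (he : e = 0 ∨ (2:ℝ) ^ e ≤ ρ * S.gam (k+1)) : S.Good ρ (A ++ S.upd A (e, K)) := by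
  obtain ⟨hnd, hmem⟩ := hS.cand_spec (keys A) k hA.nodup hA.memT hA.closed
  have hK : ∀ z ∈ K, z ∈ S.T (k+1) ∧ ∀ u ∈ S.psub z, u ∈ keys A := fun z hz =>
    (hmem z).mp (hsub.subset hz)
  have hKsz : ∀ z ∈ K, S.size z = k + 1 := fun z hz => hS.size_T (hK z hz).1
  have hInv := inv_step hS (M := max M K.length) (A := A)
    ⟨hA.nodup, hA.memT, hA.size_le, hA.closed, hA.lev, fun j => (hA.len j).trans (le_max_left _ _)⟩
    hsub hc (le_max_right _ _)
  have hdisj : ∀ u ∈ keys A, u ∉ K := by
    intro u hu huK
    have h1 := hA.size_le u hu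
    have h2 := hKsz u huK
    omega
  intro u hu
  rw [keys_append, keys_upd, List.mem_append] at hu
  rcases hu with hu | hu
  · have : tot (A ++ S.upd A (e, K)) (S.sub u) = tot A (S.sub u) := by
      rw [tot_append, tot_upd]
      have : K.filter (fun z => decide (z ∈ S.sub u)) = [] := by
        rw [List.filter_eq_nil_iff]
        intro z hz
        simp only [decide_eq_true_eq]
        intro hzs
        rcases Finset.mem_insert.mp hzs with rfl | hzp
        · exact hdisj z hu hz
        · have h1 := (hS.psub_T (hA.memT u hu) hzp).1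
          have h2 := hKsz z hz
          have h3 := hA.size_le u hu
          omega
      simp [this]
    rw [this]
    exact hG u hu
  · have : tot (A ++ S.upd A (e, K)) (S.sub u) = e := by
      rw [tot_append, tot_upd]
      have h1 : tot A (S.sub u) = S.cost A u := by
        unfold cost
        apply tot_congr
        intro p hp
        simp only [sub, Finset.mem_insert]
        constructor
        · rintro (h | h)
          · exfalso
            apply hdisj p.1 (List.mem_map_of_mem hp)
            rw [h]; exact hu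
          · exact h
        · exact Or.inr
      have hKn : K.Nodup := hsub.nodup hnd
      have h2 : K.filter (fun z => decide (z ∈ S.sub u)) = K.filter (fun z => decide (z = u)) := by
        apply List.filter_congr
        intro z hz
        have : z ∈ S.sub u ↔ z = u := by
          simp only [sub, Finset.mem_insert]
          constructor
          · rintro (h | h)
            · exact h
            · exfalso
              have h1 := (hS.psub_T (hK u hu).1 h).1
              have h2 := hKsz z hz
              omega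
          · exact Or.inl
        simp only [this]
      have h3 : K.filter (fun z => decide (z = u)) = [u] := filter_single hKn hu
      rw [h2, h3, h1]
      have := hc u hu
      simp only [List.map_cons, List.map_nil, List.sum_cons, List.sum_nil]
      omega
    rw [this, hKsz u hu]
    exact he

open Classical in
/-- failure indicator of a state -/
noncomputable def fail (S : Sys τ) (ρ : ℝ) (o : Option (List (τ × ℕ))) : ℝ :=
  o.elim 1 (fun A => if S.Good ρ A then 0 else 1)

open Classical in
lemma fail_step (hS : S.Laws) {N M Em : ℕ} {ρ : ℝ} (hN : S.Num N M Em ρ) {F : Finset τ}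
    (hF : S.Closed F) (hFM : 2 * F.card ≤ M) (hFN : F.card ≤ 2 * N) {k : ℕ} (hk : k + 1 ≤ N) :
    E (S.proc M Em (fun u => decide (u ∈ F)) (k+1)) (S.fail ρ) ≤
    E (S.proc M Em (fun u => decide (u ∈ F)) k) (S.fail ρ) + (Em + 1) * (8 / (M * ρ)) := by
  have hγ := hN.gam_pos (k+1) (by omega) hk
  have hR : 0 < ρ * S.gam (k+1) := mul_pos hN.ρ_pos hγ
  have hM : (0:ℝ) < M := by exact_mod_cast hN.M_pos
  have hρ := hN.ρ_pos
  set P := S.proc M Em (fun u => decide (u ∈ F)) k with hP
  -- the weight functional
  set Wf : Option (List (τ × ℕ)) → ℝ := fun o => o.elim 0 (fun A =>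
    if S.Good ρ A then wt (fun u => decide (u ∈ F)) (S.cost A) 0 (S.cand (keys A) (k+1)) else 0)
    with hWf
  have step1 : E (S.proc M Em (fun u => decide (u ∈ F)) (k+1)) (S.fail ρ) ≤
      E P (fun o => S.fail ρ o + (Em + 1) * (4 / (M * (ρ * S.gam (k+1)))) * Wf o) := by
    simp only [proc]
    rw [E_bind]
    apply E_mono_supp
    intro o ho
    cases o with
    | none => simp [fail, hWf]
    | some A =>
      have hA := proc_supp hS ho
      obtain ⟨hnd, hmem⟩ := hS.cand_spec (keys A) k hA.nodup hA.memT hA.closed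
      simp only [Option.elim_some, E_bind, E_ret]
      by_cases hg : S.Good ρ A
      · have h1 : E (loop M (fun u => decide (u ∈ F)) (S.cost A) Em 0 (S.cand (keys A) (k+1)))
            (fun r => S.fail ρ (r.elim none (fun p => some (A ++ S.upd A p)))) ≤
            E (loop M (fun u => decide (u ∈ F)) (S.cost A) Em 0 (S.cand (keys A) (k+1)))
            (bad (ρ * S.gam (k+1))) := by
          apply E_mono_supp
          intro r hr
          cases r with
          | none => simp [fail, bad]
          | some p =>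
            obtain ⟨e, K⟩ := p
            obtain ⟨a1, a2, a3, a4, a5, a6⟩ := loop_supp hr
            simp only [fail, bad, Option.elim_some]
            by_cases he : e = 0 ∨ (2:ℝ) ^ e ≤ ρ * S.gam (k+1)
            · rw [if_pos (good_step hS hA hg a3 a4 he), if_pos he]
            · rw [if_neg he]; split_ifs <;> norm_num
        have h2 := loop_bad M hN.M_pos (fun u => decide (u ∈ F)) (S.cost A) (ρ * S.gam (k+1)) hR
          Em 0 (S.cand (keys A) (k+1))
          (fun z hz => cost_good hN hk hg ((hmem z).mp hz).1 ((hmem z).mp hz).2)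
          (by
            have : ((S.cand (keys A) (k+1)).filter (fun u => decide (u ∈ F))).length ≤ F.card := by
              have hn := hnd.filter (fun u => decide (u ∈ F))
              rw [← List.toFinset_card_of_nodup hn]
              apply Finset.card_le_card
              intro u hu
              simpa using (List.mem_filter.mp (List.mem_toFinset.mp hu)).2
            omega)
          (Or.inl rfl) (by simpa using hN.lt_pow (k+1) hk)
        have h3 : S.fail ρ (some A) = 0 := by simp [fail, hg]
        rw [h3, zero_add, hWf]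
        simp only [Option.elim_some, if_pos hg]
        exact h1.trans h2
      · have h3 : S.fail ρ (some A) = 1 := by simp [fail, hg]
        rw [h3, hWf]
        simp only [Option.elim_some, if_neg hg, mul_zero, add_zero]
        apply E_le_of_le
        intro r
        cases r with
        | none => simp [fail]
        | some p => simp only [fail, Option.elim_some]; split_ifs <;> norm_num
  have step2 : E P Wf ≤ 2 * S.gam (k+1) := by
    set L := F.filter (fun s => 1 ≤ ρ * S.gam (S.size s)) with hL
    have h1 : ∀ o, supp P o → Wf o ≤ ∑ z ∈ S.T (k+1), o.elim 0 (fun A =>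
        if S.Good ρ A ∧ (∀ u ∈ S.psub z, u ∈ keys A) then (2:ℝ) ^ (S.cost A z) else 0) := by
      intro o ho
      cases o with
      | none => simp [hWf]
      | some A =>
        have hA := proc_supp hS ho
        obtain ⟨hnd, hmem⟩ := hS.cand_spec (keys A) k hA.nodup hA.memT hA.closed
        simp only [hWf, Option.elim_some]
        by_cases hg : S.Good ρ A
        · rw [if_pos hg]
          unfold wt
          have h2 : ((S.cand (keys A) (k+1)).map (fun z =>
              if (fun u => decide (u ∈ F)) z = true then (0:ℝ) else 2 ^ (max 0 (S.cost A z)))).sum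
              ≤ ((S.cand (keys A) (k+1)).map (fun z => (2:ℝ) ^ (S.cost A z))).sum := by
            apply List.sum_le_sum
            intro z _
            split_ifs
            · positivity
            · simp
          refine h2.trans ?_
          rw [← List.sum_toFinset _ hnd]
          have h3 : (S.cand (keys A) (k+1)).toFinset
              = (S.T (k+1)).filter (fun z => ∀ u ∈ S.psub z, u ∈ keys A) := by
            ext z
            simp only [List.mem_toFinset, Finset.mem_filter]
            exact hmem z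
          rw [h3, Finset.sum_filter]
          apply Finset.sum_le_sum
          intro z _
          by_cases hz : ∀ u ∈ S.psub z, u ∈ keys A
          · rw [if_pos hz, if_pos ⟨hg, hz⟩]
          · rw [if_neg hz]; split_ifs <;> positivity
        · rw [if_neg hg]
          apply Finset.sum_nonneg
          intro z _
          split_ifs <;> positivity
    refine (E_mono_supp _ h1).trans ?_
    rw [E_sum]
    refine le_trans ?_ (hN.kl k hk L ?_ ?_)
    · apply Finset.sum_le_sum
      intro z hz
      apply fm_one hS hF hz ρ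
      · apply Finset.prod_nonneg
        intro s hs
        simp only [top, Finset.mem_filter, Finset.mem_inter, hL] at hs
        linarith [hs.1.1.2]
      · intro A hA hg hp
        exact tot_le_top hS hg F hz hp
    · have : L.card ≤ F.card := Finset.card_filter_le F (fun s => 1 ≤ ρ * S.gam (S.size s))
      omega
    · have : L.card ≤ F.card := Finset.card_filter_le F (fun s => 1 ≤ ρ * S.gam (S.size s))
      omega
  refine step1.trans ?_
  rw [E_add, E_mul_left]
  have h3 : (0:ℝ) ≤ (Em + 1) * (4 / (M * (ρ * S.gam (k+1)))) := by positivity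
  have h4 := mul_le_mul_of_nonneg_left step2 h3
  have h5 : ((Em:ℝ) + 1) * (4 / (M * (ρ * S.gam (k+1)))) * (2 * S.gam (k+1))
      = (Em + 1) * (8 / (M * ρ)) := by
    field_simp; ring
  linarith

theorem fail_bound (hS : S.Laws) {N M Em : ℕ} {ρ : ℝ} (hN : S.Num N M Em ρ) {F : Finset τ}
    (hF : S.Closed F) (hFM : 2 * F.card ≤ M) (hFN : F.card ≤ 2 * N) (k : ℕ) (hk : k ≤ N) :
    E (S.proc M Em (fun u => decide (u ∈ F)) k) (S.fail ρ) ≤ k * ((Em + 1) * (8 / (M * ρ))) := by
  induction k with
  | zero =>
    simp [proc, fail, Good, keys]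
  | succ k ih =>
    have h1 := ih (by omega)
    have h2 := fail_step hS hN hF hFM hFN hk
    push_cast
    linarith

end Sys

end Pool.Agent.LatticeTrees
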