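import Mathlib
import Pool.Agent.LatticeTrees.FirstMoment
import Pool.Agent.LatticeTrees.Chain

set_option autoImplicit false
set_option linter.unusedSectionVars false
set_option linter.unusedSimpArgs false

namespace Pool.Agent.LatticeTrees

open RC

variable {τ : Type} [DecidableEq τ]

/-- expectation over an independent thinning with retention probability `δ` -/
noncomputable def pexp (δ : ℝ) : List τ → (List τ → ℝ) → ℝ
  | [], g => g []
  | z :: l, g => δ * pexp δ l (fun l' => g (z :: l')) + (1 - δ) * pexp δ l g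

lemma thin_pexp (P : List τ) (g : List τ → ℝ) :
    E (thin (fun _ => false) P) g = pexp (1/2) P g := by
  induction P generalizing g with
  | nil => simp [thin, pexp]
  | cons z l ih =>
    simp only [thin, E_flip, E_bind, E_ret, Bool.false_or, if_true, Bool.false_eq_true, if_false,
      pexp, ih]
    ring

lemma pexp_add (δ : ℝ) (P : List τ) (g h : List τ → ℝ) :
    pexp δ P (fun l => g l + h l) = pexp δ P g + pexp δ P h := by
  induction P generalizing g h with
  | nil => simp [pexp]
  | cons z l ih => simp only [pexp, ih]; ring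

lemma pexp_mul (δ c : ℝ) (P : List τ) (g : List τ → ℝ) :
    pexp δ P (fun l => c * g l) = c * pexp δ P g := by
  induction P generalizing g with
  | nil => simp [pexp]
  | cons z l ih => simp only [pexp, ih]; ring

lemma pexp_comp (δ ε : ℝ) (P : List τ) (g : List τ → ℝ) :
    pexp ε P (fun P' => pexp δ P' g) = pexp (ε * δ) P g := by
  induction P generalizing g with
  | nil => simp [pexp]
  | cons z l ih =>
    simp only [pexp]
    rw [pexp_add, pexp_mul, pexp_mul, ih, ih]
    ring

/-- `j` rounds of halving -/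
def select : ℕ → List τ → RC (List τ)
  | 0, P => ret P
  | j + 1, P => RC.bind (thin (fun _ => false) P) (fun P' => select j P')

lemma pexp_one (P : List τ) (g : List τ → ℝ) : pexp 1 P g = g P := by
  induction P generalizing g with
  | nil => simp [pexp]
  | cons z l ih => simp [pexp, ih]

lemma select_pexp (j : ℕ) (P : List τ) (g : List τ → ℝ) :
    E (select j P) g = pexp ((1/2)^j) P g := by
  induction j generalizing P with
  | zero => simp [select, pexp_one]
  | succ j ih =>
    simp only [select, E_bind, ih]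
    rw [thin_pexp, pexp_comp, pow_succ]
    ring_nf

lemma select_supp {j : ℕ} {P l : List τ} (h : supp (select j P) l) : l.Sublist P := by
  induction j generalizing P with
  | zero => simp only [select, supp_ret] at h; rw [h]
  | succ j ih =>
    simp only [select] at h
    rw [supp_bind] at h
    obtain ⟨P', h1, h2⟩ := h
    exact (ih h2).trans (thin_supp h1).1

lemma select_depth (j : ℕ) (P : List τ) : depthLE (select j P) (j * P.length) := by
  induction j generalizing P with
  | zero => trivial
  | succ j ih =>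
    simp only [select]
    have := depthLE_bind (f := fun P' => select j P') (m := j * P.length)
      (thin_depth (fun _ => false) P) (by
        intro P' hP'
        exact depthLE_mono (ih P') (Nat.mul_le_mul_left _ (thin_supp hP').1.length_le))
    refine depthLE_mono this ?_
    rw [Nat.succ_mul]; omega

lemma pexp_nil_ind (δ : ℝ) (P : List τ) :
    pexp δ P (fun l => if l = [] then 1 else 0) = (1 - δ) ^ P.length := by
  induction P with
  | nil => simp [pexp]
  | cons z l ih =>
    simp only [pexp, ih, List.length_cons, pow_succ]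
    have : pexp δ l (fun l' => if z :: l' = [] then (1:ℝ) else 0) = 0 := by
      have : (fun l' : List τ => if z :: l' = [] then (1:ℝ) else 0) = fun l' => 0 * 1 := by
        funext l'; simp
      rw [this, pexp_mul]; simp
    rw [this]; ring

lemma pexp_single_notMem (δ : ℝ) (P : List τ) (y : τ) (hy : y ∉ P) :
    pexp δ P (fun l => if l = [y] then 1 else 0) = 0 := by
  induction P with
  | nil => simp [pexp]
  | cons z l ih =>
    have hz : z ≠ y := fun h => hy (by simp [h])
    have hl : y ∉ l := fun h => hy (List.mem_cons_of_mem _ h)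
    simp only [pexp, ih hl]
    have : (fun l' : List τ => if z :: l' = [y] then (1:ℝ) else 0) = fun l' => 0 * 1 := by
      funext l'; simp [hz]
    rw [this, pexp_mul]; simp

lemma pexp_single (δ : ℝ) (P : List τ) (hP : P.Nodup) (y : τ) (hy : y ∈ P) :
    pexp δ P (fun l => if l = [y] then 1 else 0) = δ * (1 - δ) ^ (P.length - 1) := by
  induction P with
  | nil => simp at hy
  | cons z l ih =>
    obtain ⟨hz, hl⟩ := List.nodup_cons.mp hP
    simp only [pexp, List.length_cons, Nat.add_sub_cancel]
    by_cases h : z = y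
    · subst h
      have e1 : (fun l' : List τ => if z :: l' = [z] then (1:ℝ) else 0)
          = fun l' => if l' = [] then 1 else 0 := by
        funext l'; simp
      rw [e1, pexp_nil_ind, pexp_single_notMem δ l z hz]; ring
    · have hyl : y ∈ l := by
        rcases List.mem_cons.mp hy with rfl | h2
        · exact absurd rfl h
        · exact h2
      have e1 : (fun l' : List τ => if z :: l' = [y] then (1:ℝ) else 0) = fun l' => 0 * 1 := by
        funext l'; simp [h]
      rw [e1, pexp_mul, ih hl hyl]
      have : 0 < l.length := List.length_pos_of_mem hyl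
      obtain ⟨n, hn⟩ : ∃ n, l.length = n + 1 := ⟨l.length - 1, by omega⟩
      rw [hn, Nat.add_sub_cancel, pow_succ]; ring

/-- choose the unique survivor, if any -/
def pick (x : τ) (l : List τ) : τ := if l.length = 1 then l.headD x else x

lemma pick_cases (x : τ) (l : List τ) : pick x l = x ∨ pick x l ∈ l := by
  unfold pick
  split_ifs with h
  · match l, h with
    | [a], _ => right; simp
  · left; rfl

lemma ind_pick_ge (x y : τ) (l : List τ) :
    (if l = [y] then (1:ℝ) else 0) ≤ ind y (pick x l) := by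
  split_ifs with h
  · subst h; simp [pick, ind]
  · unfold ind; split_ifs <;> norm_num

lemma ind_pick_eq (x y : τ) (hxy : y ≠ x) (l : List τ) :
    ind y (pick x l) = (if l = [y] then (1:ℝ) else 0) := by
  split_ifs with h
  · subst h; simp [pick, ind]
  · unfold ind
    rw [if_neg]
    intro hp
    apply h
    unfold pick at hp
    split_ifs at hp with hl
    · match l, hl with
      | [a], _ => simp at hp; rw [hp]
    · exact absurd hp.symm hxy

namespace Sys

variable (S : Sys τ)

/-- one step of the Markov chain -/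
def step (N M Em : ℕ) (jj : ℕ → ℕ) (x : τ) : RC τ :=
  RC.bind (S.proc M Em (fun u => decide (u ∈ S.sub x)) N) (fun o => o.elim (ret x) (fun A =>
    RC.bind (select (jj ((keys A).filter (fun u => decide (S.size u = N))).length)
      ((keys A).filter (fun u => decide (S.size u = N)))) (fun l => ret (pick x l))))

variable {S}

lemma sub_closed (hS : S.Laws) {N : ℕ} {x : τ} (hx : x ∈ S.T N) : S.Closed (S.sub x) := by
  intro u hu
  rcases Finset.mem_insert.mp hu with rfl | hu
  · refine ⟨by rw [hS.size_T hx]; exact hx, fun v hv => Finset.mem_insert_of_mem hv⟩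
  · exact ⟨(hS.psub_T hx hu).2, fun v hv => Finset.mem_insert_of_mem (hS.psub_trans hx hu hv)⟩

lemma sub_union_closed (hS : S.Laws) {N : ℕ} {x y : τ} (hx : x ∈ S.T N) (hy : y ∈ S.T N) :
    S.Closed (S.sub x ∪ S.sub y) := by
  intro u hu
  rw [Finset.mem_union] at hu
  rcases hu with hu | hu
  · exact ⟨(sub_closed hS hx u hu).1, fun v hv =>
      Finset.mem_union_left _ ((sub_closed hS hx u hu).2 v hv)⟩
  · exact ⟨(sub_closed hS hy u hu).1, fun v hv =>
      Finset.mem_union_right _ ((sub_closed hS hy u hu).2 v hv)⟩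

lemma sub_size_le (hS : S.Laws) {N : ℕ} {x u : τ} (hx : x ∈ S.T N) (hu : u ∈ S.sub x) :
    S.size u ≤ N := by
  rcases Finset.mem_insert.mp hu with rfl | hu
  · rw [hS.size_T hx]
  · exact (hS.psub_T hx hu).1.le

lemma card_sub_le (hS : S.Laws) {N : ℕ} {x : τ} (hx : x ∈ S.T N) : (S.sub x).card ≤ N := by
  have h1 := hS.card_psub hx
  have h2 : (S.sub x).card ≤ (S.psub x).card + 1 := Finset.card_insert_le _ _
  omega

lemma sub_mem_keys_iff (hS : S.Laws) {N M : ℕ} {x : τ} (hx : x ∈ S.T N) {A : List (τ × ℕ)}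
    (hA : S.Inv M N A) : (∀ u ∈ S.sub x, S.size u ≤ N → u ∈ keys A) ↔ x ∈ keys A := by
  constructor
  · intro H
    exact H x (by simp [sub]) (by rw [hS.size_T hx])
  · intro H u hu _
    rcases Finset.mem_insert.mp hu with rfl | hu
    · exact H
    · exact hA.closed x H u hu

lemma step_supp (hS : S.Laws) {N M Em : ℕ} {jj : ℕ → ℕ} {x : τ} (hx : x ∈ S.T N) {y : τ}
    (h : supp (S.step N M Em jj x) y) : y ∈ S.T N := by
  simp only [step] at h
  rw [supp_bind] at h
  obtain ⟨o, ho, h⟩ := h
  cases o with
  | none => simp at h; rw [h]; exact hx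
  | some A =>
    have hA := proc_supp hS ho
    simp only [Option.elim_some] at h
    rw [supp_bind] at h
    obtain ⟨l, hl, h⟩ := h
    simp only [supp_ret] at h
    rcases pick_cases x l with h1 | h1
    · rw [h, h1]; exact hx
    · rw [h]
      have h2 := (select_supp hl).subset h1
      rw [List.mem_filter] at h2
      have h3 := hA.memT _ h2.1
      have h4 : S.size (pick x l) = N := by simpa using h2.2
      rw [h4] at h3
      exact h3

/-- the selection probability -/
noncomputable def sel (jj : ℕ → ℕ) (n : ℕ) : ℝ := (1/2)^(jj n) * (1 - (1/2)^(jj n)) ^ (n - 1)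

lemma sel_nonneg (jj : ℕ → ℕ) (n : ℕ) : 0 ≤ sel jj n := by
  unfold sel
  have h1 : ((1:ℝ)/2)^(jj n) ≤ 1 := pow_le_one₀ (by norm_num) (by norm_num)
  have h2 : (0:ℝ) ≤ (1/2)^(jj n) := by positivity
  apply mul_nonneg h2
  apply pow_nonneg
  linarith

/-- the last generation -/
def lastGen (S : Sys τ) (N : ℕ) (A : List (τ × ℕ)) : List τ :=
  (keys A).filter (fun u => decide (S.size u = N))

/-- pair functional -/
noncomputable def pairFun (S : Sys τ) (N : ℕ) (jj : ℕ → ℕ) (y : τ) (o : Option (List (τ × ℕ))) : ℝ :=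
  o.elim 0 (fun A => if y ∈ keys A then sel jj (S.lastGen N A).length else 0)

lemma step_ge (hS : S.Laws) {N M Em : ℕ} {jj : ℕ → ℕ} {x y : τ} (hy : y ∈ S.T N) :
    E (S.proc M Em (fun u => decide (u ∈ S.sub x)) N) (S.pairFun N jj y)
      ≤ E (S.step N M Em jj x) (ind y) := by
  simp only [step, E_bind]
  apply E_mono_supp
  intro o ho
  cases o with
  | none => simp only [pairFun, Option.elim_none, E_ret, ind]; split_ifs <;> norm_num
  | some A =>
    have hA := proc_supp hS ho
    simp only [pairFun, Option.elim_some, E_bind, E_ret]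
    have h1 : E (select (jj ((keys A).filter (fun u => decide (S.size u = N))).length)
        ((keys A).filter (fun u => decide (S.size u = N)))) (fun l => if l = [y] then 1 else 0)
        ≤ E (select (jj ((keys A).filter (fun u => decide (S.size u = N))).length)
        ((keys A).filter (fun u => decide (S.size u = N)))) (fun l => ind y (pick x l)) :=
      E_mono _ (fun l => ind_pick_ge x y l)
    refine le_trans ?_ h1
    rw [select_pexp]
    split_ifs with hk
    · rw [pexp_single _ _ (hA.nodup.filter _) y (by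
        rw [List.mem_filter]; exact ⟨hk, by simp [hS.size_T hy]⟩)]
      exact le_rfl
    · rw [pexp_single_notMem]
      intro h
      exact hk (List.mem_filter.mp h).1

lemma step_eq (hS : S.Laws) {N M Em : ℕ} {jj : ℕ → ℕ} {x y : τ} (hy : y ∈ S.T N)
    (hxy : y ≠ x) :
    E (S.step N M Em jj x) (ind y) =
    E (S.proc M Em (fun u => decide (u ∈ S.sub x)) N) (S.pairFun N jj y) := by
  simp only [step, E_bind]
  apply E_congr_supp
  intro o ho
  cases o with
  | none =>
    simp only [pairFun, Option.elim_none, E_ret, ind]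
    rw [if_neg (fun h => hxy h.symm)]
  | some A =>
    have hA := proc_supp hS ho
    simp only [pairFun, Option.elim_some, E_bind, E_ret]
    rw [E_congr _ (fun l => ind_pick_eq x y hxy l)]
    rw [select_pexp]
    split_ifs with hk
    · rw [pexp_single _ _ (hA.nodup.filter _) y (by
        rw [List.mem_filter]; exact ⟨hk, by simp [hS.size_T hy]⟩)]
      rfl
    · rw [pexp_single_notMem]
      intro h
      exact hk (List.mem_filter.mp h).1

lemma pair_symm (hS : S.Laws) {N M Em : ℕ} {jj : ℕ → ℕ} {x y : τ} (hx : x ∈ S.T N)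
    (hy : y ∈ S.T N) :
    E (S.proc M Em (fun u => decide (u ∈ S.sub x)) N) (S.pairFun N jj y) =
    E (S.proc M Em (fun u => decide (u ∈ S.sub y)) N) (S.pairFun N jj x) := by
  rw [proc_cm hS (sub_closed hS hx) N _ (by simp [pairFun]),
    proc_cm hS (sub_closed hS hy) N _ (by simp [pairFun])]
  apply E_congr_supp
  intro o ho
  cases o with
  | none => simp
  | some A =>
    have hA := proc_supp hS ho
    simp only [Option.elim_some, pairFun, sub_mem_keys_iff hS hx hA, sub_mem_keys_iff hS hy hA]
    by_cases h1 : x ∈ keys A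
    · by_cases h2 : y ∈ keys A
      · obtain ⟨l, hl⟩ := hA.lev
        have e1 := hl x h1
        have e2 := hl y h2
        rw [hS.size_T hx] at e1
        rw [hS.size_T hy] at e2
        simp only [h1, h2, if_true, e1, e2]
      · simp [h1, h2]
    · by_cases h2 : y ∈ keys A <;> simp [h1, h2]

theorem step_symm (hS : S.Laws) {N M Em : ℕ} {jj : ℕ → ℕ} {x y : τ} (hx : x ∈ S.T N)
    (hy : y ∈ S.T N) :
    E (S.step N M Em jj x) (ind y) = E (S.step N M Em jj y) (ind x) := by
  by_cases h : y = x
  · subst h; rfl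
  · rw [step_eq hS hy h, step_eq hS hx (fun h' => h h'.symm), pair_symm hS hx hy]

lemma sel_ge {jj : ℕ → ℕ} {n M : ℕ} (hn : 1 ≤ n) (hnM : n ≤ M)
    (hj1 : 2 * n ≤ 2 ^ (jj n)) (hj2 : 2 ^ (jj n) ≤ 4 * M) : 1 / (8 * (M:ℝ)) ≤ sel jj n := by
  have hn' : (1:ℝ) ≤ n := by exact_mod_cast hn
  have hM' : (n:ℝ) ≤ M := by exact_mod_cast hnM
  have h1 : (2:ℝ) * n ≤ 2 ^ (jj n) := by exact_mod_cast hj1
  have h2 : (2:ℝ) ^ (jj n) ≤ 4 * M := by exact_mod_cast hj2
  have h3 : ((1:ℝ)/2)^(jj n) = 1 / 2^(jj n) := by rw [div_pow, one_pow]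
  have h4 : (1:ℝ)/(4*M) ≤ (1/2)^(jj n) := by
    rw [h3]; exact one_div_le_one_div_of_le (by positivity) h2
  have h5 : ((1:ℝ)/2)^(jj n) ≤ 1/(2*n) := by
    rw [h3]; exact one_div_le_one_div_of_le (by positivity) h1
  have h6 : (1:ℝ)/2 ≤ (1 - (1/2)^(jj n)) ^ (n - 1) := by
    have hb : (1:ℝ) + ((n-1:ℕ):ℝ) * (-(1/2)^(jj n)) ≤ (1 + (-(1/2)^(jj n))) ^ (n-1) := by
      apply one_add_mul_le_pow
      have : ((1:ℝ)/2)^(jj n) ≤ 1 := pow_le_one₀ (by norm_num) (by norm_num)
      linarith
    have hc : ((n-1:ℕ):ℝ) = n - 1 := by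
      rw [Nat.cast_sub hn]; simp
    rw [hc] at hb
    have h7 : ((n:ℝ) - 1) * (1/2)^(jj n) ≤ 1/2 := by
      calc ((n:ℝ) - 1) * (1/2)^(jj n) ≤ ((n:ℝ) - 1) * (1/(2*n)) :=
            mul_le_mul_of_nonneg_left h5 (by linarith)
        _ ≤ n * (1/(2*n)) := mul_le_mul_of_nonneg_right (by linarith) (by positivity)
        _ = 1/2 := by field_simp
    have h8 : (1:ℝ) + (-(1/2)^(jj n)) = 1 - (1/2)^(jj n) := by ring
    rw [h8] at hb
    linarith
  unfold sel
  have hM0 : (0:ℝ) < M := by linarith
  calc 1 / (8 * (M:ℝ)) = 1/(4*M) * (1/2) := by field_simp; norm_num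
    _ ≤ (1/2)^(jj n) * (1 - (1/2)^(jj n)) ^ (n - 1) :=
        mul_le_mul h4 h6 (by norm_num) (by positivity)

theorem step_min (hS : S.Laws) {N M Em : ℕ} {ρ : ℝ} (hN : S.Num N M Em ρ) {jj : ℕ → ℕ}
    (hj : ∀ n, 1 ≤ n → n ≤ M → 2 * n ≤ 2 ^ (jj n) ∧ 2 ^ (jj n) ≤ 4 * M)
    (hMN : 4 * N ≤ M) (hN1 : 1 ≤ N) (hρ1 : ρ ≤ 1) (hγ1 : 1 ≤ S.gam N)
    (hfail : (N:ℝ) * ((Em + 1) * (8 / (M * ρ))) ≤ 1/2)
    {x y : τ} (hx : x ∈ S.T N) (hy : y ∈ S.T N) :
    (1 / (16 * M)) / S.gam N ≤ E (S.step N M Em jj x) (ind y) := by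
  classical
  have hM : (0:ℝ) < M := by exact_mod_cast hN.M_pos
  refine le_trans ?_ (step_ge hS hy)
  set F := S.sub x ∪ S.sub y with hFdef
  have hF : S.Closed F := sub_union_closed hS hx hy
  have hFc : F.card ≤ 2 * N := by
    have h1 := card_sub_le hS hx
    have h2 := card_sub_le hS hy
    have h3 : F.card ≤ (S.sub x).card + (S.sub y).card := Finset.card_union_le _ _
    omega
  -- compare with the process in which both are frozen
  set H : Option (List (τ × ℕ)) → ℝ := fun o => o.elim 0 (fun A =>
    (2:ℝ) ^ (tot A (S.sub x)) / 2 ^ (tot A F) * sel jj (S.lastGen N A).length) with hH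
  have e1 : E (S.proc M Em (fun u => decide (u ∈ S.sub x)) N) (S.pairFun N jj y)
      = E (S.proc M Em (fun u => decide (u ∈ F)) N) H := by
    rw [proc_cm hS (sub_closed hS hx) N _ (by simp [pairFun]),
      proc_cm hS hF N H (by simp [hH])]
    apply E_congr_supp
    intro o ho
    cases o with
    | none => simp
    | some A =>
      have hA := proc_supp hS ho
      simp only [Option.elim_some, pairFun, sub_mem_keys_iff hS hx hA, hH]
      have hiff : (∀ u ∈ F, S.size u ≤ N → u ∈ keys A) ↔ (x ∈ keys A ∧ y ∈ keys A) := by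
        rw [← sub_mem_keys_iff hS hx hA, ← sub_mem_keys_iff hS hy hA]
        constructor
        · intro H
          exact ⟨fun u hu hs => H u (Finset.mem_union_left _ hu) hs,
            fun u hu hs => H u (Finset.mem_union_right _ hu) hs⟩
        · rintro ⟨H1, H2⟩ u hu hs
          rcases Finset.mem_union.mp hu with h | h
          · exact H1 u h hs
          · exact H2 u h hs
      simp only [hiff]
      by_cases h1 : x ∈ keys A <;> by_cases h2 : y ∈ keys A <;> simp [h1, h2]
      field_simp
  rw [e1]
  -- lower bound on good states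
  have e2 : ∀ o, supp (S.proc M Em (fun u => decide (u ∈ F)) N) o →
      (1 / (8 * M)) / S.gam N * (1 - S.fail ρ o) ≤ H o := by
    intro o ho
    cases o with
    | none => simp [hH, fail]
    | some A =>
      have hA := proc_supp hS ho
      have hfr := proc_supp_frozen hS hF ho
      have hyk : y ∈ keys A := hfr y (Finset.mem_union_right _ (by simp [sub])) (by
        rw [hS.size_T hy])
      simp only [hH, Option.elim_some, fail]
      by_cases hg : S.Good ρ A
      · rw [if_pos hg, sub_zero, mul_one]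
        have h1 : tot A F ≤ tot A (S.sub x) + tot A (S.sub y) := by
          have h0 : tot A F + tot A (S.sub x ∩ S.sub y) = tot A (S.sub x) + tot A (S.sub y) := by
            have := tot_union_inter A (S.sub x) (S.sub y)
            rw [hFdef]; omega
          omega
        have h2 : (2:ℝ) ^ (tot A (S.sub y)) ≤ S.gam N := by
          rcases hg y hyk with h | h
          · rw [h, pow_zero]; exact hγ1
          · rw [hS.size_T hy] at h
            refine h.trans ?_
            calc ρ * S.gam N ≤ 1 * S.gam N := mul_le_mul_of_nonneg_right hρ1 (by linarith)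
              _ = S.gam N := one_mul _
        have h3 : 1 / S.gam N ≤ (2:ℝ) ^ (tot A (S.sub x)) / 2 ^ (tot A F) := by
          rw [div_le_div_iff₀ (by linarith) (by positivity), one_mul]
          calc (2:ℝ) ^ (tot A F) ≤ 2 ^ (tot A (S.sub x) + tot A (S.sub y)) :=
                pow_le_pow_right₀ (by norm_num) h1
            _ = 2 ^ (tot A (S.sub x)) * 2 ^ (tot A (S.sub y)) := pow_add _ _ _
            _ ≤ 2 ^ (tot A (S.sub x)) * S.gam N :=
                mul_le_mul_of_nonneg_left h2 (by positivity)
        have hlen1 : 1 ≤ (S.lastGen N A).length := by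
          apply List.length_pos_of_mem (a := y)
          unfold lastGen
          rw [List.mem_filter]
          exact ⟨hyk, by simp [hS.size_T hy]⟩
        have hlenM : (S.lastGen N A).length ≤ M := hA.len N
        have h4 := sel_ge (M := M) hlen1 hlenM (hj _ hlen1 hlenM).1 (hj _ hlen1 hlenM).2
        calc (1 / (8 * (M:ℝ))) / S.gam N = 1 / S.gam N * (1 / (8 * M)) := by
              field_simp
          _ ≤ (2:ℝ) ^ (tot A (S.sub x)) / 2 ^ (tot A F) * sel jj (S.lastGen N A).length :=
              mul_le_mul h3 h4 (by positivity) (by positivity)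
      · rw [if_neg hg]
        simp only [sub_self, mul_zero]
        have := sel_nonneg jj (S.lastGen N A).length
        positivity
  refine le_trans ?_ (E_mono_supp _ e2)
  rw [E_mul_left, E_sub, E_const]
  have h5 := fail_bound hS hN hF (by omega) hFc N le_rfl
  have h6 : (1:ℝ)/2 ≤ 1 - E (S.proc M Em (fun u => decide (u ∈ F)) N) (S.fail ρ) := by
    linarith
  have hγ0 : 0 < S.gam N := by linarith
  calc (1 / (16 * (M:ℝ))) / S.gam N = (1 / (8 * M)) / S.gam N * (1/2) := by
        field_simp; norm_num
    _ ≤ _ := mul_le_mul_of_nonneg_left h6 (by positivity)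

/-- Convergence of the chain. -/
theorem chain_conv (hS : S.Laws) {N M Em : ℕ} {ρ : ℝ} (hN : S.Num N M Em ρ) {jj : ℕ → ℕ}
    (hj : ∀ n, 1 ≤ n → n ≤ M → 2 * n ≤ 2 ^ (jj n) ∧ 2 ^ (jj n) ≤ 4 * M)
    (hMN : 4 * N ≤ M) (hN1 : 1 ≤ N) (hρ1 : ρ ≤ 1)
    (hfail : (N:ℝ) * ((Em + 1) * (8 / (M * ρ))) ≤ 1/2)
    (g : τ → ℝ) (hg0 : ∀ x, 0 ≤ g x) (hg1 : ∀ x, g x ≤ 1) (R : ℕ) {x : τ} (hx : x ∈ S.T N) :
    |E (iter (S.step N M Em jj) R x) g - (∑ y ∈ S.T N, g y) / (S.T N).card|
      ≤ (1 - 1 / (16 * M)) ^ R := by
  have hγ1 : 1 ≤ S.gam N := by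
    unfold gam
    have : 0 < (S.T N).card := Finset.card_pos.mpr ⟨x, hx⟩
    exact_mod_cast this
  refine RC.chain (S.T N) ⟨x, hx⟩ (S.step N M Em jj) (1/(16 * M)) ?_ ?_ ?_ g hg0 hg1 R x hx
  · intro x hx y hy; exact step_supp hS hx hy
  · intro x hx y hy; exact step_symm hS hx hy
  · intro x hx y hy
    exact step_min hS hN hj hMN hN1 hρ1 hγ1 hfail hx hy

end Sys

end Pool.Agent.LatticeTrees
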