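import Mathlib
import Pool.Agent.PT.More
import Pool.Agent.LatticeTrees.Step

set_option autoImplicit false
set_option linter.unusedSectionVars false
set_option linter.unusedSimpArgs false

namespace Pool.Agent.LatticeTrees

open RC Pool.Agent.PT

variable {τ : Type} [DecidableEq τ] [Enc τ] {α β : Type} [Enc α] [Enc β]

/-! ### sizes -/

lemma sz_tail_le {l : List β} : sz l.tail ≤ sz l := sz_le_of_sublist (List.tail_sublist l)

/-! ### thinning -/

/-- one step of the thinning loop on bits -/
def thinStep (keep : τ → Bool) (s : List τ × List Bool) (z : τ) : List τ × List Bool :=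
  (if keep z || s.2.headD false then z :: s.1 else s.1, s.2.tail)

lemma run_thin (keep : τ → Bool) (K : List τ) (bits : List Bool) (acc : List τ) :
    K.foldl (thinStep keep) (acc, bits) =
      ((run (thin keep K) bits).1.reverse ++ acc, (run (thin keep K) bits).2) := by
  induction K generalizing bits acc with
  | nil => simp [thin, run]
  | cons z K ih =>
    simp only [List.foldl_cons]
    have e : thinStep keep (acc, bits) z =
        (if keep z || bits.headD false then z :: acc else acc, bits.tail) := rfl
    rw [e, ih]
    simp only [thin, run, run_bind]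
    split_ifs with h
    · simp
    · simp

lemma run_thin' (keep : τ → Bool) (K : List τ) (bits : List Bool) :
    run (thin keep K) bits = ((K.foldl (thinStep keep) ([], bits)).1.reverse,
      (K.foldl (thinStep keep) ([], bits)).2) := by
  rw [run_thin]; simp

lemma run_thin_bits (keep : τ → Bool) (K : List τ) (bits : List Bool) :
    (run (thin keep K) bits).2.Sublist bits := by
  induction K generalizing bits with
  | nil => simp [thin, run]
  | cons z K ih =>
    simp only [thin, run, run_bind]
    exact (ih bits.tail).trans (List.tail_sublist _)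

theorem polyTime_thin {keep : α → τ → Bool} {K : α → List τ} {bits : α → List Bool}
    (hkeep : PolyTime (fun p : α × τ => keep p.1 p.2)) (hK : PolyTime K)
    (hbits : PolyTime bits) :
    PolyTime (fun x => run (thin (keep x) (K x)) (bits x)) := by
  have hKb := hK.pbdd
  have h := PolyTime.foldl_add (l := K) (g := fun x s z => thinStep (keep x) s z)
    (y := fun x => (([] : List τ), bits x)) hK (by
      unfold thinStep
      refine PolyTime.pair ?_ (by fun_prop)
      refine (PolyTime.cond (t := fun p : α × ((List τ × List Bool) × τ) =>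
        keep p.1 p.2.2 || p.2.1.2.headD false) (f := fun p => p.2.2 :: p.2.1.1)
        (g := fun p => p.2.1.1) ?_ ?_ ?_).congr ?_
      · have : PolyTime (fun p : α × ((List τ × List Bool) × τ) => keep p.1 p.2.2) :=
          hkeep.comp (f := fun p : α × ((List τ × List Bool) × τ) => (p.1, p.2.2)) (by fun_prop)
        fun_prop
      · exact PolyTime.cons (by fun_prop) (by fun_prop)
      · fun_prop
      · intro p
        cases (keep p.1 p.2.2 || p.2.1.2.headD false) <;> rfl) (by fun_prop)
    (s := fun x => sz (K x) + 1) (by fun_prop) (by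
      intro x z hz c
      have h1 : sz z ≤ sz (K x) := sz_le_of_mem hz
      have h2 : sz c.2.tail ≤ sz c.2 := sz_tail_le
      unfold thinStep
      simp only [sz_prod]
      split_ifs
      · rw [sz_cons]; omega
      · omega)
  refine (PolyTime.pair (PolyTime.reverse (PolyTime.fst h)) (PolyTime.snd h)).congr ?_
  intro x
  rw [run_thin']

/-! ### selection -/

/-- one round of halving on bits -/
def selStep (s : List τ × List Bool) : List τ × List Bool := run (thin (fun _ => false) s.1) s.2

lemma run_select (j : ℕ) (P : List τ) (bits : List Bool) :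
    run (select j P) bits = selStep^[j] (P, bits) := by
  induction j generalizing P bits with
  | zero => rfl
  | succ j ih =>
    rw [Function.iterate_succ_apply]
    simp only [select, run_bind, ih]
    rfl

lemma selStep_sz (s : List τ × List Bool) : sz (selStep s) ≤ sz s := by
  unfold selStep
  have h1 : (run (thin (fun _ => false) s.1) s.2).1.Sublist s.1 :=
    (thin_supp (run_supp _ _)).1
  have h2 := run_thin_bits (fun _ : τ => false) s.1 s.2
  have h3 := sz_le_of_sublist h1
  have h4 := sz_le_of_sublist h2
  simp only [sz_prod]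
  omega

lemma iterate_sz_le {f : β → β} (hf : ∀ s, sz (f s) ≤ sz s) (i : ℕ) (s : β) :
    sz (f^[i] s) ≤ sz s := by
  induction i generalizing s with
  | zero => exact le_rfl
  | succ i ih =>
    rw [Function.iterate_succ_apply]
    exact (ih _).trans (hf s)

lemma polyTime_selStep : PolyTime (selStep (τ := τ)) := by
  unfold selStep
  exact polyTime_thin (by fun_prop) (by fun_prop) (by fun_prop)

theorem polyTime_select {j : α → ℕ} {P : α → List τ} {bits : α → List Bool}
    (hj : PolyTime j) (hP : PolyTime P) (hbits : PolyTime bits) :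
    PolyTime (fun x => run (select (j x) (P x)) (bits x)) := by
  have h := PolyTime.iterate (f := selStep (τ := τ)) (n := j) (g := fun x => (P x, bits x))
    polyTime_selStep hj (by fun_prop) (s := fun x => sz (P x, bits x))
    (PolyTime.pbdd (by fun_prop)) (fun x i _ => iterate_sz_le selStep_sz i _)
  refine h.congr ?_
  intro x
  rw [run_select]

theorem polyTime_pick {x : α → τ} {l : α → List τ} (hx : PolyTime x) (hl : PolyTime l) :
    PolyTime (fun a => pick (x a) (l a)) := by
  unfold pick
  exact PolyTime.ite (by fun_prop) (by fun_prop) (by fun_prop)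

/-! ### the halving loop -/

/-- state of the halving loop -/
def loopStep (M : ℕ) (F : τ → Bool) (c : τ → ℕ) (s : ℕ × List τ × List Bool) :
    ℕ × List τ × List Bool :=
  if stop M c s.1 s.2.1 then s else
    (s.1 + 1, run (thin (fun z => decide (s.1 < c z) || F z) s.2.1) s.2.2)

/-- reading off the result of the loop -/
def loopOut (M : ℕ) (c : τ → ℕ) (s : ℕ × List τ × List Bool) :
    Option (ℕ × List τ) × List Bool :=
  (if stop M c s.1 s.2.1 then some (s.1, s.2.1) else none, s.2.2)

lemma loopStep_stop {M : ℕ} {F : τ → Bool} {c : τ → ℕ} {s : ℕ × List τ × List Bool}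
    (h : stop M c s.1 s.2.1 = true) (n : ℕ) : (loopStep M F c)^[n] s = s := by
  have : loopStep M F c s = s := by simp [loopStep, h]
  exact Function.iterate_fixed this n

lemma run_loop (M : ℕ) (F : τ → Bool) (c : τ → ℕ) (n e : ℕ) (K : List τ) (bits : List Bool) :
    run (loop M F c n e K) bits = loopOut M c ((loopStep M F c)^[n] (e, K, bits)) := by
  induction n generalizing e K bits with
  | zero =>
    simp only [loop, Function.iterate_zero, id_eq, loopOut]
    by_cases hs : stop M c e K = true
    · simp only [hs, if_true]; rfl
    · simp only [hs]; rfl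
  | succ n ih =>
    by_cases hs : stop M c e K = true
    · rw [loopStep_stop (s := (e, K, bits)) hs]
      simp only [loop, hs, if_true, loopOut, run]
    · rw [Function.iterate_succ_apply]
      have e1 : loopStep M F c (e, K, bits) =
          (e + 1, run (thin (fun z => decide (e < c z) || F z) K) bits) := by
        simp [loopStep, hs]
      rw [e1]
      simp only [loop, hs, run_bind, Bool.false_eq_true, if_false]
      rw [ih]

lemma loopStep_sz (M : ℕ) (F : τ → Bool) (c : τ → ℕ) (s : ℕ × List τ × List Bool) :
    sz (loopStep M F c s) ≤ sz s + 2 := by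
  unfold loopStep
  split_ifs with h
  · omega
  · have h1 : (run (thin (fun z => decide (s.1 < c z) || F z) s.2.1) s.2.2).1.Sublist s.2.1 :=
      (thin_supp (run_supp _ _)).1
    have h2 := run_thin_bits (fun z => decide (s.1 < c z) || F z) s.2.1 s.2.2
    have h3 := sz_le_of_sublist h1
    have h4 := sz_le_of_sublist h2
    simp only [sz_prod, sz_nat]
    omega

lemma iterate_sz_add {f : β → β} {C : ℕ} (hf : ∀ s, sz (f s) ≤ sz s + C) (i : ℕ) (s : β) :
    sz (f^[i] s) ≤ sz s + i * C := by
  induction i generalizing s with
  | zero => simp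
  | succ i ih =>
    rw [Function.iterate_succ_apply]
    have h1 := ih (f s)
    have h2 := hf s
    rw [Nat.add_mul]
    omega

theorem polyTime_stop {M : α → ℕ} {c : α → τ → ℕ} {e : α → ℕ} {K : α → List τ}
    (hM : PolyTime M) (hc : PolyTime (fun p : α × τ => c p.1 p.2)) (he : PolyTime e)
    (hK : PolyTime K) : PolyTime (fun x => stop (M x) (c x) (e x) (K x)) := by
  unfold stop
  refine PolyTime.and ?_ (by fun_prop)
  refine PolyTime.all hK ?_
  have : PolyTime (fun p : α × τ => e p.1) := he.comp PolyTime.fst'
  fun_prop

theorem polyTime_loop {M : α → ℕ} {F : α → τ → Bool} {c : α → τ → ℕ} {n : α → ℕ}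
    {K : α → List τ} {bits : α → List Bool}
    (hM : PolyTime M) (hF : PolyTime (fun p : α × τ => F p.1 p.2))
    (hc : PolyTime (fun p : α × τ => c p.1 p.2)) (hn : PolyTime n)
    (hK : PolyTime K) (hbits : PolyTime bits) :
    PolyTime (fun x => run (loop (M x) (F x) (c x) (n x) 0 (K x)) (bits x)) := by
  have hstep : PolyTime (fun p : α × (ℕ × List τ × List Bool) =>
      loopStep (M p.1) (F p.1) (c p.1) p.2) := by
    unfold loopStep
    have hc' : PolyTime (fun q : (α × (ℕ × List τ × List Bool)) × τ => c q.1.1 q.2) :=
      hc.comp (f := fun q : (α × (ℕ × List τ × List Bool)) × τ => (q.1.1, q.2)) (by fun_prop)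
    have hF' : PolyTime (fun q : (α × (ℕ × List τ × List Bool)) × τ => F q.1.1 q.2) :=
      hF.comp (f := fun q : (α × (ℕ × List τ × List Bool)) × τ => (q.1.1, q.2)) (by fun_prop)
    have hM' : PolyTime (fun p : α × (ℕ × List τ × List Bool) => M p.1) := hM.comp PolyTime.fst'
    refine (PolyTime.cond (t := fun p : α × (ℕ × List τ × List Bool) =>
      stop (M p.1) (c p.1) p.2.1 p.2.2.1) (f := fun p => p.2)
      (g := fun p => (p.2.1 + 1, run (thin (fun z => decide (p.2.1 < c p.1 z) || F p.1 z) p.2.2.1)
        p.2.2.2)) ?_ (by fun_prop) ?_).congr ?_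
    · exact polyTime_stop hM' hc' (by fun_prop) (by fun_prop)
    · refine PolyTime.pair (by fun_prop) ?_
      exact polyTime_thin (keep := fun (p : α × (ℕ × List τ × List Bool)) z =>
        decide (p.2.1 < c p.1 z) || F p.1 z) (by fun_prop) (by fun_prop) (by fun_prop)
    · intro p
      cases h : stop (M p.1) (c p.1) p.2.1 p.2.2.1 <;> simp [h]
  have h := PolyTime.iterate' (f := fun x s => loopStep (M x) (F x) (c x) s) (n := n)
    (g := fun x => ((0:ℕ), K x, bits x)) hstep hn (by fun_prop)
    (s := fun x => sz ((0:ℕ), K x, bits x) + n x * 2) (by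
      have h1 : PBdd (fun x => sz ((0:ℕ), K x, bits x)) := PolyTime.pbdd (by fun_prop)
      have h2 : PBdd n := (hn.pbdd).of_le (fun x => by rw [sz_nat]; omega)
      fun_prop) (by
      intro x i hi
      have := iterate_sz_add (loopStep_sz (M x) (F x) (c x)) i ((0:ℕ), K x, bits x)
      have h2 : i * 2 ≤ n x * 2 := by omega
      exact this.trans (by omega))
  have hout : PolyTime (fun p : α × (ℕ × List τ × List Bool) => loopOut (M p.1) (c p.1) p.2) := by
    unfold loopOut
    have hM' : PolyTime (fun p : α × (ℕ × List τ × List Bool) => M p.1) := hM.comp PolyTime.fst'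
    have hc' : PolyTime (fun q : (α × (ℕ × List τ × List Bool)) × τ => c q.1.1 q.2) :=
      hc.comp (f := fun q : (α × (ℕ × List τ × List Bool)) × τ => (q.1.1, q.2)) (by fun_prop)
    refine PolyTime.pair ?_ (by fun_prop)
    refine (PolyTime.cond (t := fun p : α × (ℕ × List τ × List Bool) =>
      stop (M p.1) (c p.1) p.2.1 p.2.2.1) (f := fun p => some (p.2.1, p.2.2.1))
      (g := fun p => none) ?_ ?_ (by fun_prop)).congr ?_
    · exact polyTime_stop hM' hc' (by fun_prop) (by fun_prop)
    · exact PolyTime.some (by fun_prop)
    · intro p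
      cases h : stop (M p.1) (c p.1) p.2.1 p.2.2.1 <;> simp [h]
  refine (hout.comp (PolyTime.pair PolyTime.id h)).congr ?_
  intro x
  rw [run_loop]

end Pool.Agent.LatticeTrees
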