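import Mathlib
import Pool.Agent.LatticeTrees.FirstMoment

set_option autoImplicit false
set_option linter.unusedSectionVars false
set_option linter.unusedSimpArgs false

namespace Pool.Agent.LatticeTrees

/-- a planar lattice given by its neighbour function on `ℤ × ℤ` -/
structure Lat where
  m : ℕ
  nb : ℤ × ℤ → ℕ → ℤ × ℤ

/-- strip a common beginning -/
def strip : List ℕ → List ℕ → Option (List ℕ)
  | [], w => some w
  | _ :: _, [] => none
  | a :: p, b :: w => if a = b then strip p w else none

lemma strip_eq_some {p w q : List ℕ} : strip p w = some q ↔ w = p ++ q := by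
  induction p generalizing w with
  | nil => simp [strip]
  | cons a p ih =>
    cases w with
    | nil => simp [strip]
    | cons b w =>
      simp only [strip, List.cons_append, List.cons.injEq]
      by_cases h : a = b
      · simp [h, ih]
      · simp [h, Ne.symm h]

lemma strip_append (p q : List ℕ) : strip p (p ++ q) = some q := strip_eq_some.mpr rfl

/-- the subtree at the node `p` -/
def br (t : List (List ℕ)) (p : List ℕ) : List (List ℕ) := t.filterMap (strip p)

lemma mem_br {t : List (List ℕ)} {p q : List ℕ} : q ∈ br t p ↔ p ++ q ∈ t := by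
  unfold br
  rw [List.mem_filterMap]
  constructor
  · rintro ⟨w, hw, h⟩
    rw [strip_eq_some] at h
    rw [← h]; exact hw
  · intro h
    exact ⟨p ++ q, h, strip_append p q⟩

lemma br_nil (t : List (List ℕ)) : br t [] = t := by
  unfold br
  have : strip [] = some := by funext w; simp [strip]
  rw [this, List.filterMap_some]

lemma append_lt_append_left {p a b : List ℕ} : p ++ a < p ++ b ↔ a < b := by
  induction p with
  | nil => simp
  | cons x p ih => simp [List.cons_lt_cons_iff, ih]

lemma br_sorted {t : List (List ℕ)} (ht : t.Pairwise (· < ·)) (p : List ℕ) :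
    (br t p).Pairwise (· < ·) := by
  unfold br
  refine List.Pairwise.filterMap _ ?_ ht
  intro a a' haa' b hb b' hb'
  rw [strip_eq_some] at hb hb'
  subst hb; subst hb'
  exact append_lt_append_left.mp haa'

lemma sorted_ext {l l' : List (List ℕ)} (h : l.Pairwise (· < ·)) (h' : l'.Pairwise (· < ·))
    (H : ∀ a, a ∈ l ↔ a ∈ l') : l = l' := h.eq_of_mem_iff h' H

lemma sorted_nodup {l : List (List ℕ)} (h : l.Pairwise (· < ·)) : l.Nodup :=
  h.imp (fun h => ne_of_lt h)

lemma br_br {t : List (List ℕ)} (ht : t.Pairwise (· < ·)) (p q : List ℕ) :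
    br (br t p) q = br t (p ++ q) := by
  apply sorted_ext (br_sorted (br_sorted ht p) q) (br_sorted ht _)
  intro a
  rw [mem_br, mem_br, mem_br, List.append_assoc]

/-- remove the subtree at `p` -/
def prune (t : List (List ℕ)) (p : List ℕ) : List (List ℕ) :=
  t.filter (fun w => (strip p w).isNone)

lemma mem_prune {t : List (List ℕ)} {p w : List ℕ} : w ∈ prune t p ↔ w ∈ t ∧ ∀ q, w ≠ p ++ q := by
  unfold prune
  rw [List.mem_filter]
  constructor
  · rintro ⟨h1, h2⟩
    refine ⟨h1, ?_⟩
    rintro q rfl
    rw [strip_append] at h2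
    simp at h2
  · rintro ⟨h1, h2⟩
    refine ⟨h1, ?_⟩
    cases h : strip p w with
    | none => rfl
    | some q => exact absurd (strip_eq_some.mp h) (h2 q)

lemma prune_sorted {t : List (List ℕ)} (ht : t.Pairwise (· < ·)) (p : List ℕ) :
    (prune t p).Pairwise (· < ·) := List.Pairwise.filter _ ht

lemma length_prune (t : List (List ℕ)) (p : List ℕ) :
    (prune t p).length + (br t p).length = t.length := by
  induction t with
  | nil => simp [prune, br]
  | cons w t ih =>
    unfold prune br at *
    cases h : strip p w with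
    | none => simp [h]; omega
    | some q => simp [h]; omega

namespace Lat

variable (L : Lat)

/-- end point of the walk with direction word `w` started at `v` -/
def posF (v : ℤ × ℤ) (w : List ℕ) : ℤ × ℤ := w.foldl L.nb v

/-- end point of the walk from the origin -/
def pos (w : List ℕ) : ℤ × ℤ := L.posF (0, 0) w

lemma pos_nil : L.pos [] = (0, 0) := rfl

lemma pos_append (p q : List ℕ) : L.pos (p ++ q) = L.posF (L.pos p) q := by
  simp [pos, posF]

lemma pos_snoc (p : List ℕ) (i : ℕ) : L.pos (p ++ [i]) = L.nb (L.pos p) i := by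
  simp [pos, posF]

/-- homogeneity -/
def Hom : Prop := ∀ p w w', L.posF (L.pos p) w = L.posF (L.pos p) w' ↔ L.pos w = L.pos w'

/-- rooted lattice trees as sorted lists of words -/
structure IsT (t : List (List ℕ)) : Prop where
  sorted : t.Pairwise (· < ·)
  nil_mem : [] ∈ t
  closed : ∀ w i, w ++ [i] ∈ t → w ∈ t ∧ i < L.m
  inj : ∀ w ∈ t, ∀ w' ∈ t, L.pos w = L.pos w' → w = w'

variable {L}

lemma IsT.closed' {t : List (List ℕ)} (ht : L.IsT t) (p q : List ℕ) (h : p ++ q ∈ t) : p ∈ t := by
  induction q using List.reverseRecOn with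
  | nil => simpa using h
  | append_singleton q i ih =>
    apply ih
    rw [← List.append_assoc] at h
    exact (ht.closed _ _ h).1

lemma IsT.letters {t : List (List ℕ)} (ht : L.IsT t) {w : List ℕ} (h : w ∈ t) {i : ℕ} (hi : i ∈ w) :
    i < L.m := by
  obtain ⟨a, b, rfl⟩ := List.append_of_mem hi
  have h1 : (a ++ [i]) ++ b ∈ t := by simpa using h
  exact (ht.closed _ _ (ht.closed' _ _ h1)).2

lemma IsT.br {t : List (List ℕ)} (hL : L.Hom) (ht : L.IsT t) {p : List ℕ} (hp : p ∈ t) :
    L.IsT (br t p) where
  sorted := br_sorted ht.sorted p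
  nil_mem := by rw [mem_br]; simpa using hp
  closed := by
    intro w i h
    rw [mem_br, ← List.append_assoc] at h
    rw [mem_br]
    exact ht.closed _ _ h
  inj := by
    intro w hw w' hw' h
    rw [mem_br] at hw hw'
    have := ht.inj _ hw _ hw' (by rw [L.pos_append, L.pos_append]; exact (hL p w w').mpr h)
    exact List.append_cancel_left this

lemma IsT.prune {t : List (List ℕ)} (ht : L.IsT t) {p : List ℕ} (hp : p ≠ []) :
    L.IsT (prune t p) where
  sorted := prune_sorted ht.sorted p
  nil_mem := by
    rw [mem_prune]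
    refine ⟨ht.nil_mem, ?_⟩
    intro q h
    have := List.append_eq_nil_iff.mp h.symm
    exact hp this.1
  closed := by
    intro w i h
    rw [mem_prune] at h
    have h1 := ht.closed _ _ h.1
    refine ⟨?_, h1.2⟩
    rw [mem_prune]
    refine ⟨h1.1, ?_⟩
    intro q hq
    apply h.2 (q ++ [i])
    rw [hq, List.append_assoc]
  inj := by
    intro w hw w' hw' h
    exact ht.inj w (mem_prune.mp hw).1 w' (mem_prune.mp hw').1 h

lemma IsT.pos_length {t : List (List ℕ)} (ht : L.IsT t) : 1 ≤ t.length :=
  List.length_pos_of_mem ht.nil_mem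

lemma IsT.length_word {t : List (List ℕ)} (ht : L.IsT t) {w : List ℕ} (hw : w ∈ t) :
    w.length + 1 ≤ t.length := by
  have h1 : (w.inits) ⊆ t := by
    intro p hp
    rw [List.mem_inits] at hp
    obtain ⟨q, rfl⟩ := hp
    exact ht.closed' p q hw
  have h2 : w.inits.Nodup := by
    have : (w.inits.map List.length).Nodup := by
      have : w.inits.map List.length = List.range (w.length + 1) := by
        apply List.ext_getElem
        · simp
        · intro i h1 h2
          simp at h1 h2 ⊢
          omega
      rw [this]; exact List.nodup_range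
    exact List.Nodup.of_map _ this
  have h3 := (h2.subperm h1).length_le
  simpa using h3

variable (L)

lemma finite_trees (k : ℕ) : {t : List (List ℕ) | L.IsT t ∧ t.length = k}.Finite := by
  have hW : {w : List ℕ | w.length ≤ k ∧ ∀ i ∈ w, i < L.m}.Finite := by
    have := (List.finite_length_le (Fin L.m) k).image (List.map Fin.val)
    apply this.subset
    rintro w ⟨h1, h2⟩
    refine ⟨w.pmap (fun i hi => (⟨i, hi⟩ : Fin L.m)) h2, by simpa using h1, ?_⟩
    rw [List.map_pmap]; simp
  apply Set.Finite.of_finite_image (f := fun t : List (List ℕ) => {w | w ∈ t})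
  · apply hW.finite_subsets.subset
    rintro _ ⟨t, ⟨ht, hk⟩, rfl⟩
    intro w hw
    refine ⟨?_, fun i hi => ht.letters hw hi⟩
    have := ht.length_word hw
    omega
  · rintro t ⟨ht, _⟩ t' ⟨ht', _⟩ h
    apply sorted_ext ht.sorted ht'.sorted
    intro a
    have : a ∈ {w | w ∈ t} ↔ a ∈ {w | w ∈ t'} := by
      have h' : {w | w ∈ t} = {w | w ∈ t'} := h
      rw [h']
    simpa using this

/-- the set of rooted lattice trees with `k` vertices -/
noncomputable def TT (k : ℕ) : Finset (List (List ℕ)) := (L.finite_trees k).toFinset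

lemma mem_TT {k : ℕ} {t : List (List ℕ)} : t ∈ L.TT k ↔ L.IsT t ∧ t.length = k := by
  simp [TT]

/-- proper subtrees, as a list -/
def psubL (t : List (List ℕ)) : List (List (List ℕ)) :=
  (t.filter (fun p => decide (p ≠ []))).map (br t)

lemma mem_psubL {t u : List (List ℕ)} : u ∈ psubL t ↔ ∃ p ∈ t, p ≠ [] ∧ u = br t p := by
  unfold psubL
  simp only [List.mem_map, List.mem_filter, decide_eq_true_eq]
  constructor
  · rintro ⟨p, ⟨h1, h2⟩, rfl⟩; exact ⟨p, h1, h2, rfl⟩
  · rintro ⟨p, h1, h2, rfl⟩; exact ⟨p, ⟨h1, h2⟩, rfl⟩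

/-- all tuples -/
def prods {α : Type} : ℕ → List α → List (List α)
  | 0, _ => [[]]
  | m + 1, A => A.flatMap (fun a => (prods m A).map (fun l => a :: l))

lemma mem_prods {α : Type} {m : ℕ} {A : List α} {l : List α} :
    l ∈ prods m A ↔ l.length = m ∧ ∀ a ∈ l, a ∈ A := by
  induction m generalizing l with
  | zero =>
    simp only [prods, List.mem_singleton, List.length_eq_zero_iff]
    constructor
    · rintro rfl; simp
    · rintro ⟨rfl, _⟩; rfl
  | succ m ih =>
    simp only [prods, List.mem_flatMap, List.mem_map, ih]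
    constructor
    · rintro ⟨a, ha, l', ⟨h1, h2⟩, rfl⟩
      refine ⟨by simp [h1], ?_⟩
      intro b hb
      rcases List.mem_cons.mp hb with rfl | hb
      · exact ha
      · exact h2 b hb
    · rintro ⟨h1, h2⟩
      cases l with
      | nil => simp at h1
      | cons a l' =>
        exact ⟨a, h2 a (by simp), l', ⟨by simpa using h1, fun b hb => h2 b (by simp [hb])⟩, rfl⟩

lemma prods_nodup {α : Type} {m : ℕ} {A : List α} (hA : A.Nodup) : (prods m A).Nodup := by
  induction m with
  | zero => simp [prods]
  | succ m ih =>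
    simp only [prods]
    rw [List.nodup_flatMap]
    refine ⟨?_, ?_⟩
    · intro a _
      exact ih.map (fun l l' h => by simpa using h)
    · refine hA.imp ?_
      intro a b hab
      rw [Function.onFun, List.disjoint_left]
      intro l h1 h2
      rw [List.mem_map] at h1 h2
      obtain ⟨l1, _, rfl⟩ := h1
      obtain ⟨l2, _, h⟩ := h2
      simp at h
      exact hab h.1.symm

lemma length_prods {α : Type} (m : ℕ) (A : List α) : (prods m A).length = A.length ^ m := by
  induction m with
  | zero => simp [prods]
  | succ m ih =>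
    simp only [prods, List.length_flatMap, List.length_map, ih]
    simp [pow_succ, mul_comm]

/-- assemble a tree from its list of children -/
def asmAux : ℕ → List (List (List ℕ)) → List (List ℕ)
  | _, [] => []
  | i, c :: cs => c.map (fun w => i :: w) ++ asmAux (i + 1) cs

/-- assemble a tree from its list of children -/
def asm (cs : List (List (List ℕ))) : List (List ℕ) := [] :: asmAux 0 cs

lemma mem_asmAux {cs : List (List (List ℕ))} {i : ℕ} {w : List ℕ} :
    w ∈ asmAux i cs ↔ ∃ j w', w = (i + j) :: w' ∧ w' ∈ cs.getD j [] := by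
  induction cs generalizing i with
  | nil => simp [asmAux]
  | cons c cs ih =>
    simp only [asmAux, List.mem_append, List.mem_map, ih]
    constructor
    · rintro (⟨w', h, rfl⟩ | ⟨j, w', rfl, h⟩)
      · exact ⟨0, w', by simp, by simpa using h⟩
      · exact ⟨j + 1, w', by simp; omega, by simpa using h⟩
    · rintro ⟨j, w', rfl, h⟩
      cases j with
      | zero => left; exact ⟨w', by simpa using h, by simp⟩
      | succ j => right; exact ⟨j, w', by simp; omega, by simpa using h⟩

lemma mem_asm {cs : List (List (List ℕ))} {w : List ℕ} :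
    w ∈ asm cs ↔ w = [] ∨ ∃ j w', w = j :: w' ∧ w' ∈ cs.getD j [] := by
  unfold asm
  rw [List.mem_cons, mem_asmAux]
  simp

lemma asmAux_sorted {cs : List (List (List ℕ))} {i : ℕ} (h : ∀ c ∈ cs, c.Pairwise (· < ·)) :
    (asmAux i cs).Pairwise (· < ·) := by
  induction cs generalizing i with
  | nil => simp [asmAux]
  | cons c cs ih =>
    simp only [asmAux]
    rw [List.pairwise_append]
    refine ⟨?_, ih (fun c hc => h c (by simp [hc])), ?_⟩
    · rw [List.pairwise_map]
      refine (h c (by simp)).imp ?_
      intro a b hab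
      rw [List.cons_lt_cons_iff]; right; exact ⟨rfl, hab⟩
    · intro a ha b hb
      rw [List.mem_map] at ha
      rw [mem_asmAux] at hb
      obtain ⟨a', _, rfl⟩ := ha
      obtain ⟨j, b', rfl, _⟩ := hb
      rw [List.cons_lt_cons_iff]; left; omega

lemma asm_sorted {cs : List (List (List ℕ))} (h : ∀ c ∈ cs, c.Pairwise (· < ·)) :
    (asm cs).Pairwise (· < ·) := by
  unfold asm
  rw [List.pairwise_cons]
  refine ⟨?_, asmAux_sorted h⟩
  intro a ha
  rw [mem_asmAux] at ha
  obtain ⟨j, w', rfl, _⟩ := ha
  exact List.nil_lt_cons _ _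

lemma length_asmAux (i : ℕ) (cs : List (List (List ℕ))) :
    (asmAux i cs).length = (cs.map List.length).sum := by
  induction cs generalizing i with
  | nil => simp [asmAux]
  | cons c cs ih => simp [asmAux, ih]

lemma length_asm (cs : List (List (List ℕ))) : (asm cs).length = (cs.map List.length).sum + 1 := by
  simp [asm, length_asmAux]

lemma br_asm {cs : List (List (List ℕ))} (h : ∀ c ∈ cs, c.Pairwise (· < ·)) (i : ℕ) :
    br (asm cs) [i] = cs.getD i [] := by
  have hg : (cs.getD i []).Pairwise (· < ·) := by
    rw [List.getD_eq_getElem?_getD]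
    cases hi : cs[i]? with
    | none => simp
    | some c => exact h c (List.mem_of_getElem? hi)
  apply sorted_ext (br_sorted (asm_sorted h) _) hg
  intro w
  rw [mem_br, mem_asm]
  simp

/-- the candidates of a given size -/
def cand (A : List (List (List ℕ))) (k : ℕ) : List (List (List ℕ)) :=
  ((prods L.m ([] :: A)).map asm).filter
    (fun z => decide (z.length = k) && decide ((z.map L.pos).Nodup))

lemma asm_injOn {cs cs' : List (List (List ℕ))} (hl : cs.length = cs'.length)
    (h : ∀ c ∈ cs, c.Pairwise (· < ·)) (h' : ∀ c ∈ cs', c.Pairwise (· < ·))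
    (H : asm cs = asm cs') : cs = cs' := by
  apply List.ext_getElem hl
  intro i h1 h2
  have e1 := br_asm h i
  have e2 := br_asm h' i
  rw [H, e2] at e1
  rw [List.getD_eq_getElem _ _ h1, List.getD_eq_getElem _ _ h2] at e1
  exact e1.symm

lemma asm_kids {z : List (List ℕ)} (hz : L.IsT z) :
    asm ((List.range L.m).map (fun i => br z [i])) = z := by
  apply sorted_ext _ hz.sorted
  · intro w
    rw [mem_asm]
    constructor
    · rintro (rfl | ⟨j, w', rfl, h⟩)
      · exact hz.nil_mem
      · by_cases hj : j < L.m
        · rw [List.getD_eq_getElem _ _ (by simpa using hj)] at h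
          simp only [List.getElem_map, List.getElem_range] at h
          rw [mem_br] at h
          simpa using h
        · rw [List.getD_eq_default _ _ (by simpa using hj)] at h
          simp at h
    · intro hw
      cases w with
      | nil => left; rfl
      | cons j w' =>
        right
        have hj : j < L.m := hz.letters hw (by simp)
        refine ⟨j, w', rfl, ?_⟩
        rw [List.getD_eq_getElem _ _ (by simpa using hj)]
        simp only [List.getElem_map, List.getElem_range]
        rw [mem_br]; simpa using hw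
  · apply asm_sorted
    intro c hc
    rw [List.mem_map] at hc
    obtain ⟨i, _, rfl⟩ := hc
    exact br_sorted hz.sorted _

lemma cand_nodup {A : List (List (List ℕ))} (hA : A.Nodup) (hT : ∀ u ∈ A, L.IsT u) (k : ℕ) :
    (L.cand A k).Nodup := by
  unfold cand
  apply List.Nodup.filter
  have h1 : ([] :: A).Nodup := by
    rw [List.nodup_cons]
    refine ⟨?_, hA⟩
    intro h
    have := (hT _ h).nil_mem
    simp at this
  have hs : ∀ c ∈ ([] :: A), c.Pairwise (· < ·) := by
    intro c hc
    rcases List.mem_cons.mp hc with rfl | hc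
    · simp
    · exact (hT c hc).sorted
  refine List.Nodup.map_on ?_ (prods_nodup h1)
  intro cs hcs cs' hcs' H
  rw [mem_prods] at hcs hcs'
  exact asm_injOn (by rw [hcs.1, hcs'.1]) (fun c hc => hs c (hcs.2 c hc))
    (fun c hc => hs c (hcs'.2 c hc)) H

lemma cand_mem {A : List (List (List ℕ))} (hT : ∀ u ∈ A, L.IsT u)
    (hcl : ∀ u ∈ A, ∀ v ∈ psubL u, v ∈ A) (k : ℕ) (z : List (List ℕ)) :
    z ∈ L.cand A k ↔ z ∈ L.TT k ∧ ∀ u ∈ psubL z, u ∈ A := by
  unfold cand
  rw [mem_TT, List.mem_filter, List.mem_map]
  simp only [Bool.and_eq_true, decide_eq_true_eq]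
  have hs : ∀ c ∈ ([] :: A), c.Pairwise (· < ·) := by
    intro c hc
    rcases List.mem_cons.mp hc with rfl | hc
    · simp
    · exact (hT c hc).sorted
  constructor
  · rintro ⟨⟨cs, hcs, rfl⟩, hlen, hnd⟩
    rw [mem_prods] at hcs
    have hsc : ∀ c ∈ cs, c.Pairwise (· < ·) := fun c hc => hs c (hcs.2 c hc)
    have hin : ∀ w ∈ asm cs, ∀ w' ∈ asm cs, L.pos w = L.pos w' → w = w' :=
      fun w hw w' hw' h => List.inj_on_of_nodup_map hnd hw hw' h
    have hmem : ∀ j w', w' ∈ cs.getD j [] → j < L.m ∧ cs.getD j [] ∈ A := by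
      intro j w' h
      by_cases hj : j < cs.length
      · rw [List.getD_eq_getElem _ _ hj] at h ⊢
        refine ⟨by omega, ?_⟩
        have := hcs.2 _ (List.getElem_mem hj)
        rcases List.mem_cons.mp this with h0 | h0
        · rw [h0] at h; simp at h
        · exact h0
      · rw [List.getD_eq_default _ _ (by omega)] at h
        simp at h
    have hz : L.IsT (asm cs) := by
      refine ⟨asm_sorted hsc, by simp [asm], ?_, hin⟩
      intro w i h
      rw [mem_asm] at h
      rcases h with h | ⟨j, w', hjw, h⟩
      · simp at h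
      · cases w with
        | nil =>
          simp only [List.nil_append, List.cons.injEq] at hjw
          obtain ⟨rfl, rfl⟩ := hjw
          exact ⟨by simp [asm], (hmem _ _ h).1⟩
        | cons a w0 =>
          simp only [List.cons_append, List.cons.injEq] at hjw
          obtain ⟨rfl, rfl⟩ := hjw
          have h1 := hmem _ _ h
          have h2 := (hT _ h1.2).closed _ _ h
          refine ⟨?_, h2.2⟩
          rw [mem_asm]; right
          exact ⟨a, w0, rfl, h2.1⟩
    refine ⟨⟨hz, hlen⟩, ?_⟩
    intro u hu
    rw [mem_psubL] at hu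
    obtain ⟨p, hp, hp0, rfl⟩ := hu
    cases p with
    | nil => exact absurd rfl hp0
    | cons j p' =>
      have e : br (asm cs) (j :: p') = br (cs.getD j []) p' := by
        have := br_br hz.sorted [j] p'
        rw [br_asm hsc] at this
        rw [this]; rfl
      rw [e]
      rw [mem_asm] at hp
      rcases hp with h | ⟨j', w', hjw, h⟩
      · simp at h
      · simp only [List.cons.injEq] at hjw
        obtain ⟨rfl, rfl⟩ := hjw
        have h1 := hmem _ _ h
        by_cases hp' : p' = []
        · rw [hp', br_nil]; exact h1.2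
        · exact hcl _ h1.2 _ (mem_psubL.mpr ⟨p', h, hp', rfl⟩)
  · rintro ⟨⟨hz, hlen⟩, hsub⟩
    refine ⟨⟨(List.range L.m).map (fun i => br z [i]), ?_, L.asm_kids hz⟩, hlen, ?_⟩
    · rw [mem_prods]
      refine ⟨by simp, ?_⟩
      intro a ha
      rw [List.mem_map] at ha
      obtain ⟨i, _, rfl⟩ := ha
      by_cases hi : [i] ∈ z
      · exact List.mem_cons_of_mem _ (hsub _ (mem_psubL.mpr ⟨[i], hi, by simp, rfl⟩))
      · have : br z [i] = [] := by
          rw [List.eq_nil_iff_forall_not_mem]
          intro w hw
          rw [mem_br] at hw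
          exact hi (hz.closed' _ _ hw)
        rw [this]; simp
    · exact List.Nodup.map_on (fun w hw w' hw' h => hz.inj w hw w' hw' h) (sorted_nodup hz.sorted)

/-- the combinatorial system of the lattice -/
noncomputable def sys : Sys (List (List ℕ)) where
  size := List.length
  psub z := (psubL z).toFinset
  cand := L.cand
  T := L.TT

lemma sys_laws (hL : L.Hom) : L.sys.Laws where
  size_T := fun {k z} h => (L.mem_TT.mp h).2
  T_zero := by
    apply Finset.eq_empty_of_forall_notMem
    intro t ht
    have h := L.mem_TT.mp ht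
    have := h.1.pos_length
    omega
  psub_T := by
    intro k z u hz hu
    have hz' := L.mem_TT.mp hz
    have hu' : u ∈ psubL z := List.mem_toFinset.mp hu
    rw [mem_psubL] at hu'
    obtain ⟨p, hp, hp0, rfl⟩ := hu'
    have h1 := hz'.1.br hL hp
    refine ⟨?_, L.mem_TT.mpr ⟨h1, rfl⟩⟩
    show (LatticeTrees.br z p).length < k
    have h2 := length_prune z p
    have h3 := (hz'.1.prune hp0).pos_length
    have h4 := hz'.2
    omega
  psub_trans := by
    intro k z u v hz hu hv
    have hz' := L.mem_TT.mp hz
    have hu' : u ∈ psubL z := List.mem_toFinset.mp hu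
    have hv' : v ∈ psubL u := List.mem_toFinset.mp hv
    show v ∈ (psubL z).toFinset
    rw [List.mem_toFinset, mem_psubL]
    rw [mem_psubL] at hu'
    obtain ⟨p, hp, hp0, rfl⟩ := hu'
    rw [mem_psubL] at hv'
    obtain ⟨q, hq, hq0, rfl⟩ := hv'
    rw [mem_br] at hq
    exact ⟨p ++ q, hq, by simp [hp0], br_br hz'.1.sorted p q⟩
  card_psub := by
    intro k z hz
    have hz' := L.mem_TT.mp hz
    have h1 : (psubL z).toFinset.card ≤ (psubL z).length := List.toFinset_card_le _
    have h2 : (psubL z).length = (z.filter (fun p => decide (p ≠ []))).length := by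
      simp [psubL]
    have h3 : (z.filter (fun p => decide (p ≠ []))).length < z.length := by
      rw [List.length_filter_lt_length_iff_exists]
      exact ⟨[], hz'.1.nil_mem, by simp⟩
    have h4 := hz'.2
    show (psubL z).toFinset.card + 1 ≤ k
    omega
  cand_spec := by
    intro A k hA hT hcl
    have hT' : ∀ u ∈ A, L.IsT u := fun u hu => (L.mem_TT.mp (hT u hu)).1
    refine ⟨L.cand_nodup hA hT' _, ?_⟩
    intro z
    have hcl' : ∀ u ∈ A, ∀ v ∈ psubL u, v ∈ A := fun u hu v hv =>
      hcl u hu v (List.mem_toFinset.mpr hv)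
    have := L.cand_mem hT' hcl' (k+1) z
    show z ∈ L.cand A (k+1) ↔ z ∈ L.TT (k+1) ∧ ∀ u ∈ (psubL z).toFinset, u ∈ A
    rw [this]
    simp only [List.mem_toFinset]

end Lat

end Pool.Agent.LatticeTrees
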