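import Mathlib
import Pool.Agent.LatticeTrees.Algo1
import Pool.Agent.LatticeTrees.Words

set_option autoImplicit false
set_option linter.unusedSectionVars false
set_option linter.unusedSimpArgs false

namespace Pool.Agent.LatticeTrees

open RC Pool.Agent.PT Pool.Agent.LatticeTrees.Lat

variable {α β : Type} [Enc α] [Enc β]

/-! ### combinatorial functions -/

lemma strip_eq (p w : List ℕ) :
    strip p w = if w.take p.length = p then some (w.drop p.length) else none := by
  split_ifs with h
  · rw [strip_eq_some]
    conv_lhs => rw [← List.take_append_drop p.length w, h]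
  · cases hs : strip p w with
    | none => rfl
    | some q =>
      rw [strip_eq_some] at hs
      exact absurd (by rw [hs]; simp) h

theorem polyTime_strip {p w : α → List ℕ} (hp : PolyTime p) (hw : PolyTime w) :
    PolyTime (fun x => strip (p x) (w x)) := by
  refine (PolyTime.ite (P := fun x => (w x).take (p x).length = p x)
    (f := fun x => some ((w x).drop (p x).length)) (g := fun _ => none)
    (by fun_prop) (PolyTime.some (by fun_prop)) (by fun_prop)).congr ?_
  intro x
  rw [strip_eq]

theorem polyTime_br {t : α → List (List ℕ)} {p : α → List ℕ} (ht : PolyTime t)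
    (hp : PolyTime p) : PolyTime (fun x => br (t x) (p x)) := by
  unfold br
  refine PolyTime.filterMap ht ?_
  exact polyTime_strip (hp.comp PolyTime.fst') PolyTime.snd'

theorem polyTime_psubL {t : α → List (List ℕ)} (ht : PolyTime t) :
    PolyTime (fun x => psubL (t x)) := by
  unfold psubL
  have h1 : PolyTime (fun x => (t x).filter (fun p => decide (p ≠ []))) := by
    refine PolyTime.filter ht ?_
    exact PolyTime.decide_not (by fun_prop)
  refine PolyTime.map h1 (g := fun x => br (t x)) ?_
  exact polyTime_br (ht.comp PolyTime.fst') PolyTime.snd'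

theorem polyTime_tot {A : α → List (List (List ℕ) × ℕ)} {X : α → List (List (List ℕ))}
    (hA : PolyTime A) (hX : PolyTime X) : PolyTime (fun x => tot (A x) (X x).toFinset) := by
  unfold tot
  have h1 : PolyTime (fun x => (A x).filter (fun p => decide (p.1 ∈ X x))) := by
    refine PolyTime.filter hA (g := fun x p => decide (p.1 ∈ X x)) ?_
    exact (PolyTime.decide_mem (f := fun q : α × (List (List ℕ) × ℕ) => q.2.1)
      (l := fun q => X q.1) (by fun_prop) (hX.comp PolyTime.fst')).congr
      (fun q => decide_eq_decide.mpr Iff.rfl)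
  have h2 : PolyTime (fun x => (((A x).filter (fun p => decide (p.1 ∈ X x))).map Prod.snd).sum) := by
    refine PolyTime.sum ?_
    exact PolyTime.map h1 (g := fun _ p => p.2) (PolyTime.snd PolyTime.snd')
  refine h2.congr ?_
  intro x
  congr 3
  funext p
  simp

theorem polyTime_prods (m : ℕ) : ∀ {A : α → List β}, PolyTime A →
    PolyTime (fun x => prods m (A x)) := by
  induction m with
  | zero => intro A _; exact PolyTime.const _
  | succ m ih =>
    intro A hA
    simp only [prods]
    refine PolyTime.flatMap hA (g := fun x a => (prods m (A x)).map (fun l => a :: l)) ?_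
    have h1 : PolyTime (fun p : α × β => prods m (A p.1)) := (ih hA).comp PolyTime.fst'
    exact PolyTime.map h1 (g := fun (p : α × β) l => p.2 :: l)
      (PolyTime.cons (by fun_prop) (by fun_prop))

lemma asmAux_eq (i : ℕ) (cs : List (List (List ℕ))) :
    asmAux i cs = (cs.zip (List.range' i cs.length)).flatMap
      (fun p => p.1.map (fun w => p.2 :: w)) := by
  induction cs generalizing i with
  | nil => simp [asmAux]
  | cons c cs ih => simp [asmAux, ih, List.range'_succ]

theorem polyTime_asm {cs : α → List (List (List ℕ))} (hcs : PolyTime cs) :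
    PolyTime (fun x => asm (cs x)) := by
  have h1 : PolyTime (fun x => (cs x).zip (List.range (cs x).length)) :=
    PolyTime.zip hcs (by fun_prop)
  have h2 : PolyTime (fun x => ((cs x).zip (List.range (cs x).length)).flatMap
      (fun p => p.1.map (fun w => p.2 :: w))) := by
    refine PolyTime.flatMap h1 (g := fun _ p => p.1.map (fun w => p.2 :: w)) ?_
    refine PolyTime.map (l := fun q : α × (List (List ℕ) × ℕ) => q.2.1) (by fun_prop)
      (g := fun q w => q.2.2 :: w) ?_
    exact PolyTime.cons (by fun_prop) (by fun_prop)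
  refine (PolyTime.cons (PolyTime.const ([] : List ℕ)) h2).congr ?_
  intro x
  rw [asm, asmAux_eq, List.range_eq_range']

/-- polynomial time neighbour function with bounded growth -/
structure PLat (L : Lat) : Prop where
  nb : PolyTime (fun p : (ℤ × ℤ) × ℕ => L.nb p.1 p.2)
  grow : ∃ C, ∀ v i, sz (L.nb v i) ≤ sz v + C

variable {L : Lat}

theorem polyTime_pos (hL : PLat L) {w : α → List ℕ} (hw : PolyTime w) :
    PolyTime (fun x => L.pos (w x)) := by
  obtain ⟨C, hC⟩ := hL.grow
  unfold Lat.pos Lat.posF
  refine PolyTime.foldl_add hw (g := fun _ v i => L.nb v i) (y := fun _ => ((0:ℤ), (0:ℤ)))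
    ?_ (by fun_prop) (s := fun _ => C) (by fun_prop) (fun x i _ v => hC v i)
  exact hL.nb.comp (f := fun p : α × ((ℤ × ℤ) × ℕ) => (p.2.1, p.2.2)) (by fun_prop)

theorem polyTime_cand (hL : PLat L) {A : α → List (List (List ℕ))} {k : α → ℕ}
    (hA : PolyTime A) (hk : PolyTime k) : PolyTime (fun x => L.cand (A x) (k x)) := by
  unfold cand
  have h1 : PolyTime (fun x => prods L.m ([] :: A x)) :=
    polyTime_prods L.m (PolyTime.cons (by fun_prop) hA)
  have h2 : PolyTime (fun x => (prods L.m ([] :: A x)).map asm) :=
    PolyTime.map h1 (g := fun _ cs => asm cs) (polyTime_asm PolyTime.snd')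
  refine PolyTime.filter h2 (g := fun x z => decide (z.length = k x) &&
    decide ((z.map L.pos).Nodup)) ?_
  have h3 : PolyTime (fun p : α × List (List ℕ) => p.2.map L.pos) :=
    PolyTime.map PolyTime.snd' (g := fun _ w => L.pos w) (polyTime_pos hL PolyTime.snd')
  have h4 : PolyTime (fun p : α × List (List ℕ) => decide ((p.2.map L.pos).Nodup)) :=
    PolyTime.decide_nodup h3
  have h5 : PolyTime (fun p : α × List (List ℕ) => k p.1) := hk.comp PolyTime.fst'
  exact PolyTime.and (by fun_prop) h4

theorem polyTime_cost {A : α → List (List (List ℕ) × ℕ)} {z : α → List (List ℕ)}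
    (hA : PolyTime A) (hz : PolyTime z) : PolyTime (fun x => L.sys.cost (A x) (z x)) :=
  polyTime_tot hA (polyTime_psubL hz)

lemma decide_sub (x u : List (List ℕ)) :
    decide (u ∈ L.sys.sub x) = decide (u ∈ x :: psubL x) := by
  have : u ∈ L.sys.sub x ↔ u ∈ x :: psubL x := by
    unfold Sys.sub
    rw [Finset.mem_insert, List.mem_cons]
    show u = x ∨ u ∈ (psubL x).toFinset ↔ _
    rw [List.mem_toFinset]
  simp only [this]

theorem polyTime_sub {x u : α → List (List ℕ)} (hx : PolyTime x) (hu : PolyTime u) :
    PolyTime (fun a => decide (u a ∈ L.sys.sub (x a))) := by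
  have h := PolyTime.decide_mem hu (PolyTime.cons hx (polyTime_psubL hx))
  refine h.congr ?_
  intro a
  rw [decide_sub]
  exact decide_eq_decide.mpr Iff.rfl

/-! ### the process on bits -/

/-- the environment: target size bound `M`, exponent bound `Em`, current tree `x` -/
abbrev Env := ℕ × ℕ × List (List ℕ)

/-- state of the process: level, population, remaining bits -/
abbrev PSt := ℕ × Option (List (List (List ℕ) × ℕ)) × List Bool

/-- the loop call of one level -/
noncomputable def lvl (L : Lat) (v : Env) (k : ℕ) (A : List (List (List ℕ) × ℕ))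
    (bits : List Bool) : Option (ℕ × List (List (List ℕ))) × List Bool :=
  run (loop v.1 (fun u => decide (u ∈ L.sys.sub v.2.2)) (L.sys.cost A) v.2.1 0
    (L.cand (A.map Prod.fst) (k+1))) bits

/-- one level of the process -/
noncomputable def procStep (L : Lat) (v : Env) (s : PSt) : PSt :=
  (s.1 + 1, Option.casesOn (motive := fun _ => Option (List (List (List ℕ) × ℕ)) × List Bool)
    s.2.1 (none, s.2.2) (fun A =>
      ((lvl L v s.1 A s.2.2).1.map (fun p => A ++ L.sys.upd A p), (lvl L v s.1 A s.2.2).2)))

lemma run_proc (M Em : ℕ) (x : List (List ℕ)) (k : ℕ) (bits : List Bool) :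
    (procStep L (M, Em, x))^[k] (0, some [], bits) =
      (k, run (L.sys.proc M Em (fun u => decide (u ∈ L.sys.sub x)) k) bits) := by
  induction k with
  | zero => rfl
  | succ k ih =>
    rw [Function.iterate_succ_apply', ih]
    simp only [Sys.proc, run_bind]
    generalize run (L.sys.proc M Em (fun u => decide (u ∈ L.sys.sub x)) k) bits = s
    obtain ⟨o, b⟩ := s
    cases o with
    | none => rfl
    | some A =>
      simp only [procStep, Option.elim_some, run_bind]
      show (_, _) = (_, _)
      congr 1
      have : lvl L (M, Em, x) k A b = run (loop M (fun u => decide (u ∈ L.sys.sub x))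
        (L.sys.cost A) Em 0 (L.sys.cand (A.map Prod.fst) (k+1))) b := rfl
      rw [this]
      generalize run (loop M (fun u => decide (u ∈ L.sys.sub x))
        (L.sys.cost A) Em 0 (L.sys.cand (A.map Prod.fst) (k+1))) b = r
      obtain ⟨r1, r2⟩ := r
      cases r1 <;> rfl

theorem polyTime_lvl (hL : PLat L) :
    PolyTime (fun p : (Env × PSt) × List (List (List ℕ) × ℕ) =>
      lvl L p.1.1 p.1.2.1 p.2 p.1.2.2.2) := by
  unfold lvl
  refine polyTime_loop (by fun_prop) ?_ ?_ (by fun_prop) ?_ (by fun_prop)
  · exact polyTime_sub (x := fun q : ((Env × PSt) × List (List (List ℕ) × ℕ)) × List (List ℕ) =>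
      q.1.1.1.2.2) (u := fun q => q.2) (by fun_prop) (by fun_prop)
  · exact polyTime_cost (A := fun q : ((Env × PSt) × List (List (List ℕ) × ℕ)) × List (List ℕ) =>
      q.1.2) (z := fun q => q.2) (by fun_prop) (by fun_prop)
  · refine polyTime_cand hL ?_ (by fun_prop)
    exact PolyTime.map (l := fun p : (Env × PSt) × List (List (List ℕ) × ℕ) => p.2)
      (by fun_prop) (g := fun _ q => q.1) (PolyTime.fst PolyTime.snd')

theorem polyTime_upd {A : α → List (List (List ℕ) × ℕ)} {p : α → ℕ × List (List (List ℕ))}
    (hA : PolyTime A) (hp : PolyTime p) : PolyTime (fun x => L.sys.upd (A x) (p x)) := by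
  unfold Sys.upd
  refine PolyTime.map (l := fun x => (p x).2) (by fun_prop)
    (g := fun x z => (z, (p x).1 - L.sys.cost (A x) z)) ?_
  refine PolyTime.pair (by fun_prop) ?_
  have h1 : PolyTime (fun q : α × List (List ℕ) => (p q.1).1) :=
    (PolyTime.fst hp).comp PolyTime.fst'
  have h2 : PolyTime (fun q : α × List (List ℕ) => L.sys.cost (A q.1) q.2) :=
    polyTime_cost (hA.comp PolyTime.fst') PolyTime.snd'
  exact PolyTime.natSub h1 h2

theorem polyTime_procStep (hL : PLat L) :
    PolyTime (fun p : Env × PSt => procStep L p.1 p.2) := by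
  unfold procStep
  refine PolyTime.pair (by fun_prop) ?_
  refine PolyTime.optionCases (o := fun p : Env × PSt => p.2.2.1) (by fun_prop)
    (f := fun p => (none, p.2.2.2)) (by fun_prop)
    (g := fun p A => ((lvl L p.1 p.2.1 A p.2.2.2).1.map (fun q => A ++ L.sys.upd A q),
      (lvl L p.1 p.2.1 A p.2.2.2).2)) ?_
  have h := polyTime_lvl hL
  refine PolyTime.pair ?_ (PolyTime.snd h)
  refine PolyTime.optionMap (PolyTime.fst h)
    (g := fun (p : (Env × PSt) × List (List (List ℕ) × ℕ)) q => p.2 ++ L.sys.upd p.2 q) ?_
  refine PolyTime.append (by fun_prop) ?_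
  exact polyTime_upd (A := fun r : ((Env × PSt) × List (List (List ℕ) × ℕ)) ×
    (ℕ × List (List (List ℕ))) => r.1.2) (p := fun r => r.2) (by fun_prop) (by fun_prop)

/-! ### size bounds for the process -/

/-- all words are short and use few letters -/
def WB (L : Lat) (k : ℕ) (t : List (List ℕ)) : Prop :=
  t.length ≤ k ∧ ∀ w ∈ t, w.length ≤ k ∧ ∀ i ∈ w, i < L.m

lemma WB.mono {k l : ℕ} (h : k ≤ l) {t : List (List ℕ)} (ht : WB L k t) : WB L l t :=
  ⟨ht.1.trans h, fun w hw => ⟨(ht.2 w hw).1.trans h, (ht.2 w hw).2⟩⟩

lemma cand_WB {k : ℕ} {A : List (List (List ℕ))} (hA : ∀ u ∈ A, WB L k u) :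
    ∀ z ∈ L.cand A (k+1), WB L (k+1) z := by
  intro z hz
  unfold cand at hz
  rw [List.mem_filter, List.mem_map] at hz
  simp only [Bool.and_eq_true, decide_eq_true_eq] at hz
  obtain ⟨⟨cs, hcs, rfl⟩, hlen, _⟩ := hz
  rw [mem_prods] at hcs
  refine ⟨by omega, ?_⟩
  intro w hw
  rw [mem_asm] at hw
  rcases hw with rfl | ⟨j, w', rfl, h⟩
  · simp
  · by_cases hj : j < cs.length
    · rw [List.getD_eq_getElem _ _ hj] at h
      have h1 := hcs.2 _ (List.getElem_mem hj)
      rcases List.mem_cons.mp h1 with h0 | h0
      · rw [h0] at h; simp at h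
      · have h2 := (hA _ h0).2 _ h
        refine ⟨by simp; omega, ?_⟩
        intro i hi
        rcases List.mem_cons.mp hi with rfl | hi
        · omega
        · exact h2.2 i hi
    · rw [List.getD_eq_default _ _ (by omega)] at h
      simp at h

/-- bound for a state -/
def StB (L : Lat) (M Em k : ℕ) (A : List (List (List ℕ) × ℕ)) : Prop :=
  A.length ≤ k * M ∧ ∀ p ∈ A, WB L k p.1 ∧ p.2 ≤ Em

lemma procStep_StB (v : Env) (k : ℕ) (bits : List Bool) :
    ∃ o b, (procStep L v)^[k] (0, some [], bits) = (k, o, b) ∧ b.Sublist bits ∧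
      ∀ A, o = some A → StB L v.1 v.2.1 k A := by
  induction k with
  | zero => exact ⟨some [], bits, rfl, List.Sublist.refl _, by
      intro A hA; simp only [Option.some.injEq] at hA; subst hA; simp [StB]⟩
  | succ k ih =>
    obtain ⟨o, b, h1, h2, h3⟩ := ih
    rw [Function.iterate_succ_apply', h1]
    cases o with
    | none => exact ⟨none, b, rfl, h2, by simp⟩
    | some A =>
      have hA := h3 A rfl
      refine ⟨(lvl L v k A b).1.map (fun p => A ++ L.sys.upd A p), (lvl L v k A b).2, rfl, ?_, ?_⟩
      · refine List.Sublist.trans ?_ h2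
        unfold lvl
        rw [run_loop]
        unfold loopOut
        simp only
        -- bits only shrink
        have key : ∀ (n : ℕ) (s : ℕ × List (List (List ℕ)) × List Bool),
            ((loopStep v.1 (fun u => decide (u ∈ L.sys.sub v.2.2)) (L.sys.cost A))^[n] s).2.2.Sublist
              s.2.2 := by
          intro n
          induction n with
          | zero => intro s; exact List.Sublist.refl _
          | succ n ihn =>
            intro s
            rw [Function.iterate_succ_apply]
            refine (ihn _).trans ?_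
            unfold loopStep
            split_ifs
            · exact List.Sublist.refl _
            · exact run_thin_bits _ _ _
        exact key _ _
      · intro A' hA'
        rw [Option.map_eq_some_iff] at hA'
        obtain ⟨⟨e, K⟩, hp, rfl⟩ := hA'
        have hs : supp (loop v.1 (fun u => decide (u ∈ L.sys.sub v.2.2)) (L.sys.cost A) v.2.1 0
            (L.cand (A.map Prod.fst) (k+1))) (some (e, K)) := by
          rw [← hp]; exact run_supp _ _
        obtain ⟨_, g1, g2, _, g4, _⟩ := loop_supp hs
        refine ⟨?_, ?_⟩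
        · rw [List.length_append]
          have : (L.sys.upd A (e, K)).length = K.length := by simp [Sys.upd]
          rw [this, Nat.add_mul]
          have := hA.1
          omega
        · intro p hp'
          rw [List.mem_append] at hp'
          rcases hp' with hp' | hp'
          · exact ⟨(hA.2 p hp').1.mono (by omega), (hA.2 p hp').2⟩
          · unfold Sys.upd at hp'
            rw [List.mem_map] at hp'
            obtain ⟨z, hz, rfl⟩ := hp'
            refine ⟨?_, ?_⟩
            · have hz' := g2.subset hz
              apply cand_WB _ _ hz'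
              intro u hu
              rw [List.mem_map] at hu
              obtain ⟨q, hq, rfl⟩ := hu
              exact (hA.2 q hq).1
            · simp only
              omega

/-- size of a bounded tree -/
lemma sz_WB {k : ℕ} {t : List (List ℕ)} (ht : WB L k t) :
    sz t ≤ (k + 1) * ((k + 1) * (2 * L.m + 4)) := by
  have h1 : ∀ w ∈ t, sz w ≤ k * (2 * L.m + 2) + 1 := by
    intro w hw
    have h2 := ht.2 w hw
    have h3 := sz_le_of_forall (l := w) (B := 2 * L.m + 1) (by
      intro i hi
      have := h2.2 i hi
      rw [sz_nat]; omega)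
    refine h3.trans ?_
    have h4 : w.length * (2 * L.m + 1 + 1) ≤ k * (2 * L.m + 2) := Nat.mul_le_mul_right _ h2.1
    omega
  have h5 := sz_le_of_forall h1
  refine h5.trans ?_
  have h6 : t.length * (k * (2 * L.m + 2) + 1 + 1) ≤ k * (k * (2 * L.m + 2) + 1 + 1) :=
    Nat.mul_le_mul_right _ ht.1
  nlinarith

end Pool.Agent.LatticeTrees
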