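import Mathlib

set_option autoImplicit false

/-!
# Lattice trees and efficient samplers: the definitions used in the statement
-/

namespace Pool.Agent.LatticeTrees

/-- The square lattice. -/
def squareLattice : SimpleGraph (ℤ × ℤ) :=
  SimpleGraph.fromRel (fun u v => v = u + (1, 0) ∨ v = u + (0, 1))

/-- The triangular lattice: `(x, y)` stands for the point `x + y * exp (i π / 3)`. -/
def triangularLattice : SimpleGraph (ℤ × ℤ) :=
  SimpleGraph.fromRel (fun u v => v = u + (1, 0) ∨ v = u + (0, 1) ∨ v = u + (-1, 1))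

/-- The hexagonal lattice, drawn as a brick wall. -/
def hexagonalLattice : SimpleGraph (ℤ × ℤ) :=
  SimpleGraph.fromRel (fun u v => v = u + (1, 0) ∨ (Even (u.1 + u.2) ∧ v = u + (0, 1)))

/-- The set of lattice trees with `n` vertices: finite subgraphs of `G` that are trees, contain the
origin and have exactly `n` vertices. -/
def latticeTrees (G : SimpleGraph (ℤ × ℤ)) (n : ℕ) : Set G.Subgraph :=
  {H | H.coe.IsTree ∧ (0, 0) ∈ H.verts ∧ H.verts.Finite ∧ H.verts.ncard = n}

/-- The subgraph of `G` whose edges are the listed ones and whose vertices are the origin and the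
end points of the listed edges. -/
def ofEdges (G : SimpleGraph (ℤ × ℤ)) (l : List ((ℤ × ℤ) × (ℤ × ℤ))) : G.Subgraph where
  verts := {v | v = (0, 0) ∨ ∃ e ∈ l, v = e.1 ∨ v = e.2}
  Adj u v := G.Adj u v ∧ ((u, v) ∈ l ∨ (v, u) ∈ l)
  adj_sub := fun h => h.1
  edge_vert := by
    rintro u v ⟨_, h | h⟩
    · exact Or.inr ⟨_, h, Or.inl rfl⟩
    · exact Or.inr ⟨_, h, Or.inr rfl⟩
  symm := ⟨fun _ _ h => ⟨h.1.symm, h.2.symm⟩⟩

/-- Bit code of an input `(n, k, r)`: `1^n 0 1^k 0 r`. -/
def encIn (x : ℕ × ℕ × List Bool) : List Bool :=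
  List.replicate x.1 true ++ false :: (List.replicate x.2.1 true ++ false :: x.2.2)

/-- Bit code of an integer: sign bit, absolute value in unary, end marker. -/
def encZ (z : ℤ) : List Bool := decide (z < 0) :: (List.replicate z.natAbs true ++ [false])

/-- Bit code of an edge. -/
def encE (e : (ℤ × ℤ) × (ℤ × ℤ)) : List Bool :=
  encZ e.1.1 ++ encZ e.1.2 ++ encZ e.2.1 ++ encZ e.2.2

/-- Bit code of a list of edges. -/
def encOut (l : List ((ℤ × ℤ) × (ℤ × ℤ))) : List Bool := l.flatMap encE

/-- `G` has an efficient approximately uniform sampler: there are a function `F`, computed by a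
Turing machine in polynomial time, and a polynomial `q` such that for all `n ≥ 1` and `k`, when `r`
consists of `q (n + k)` independent fair coin flips, `F (n, k, r)` is always the edge list of a
lattice tree with `n` vertices, and its law is within `2 ^ (-k)` of the uniform law on the lattice
trees with `n` vertices in total variation distance. -/
def HasEfficientSampler (G : SimpleGraph (ℤ × ℤ)) : Prop :=
  ∃ (F : ℕ × ℕ × List Bool → List ((ℤ × ℤ) × (ℤ × ℤ))) (q : Polynomial ℕ),
    Nonempty (Turing.TM2ComputableInPolyTime encIn encOut F) ∧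
    ∀ n k : ℕ, 1 ≤ n →
      (∀ r : Fin (q.eval (n + k)) → Bool, ofEdges G (F (n, k, List.ofFn r)) ∈ latticeTrees G n) ∧
      ∀ S ⊆ latticeTrees G n,
        |({r : Fin (q.eval (n + k)) → Bool | ofEdges G (F (n, k, List.ofFn r)) ∈ S}.ncard : ℝ) /
            2 ^ (q.eval (n + k)) - (S.ncard : ℝ) / (latticeTrees G n).ncard| ≤ (1 / 2) ^ k

end Pool.Agent.LatticeTrees
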