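import Mathlib
import Pool.Agent.LatticeTrees.Words

set_option autoImplicit false
set_option linter.unusedSectionVars false
set_option linter.unusedSimpArgs false

namespace Pool.Agent.LatticeTrees

namespace Lat

variable (L : Lat)

/-- number of rooted trees -/
noncomputable def g (k : ℕ) : ℝ := ((L.TT k).card : ℝ)

lemma g_nonneg (k : ℕ) : 0 ≤ L.g k := by unfold g; positivity

/-- trees having all members of the antichain `S` as subtrees -/
noncomputable def NS (S : Finset (List (List ℕ))) (n : ℕ) : Finset (List (List ℕ)) :=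
  (L.TT n).filter (fun z => (∀ s ∈ S, s ∈ psubL z) ∧ ∀ s ∈ S, ∀ s' ∈ S, s ∉ psubL s')

variable {L}

lemma recover {z z' : List (List ℕ)} (hz : z.Pairwise (· < ·)) (hz' : z'.Pairwise (· < ·))
    {p : List ℕ} (h1 : prune z p = prune z' p) (h2 : br z p = br z' p) : z = z' := by
  apply sorted_ext hz hz'
  intro w
  have key : ∀ t : List (List ℕ), w ∈ t ↔ w ∈ prune t p ∨ ∃ q, w = p ++ q ∧ q ∈ br t p := by
    intro t
    constructor
    · intro hw
      by_cases h : ∃ q, w = p ++ q
      · obtain ⟨q, rfl⟩ := h
        right; exact ⟨q, rfl, mem_br.mpr hw⟩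
      · left; rw [mem_prune]; exact ⟨hw, fun q hq => h ⟨q, hq⟩⟩
    · rintro (h | ⟨q, rfl, hq⟩)
      · exact (mem_prune.mp h).1
      · exact mem_br.mp hq
  rw [key z, key z', h1, h2]

lemma append_eq_append_cases {a b c d : List ℕ} (h : a ++ b = c ++ d) :
    (∃ e, c = a ++ e) ∨ (∃ e, a = c ++ e) := by
  rw [List.append_eq_append_iff] at h
  rcases h with ⟨e, h1, _⟩ | ⟨e, h1, _⟩
  · left; exact ⟨e, h1⟩
  · right; exact ⟨e, h1⟩

lemma NS_step (hL : L.Hom) {S : Finset (List (List ℕ))} {s₀ : List (List ℕ)} (hs₀ : s₀ ∉ S)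
    (n : ℕ) :
    (L.NS (insert s₀ S) n).card ≤ (L.NS S (n - s₀.length)).card * (n * L.m) := by
  classical
  -- choose an occurrence of `s₀`
  have hocc : ∀ z ∈ L.NS (insert s₀ S) n, ∃ p ∈ z, p ≠ [] ∧ s₀ = br z p := by
    intro z hz
    unfold NS at hz
    rw [Finset.mem_filter] at hz
    exact mem_psubL.mp (hz.2.1 s₀ (Finset.mem_insert_self _ _))
  choose! occ hocc1 hocc2 hocc3 using hocc
  have hcard : ((L.NS S (n - s₀.length)).sigma
      (fun z' => z'.toFinset ×ˢ Finset.range L.m)).card
      ≤ (L.NS S (n - s₀.length)).card * (n * L.m) := by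
    rw [Finset.card_sigma, ← smul_eq_mul, ← Finset.sum_const]
    apply Finset.sum_le_sum
    intro z' hz'
    unfold NS at hz'
    rw [Finset.mem_filter, mem_TT] at hz'
    rw [Finset.card_product, Finset.card_range]
    apply Nat.mul_le_mul_right
    exact (List.toFinset_card_le _).trans (by omega)
  refine le_trans ?_ hcard
  apply Finset.card_le_card_of_injOn
    (fun z => ⟨prune z (occ z), ((occ z).dropLast, (occ z).getLastD 0)⟩)
  · intro z hz
    rw [Finset.mem_coe] at hz
    have h1 := hocc1 z hz
    have h2 := hocc2 z hz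
    have h3 := hocc3 z hz
    have hz0 := hz
    unfold NS at hz
    rw [Finset.mem_filter, mem_TT] at hz
    obtain ⟨⟨hzT, hzn⟩, hsub, hanti⟩ := hz
    set p := occ z with hp
    have hlen := length_prune z p
    rw [← h3] at hlen
    rw [Finset.mem_coe, Finset.mem_sigma]
    have hps : p = p.dropLast ++ [p.getLastD 0] := by
      have := List.dropLast_append_getLast h2
      rw [List.getLastD_eq_getLast?, List.getLast?_eq_some_getLast h2]
      simpa using this.symm
    refine ⟨?_, ?_⟩
    · show prune z p ∈ L.NS S (n - s₀.length)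
      unfold NS
      rw [Finset.mem_filter, mem_TT]
      refine ⟨⟨hzT.prune h2, by omega⟩, ?_, ?_⟩
      · intro s hs
        have hs1 := hsub s (Finset.mem_insert_of_mem hs)
        rw [mem_psubL] at hs1
        obtain ⟨q, hq, hq0, hsq⟩ := hs1
        -- `p` and `q` are incomparable
        have hpq : ∀ e, q ≠ p ++ e := by
          rintro e he
          by_cases he0 : e = []
          · rw [he0, List.append_nil] at he
            rw [he, ← h3] at hsq
            rw [hsq] at hs; exact hs₀ hs
          · apply hanti s (Finset.mem_insert_of_mem hs) s₀ (Finset.mem_insert_self _ _)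
            rw [mem_psubL]
            refine ⟨e, ?_, he0, ?_⟩
            · rw [h3, mem_br, ← he]; exact hq
            · rw [h3, br_br hzT.sorted, ← he]; exact hsq
        have hqp : ∀ e, p ≠ q ++ e := by
          rintro e he
          by_cases he0 : e = []
          · rw [he0, List.append_nil] at he
            exact hpq [] (by simp [he])
          · apply hanti s₀ (Finset.mem_insert_self _ _) s (Finset.mem_insert_of_mem hs)
            rw [mem_psubL]
            refine ⟨e, ?_, he0, ?_⟩
            · rw [hsq, mem_br, ← he]; exact h1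
            · rw [hsq, br_br hzT.sorted, ← he]; exact h3
        rw [mem_psubL]
        refine ⟨q, ?_, hq0, ?_⟩
        · rw [mem_prune]; exact ⟨hq, hpq⟩
        · rw [hsq]
          apply sorted_ext (br_sorted hzT.sorted _) (br_sorted (prune_sorted hzT.sorted _) _)
          intro a
          rw [mem_br, mem_br, mem_prune]
          constructor
          · intro ha
            refine ⟨ha, ?_⟩
            intro e he
            rcases append_eq_append_cases he with ⟨f, hf⟩ | ⟨f, hf⟩
            · exact hqp f hf
            · exact hpq f hf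
          · exact fun h => h.1
      · intro s hs s' hs'
        exact hanti s (Finset.mem_insert_of_mem hs) s' (Finset.mem_insert_of_mem hs')
    · rw [Finset.mem_product]
      refine ⟨?_, ?_⟩
      · show p.dropLast ∈ (prune z p).toFinset
        rw [List.mem_toFinset, mem_prune]
        constructor
        · apply hzT.closed' _ [p.getLastD 0]
          rw [← hps]; exact h1
        · intro e he
          have := congrArg List.length he
          have h5 : p.length ≠ 0 := by
            intro h; exact h2 (List.length_eq_zero_iff.mp h)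
          simp at this
          omega
      · show p.getLastD 0 ∈ Finset.range L.m
        rw [Finset.mem_range]
        have h4 : p.dropLast ++ [p.getLastD 0] ∈ z := by rw [← hps]; exact h1
        exact (hzT.closed _ _ h4).2
  · intro z hz z' hz' heq
    rw [Finset.mem_coe] at hz hz'
    have h2 := hocc2 z hz
    have h2' := hocc2 z' hz'
    have h3 := hocc3 z hz
    have h3' := hocc3 z' hz'
    simp only [Sigma.mk.injEq] at heq
    obtain ⟨e1, e2⟩ := heq
    have e2 := eq_of_heq e2
    simp only [Prod.mk.injEq] at e2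
    have hps : ∀ p : List ℕ, p ≠ [] → p = p.dropLast ++ [p.getLastD 0] := by
      intro p hp
      have := List.dropLast_append_getLast hp
      rw [List.getLastD_eq_getLast?, List.getLast?_eq_some_getLast hp]
      simpa using this.symm
    have e3 : occ z = occ z' := by
      rw [hps _ h2, hps _ h2', e2.1, e2.2]
    unfold NS at hz hz'
    rw [Finset.mem_filter, mem_TT] at hz hz'
    apply recover hz.1.1.sorted hz'.1.1.sorted (p := occ z)
    · rw [e1, e3]
    · rw [← h3, e3, ← h3']

/-- join inequality with constant `A` up to size `N` -/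
def Join (L : Lat) (N : ℕ) (A : ℝ) : Prop :=
  ∀ i j, 1 ≤ i → 1 ≤ j → i + j ≤ N → L.g i * L.g j ≤ A * L.g (i + j)

lemma NS_bound (hL : L.Hom) {N : ℕ} {A ρ : ℝ} (hA : 0 ≤ A) (hρ : 0 ≤ ρ) (hJ : Join L N A)
    (S : Finset (List (List ℕ))) :
    ∀ n, n ≤ N → (∏ s ∈ S, (ρ * L.g s.length)) * ((L.NS S n).card : ℝ)
      ≤ (ρ * A * N * L.m) ^ S.card * L.g n := by
  classical
  induction S using Finset.induction_on with
  | empty =>
    intro n _
    simp only [Finset.prod_empty, one_mul, Finset.card_empty, pow_zero]
    unfold g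
    exact_mod_cast Finset.card_filter_le _ _
  | insert s₀ S hs₀ ih =>
    intro n hn
    by_cases hne : L.NS (insert s₀ S) n = ∅
    · rw [hne]
      simp only [Finset.card_empty, Nat.cast_zero, mul_zero]
      have := L.g_nonneg n
      positivity
    · obtain ⟨z, hz⟩ := Finset.nonempty_iff_ne_empty.mpr hne
      unfold NS at hz
      rw [Finset.mem_filter, mem_TT] at hz
      obtain ⟨p, hp, hp0, hs⟩ := mem_psubL.mp (hz.2.1 s₀ (Finset.mem_insert_self _ _))
      have hlen := length_prune z p
      rw [← hs] at hlen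
      have h1 := (hz.1.1.prune hp0).pos_length
      have h2 := (hz.1.1.br hL hp).pos_length
      rw [← hs] at h2
      have hn' : s₀.length + (n - s₀.length) = n := by omega
      have hj := hJ s₀.length (n - s₀.length) h2 (by omega) (by omega)
      rw [hn'] at hj
      have hst : ((L.NS (insert s₀ S) n).card : ℝ) ≤
          (L.NS S (n - s₀.length)).card * (N * L.m) := by
        have := NS_step hL hs₀ n
        have h3 : ((L.NS (insert s₀ S) n).card : ℝ) ≤
          (L.NS S (n - s₀.length)).card * (n * L.m) := by exact_mod_cast this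
        refine h3.trans ?_
        apply mul_le_mul_of_nonneg_left _ (by positivity)
        apply mul_le_mul_of_nonneg_right _ (by positivity)
        exact_mod_cast hn
      have hi := ih (n - s₀.length) (by omega)
      rw [Finset.prod_insert hs₀, Finset.card_insert_of_notMem hs₀]
      have hg0 := L.g_nonneg s₀.length
      have hP : 0 ≤ ∏ s ∈ S, (ρ * L.g s.length) :=
        Finset.prod_nonneg (fun s _ => mul_nonneg hρ (L.g_nonneg _))
      calc ρ * L.g s₀.length * (∏ s ∈ S, (ρ * L.g s.length)) * ((L.NS (insert s₀ S) n).card : ℝ)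
          ≤ ρ * L.g s₀.length * (∏ s ∈ S, (ρ * L.g s.length)) *
            ((L.NS S (n - s₀.length)).card * (N * L.m)) :=
            mul_le_mul_of_nonneg_left hst (by positivity)
        _ = ρ * L.g s₀.length * (N * L.m) *
            ((∏ s ∈ S, (ρ * L.g s.length)) * (L.NS S (n - s₀.length)).card) := by ring
        _ ≤ ρ * L.g s₀.length * (N * L.m) *
            ((ρ * A * N * L.m) ^ S.card * L.g (n - s₀.length)) :=
            mul_le_mul_of_nonneg_left hi (by positivity)
        _ = ρ * (N * L.m) * (ρ * A * N * L.m) ^ S.card *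
            (L.g s₀.length * L.g (n - s₀.length)) := by ring
        _ ≤ ρ * (N * L.m) * (ρ * A * N * L.m) ^ S.card * (A * L.g n) :=
            mul_le_mul_of_nonneg_left hj (by positivity)
        _ = (ρ * A * N * L.m) ^ (S.card + 1) * L.g n := by rw [pow_succ]; ring

lemma one_add_pow_le_two {x : ℝ} (hx : 0 ≤ x) {n : ℕ} (h : n * x ≤ 1/2) : (1 + x) ^ n ≤ 2 := by
  rcases Nat.eq_zero_or_pos n with rfl | hn
  · norm_num
  have hn1 : (1:ℝ) ≤ n := by exact_mod_cast hn
  have hx1 : x ≤ 1/2 := by nlinarith
  have h1 : 1 + (n:ℝ) * (-x) ≤ (1 + (-x)) ^ n := one_add_mul_le_pow (by linarith) n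
  have h2 : (1:ℝ)/2 ≤ (1 - x) ^ n := by
    have : (1:ℝ) + -x = 1 - x := by ring
    rw [this] at h1; linarith
  have h3 : (1 + x) ^ n * (1 - x) ^ n ≤ 1 := by
    rw [← mul_pow]
    apply pow_le_one₀
    · nlinarith
    · nlinarith
  have h4 : 0 ≤ (1 + x) ^ n := by positivity
  nlinarith

open Classical in
theorem kl (hL : L.Hom) {N : ℕ} {A ρ : ℝ} (hA : 0 ≤ A) (hρ : 0 ≤ ρ) (hJ : Join L N A)
    (hsmall : (2 * N) * (ρ * A * N * L.m) ≤ 1/2) (k : ℕ) (hk : k + 1 ≤ N)
    (F : Finset (List (List ℕ))) (hF : F.card ≤ 2 * N) :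
    ∑ z ∈ L.sys.T (k+1), ∏ s ∈ L.sys.top F z, (ρ * L.sys.gam (L.sys.size s))
      ≤ 2 * L.sys.gam (k+1) := by
  have hx : 0 ≤ ρ * A * N * L.m := by positivity
  have h0 : ∀ z ∈ L.TT (k+1), L.sys.top F z ∈ F.powerset := by
    intro z _
    rw [Finset.mem_powerset]
    intro s hs
    simp only [Sys.top, Finset.mem_filter, Finset.mem_inter] at hs
    exact hs.1.1
  have h1 : ∑ z ∈ L.TT (k+1), ∏ s ∈ L.sys.top F z, (ρ * L.g s.length)
      = ∑ S ∈ F.powerset, ∑ z ∈ (L.TT (k+1)).filter (fun z => L.sys.top F z = S),
        ∏ s ∈ L.sys.top F z, (ρ * L.g s.length) := by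
    rw [Finset.sum_fiberwise_of_maps_to h0]
  have h2 : ∀ S ∈ F.powerset, ∑ z ∈ (L.TT (k+1)).filter (fun z => L.sys.top F z = S),
        ∏ s ∈ L.sys.top F z, (ρ * L.g s.length) ≤
        (ρ * A * N * L.m) ^ S.card * L.g (k+1) := by
    intro S _
    have e1 : ∑ z ∈ (L.TT (k+1)).filter (fun z => L.sys.top F z = S),
        ∏ s ∈ L.sys.top F z, (ρ * L.g s.length)
        = (((L.TT (k+1)).filter (fun z => L.sys.top F z = S)).card : ℝ) *
          ∏ s ∈ S, (ρ * L.g s.length) := by
      rw [← nsmul_eq_mul, ← Finset.sum_const]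
      apply Finset.sum_congr rfl
      intro z hz
      rw [(Finset.mem_filter.mp hz).2]
    rw [e1, mul_comm]
    refine le_trans ?_ (NS_bound hL hA hρ hJ S (k+1) hk)
    apply mul_le_mul_of_nonneg_left
    · have : (L.TT (k+1)).filter (fun z => L.sys.top F z = S) ⊆ L.NS S (k+1) := by
        intro z hz
        rw [Finset.mem_filter] at hz
        unfold NS
        rw [Finset.mem_filter]
        refine ⟨hz.1, ?_, ?_⟩
        · intro s hs
          rw [← hz.2] at hs
          simp only [Sys.top, Finset.mem_filter, Finset.mem_inter] at hs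
          exact List.mem_toFinset.mp hs.1.2
        · intro s hs s' hs'
          rw [← hz.2] at hs hs'
          simp only [Sys.top, Finset.mem_filter, Finset.mem_inter] at hs hs'
          intro h
          exact hs.2 s' hs'.1 (List.mem_toFinset.mpr h)
      exact_mod_cast Finset.card_le_card this
    · exact Finset.prod_nonneg (fun s _ => mul_nonneg hρ (L.g_nonneg _))
  show ∑ z ∈ L.TT (k+1), ∏ s ∈ L.sys.top F z, (ρ * L.g s.length) ≤ 2 * L.g (k+1)
  rw [h1]
  refine (Finset.sum_le_sum h2).trans ?_
  rw [← Finset.sum_mul]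
  apply mul_le_mul_of_nonneg_right _ (L.g_nonneg _)
  have h3 : ∑ S ∈ F.powerset, (ρ * A * N * L.m) ^ S.card = (1 + ρ * A * N * L.m) ^ F.card := by
    have := Finset.sum_pow_mul_eq_add_pow (ρ * A * N * L.m) 1 F
    simp only [one_pow, mul_one] at this
    rw [this, add_comm]
  rw [h3]
  apply one_add_pow_le_two hx
  refine le_trans ?_ hsmall
  apply mul_le_mul_of_nonneg_right _ hx
  exact_mod_cast hF

/-- children product bound -/
theorem child_bound (hL : L.Hom) {N : ℕ} {A ρ : ℝ} (hρ : 0 ≤ ρ) (hρA : ρ * A ≤ 1)
    (hJ : Join L N A) (hmono : ∀ i j, 1 ≤ i → i ≤ j → L.g i ≤ L.g j) (k : ℕ) (hk : k + 1 ≤ N)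
    (z : List (List ℕ)) (hz : z ∈ L.sys.T (k+1)) :
    ∃ ch : Finset (List (List ℕ)), ch ⊆ L.sys.psub z ∧
    (∀ u ∈ L.sys.psub z, ∃ v ∈ ch, u ∈ L.sys.sub v) ∧
    ∀ J ⊆ ch, J.Nonempty → ∏ v ∈ J, (ρ * L.sys.gam (L.sys.size v)) ≤ ρ * L.sys.gam (k+1) := by
  classical
  have hz' : L.IsT z ∧ z.length = k + 1 := L.mem_TT.mp hz
  refine ⟨((Finset.range L.m).filter (fun i => [i] ∈ z)).image (fun i => br z [i]), ?_, ?_, ?_⟩
  · intro u hu
    rw [Finset.mem_image] at hu
    obtain ⟨i, hi, rfl⟩ := hu
    rw [Finset.mem_filter] at hi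
    show br z [i] ∈ (psubL z).toFinset
    rw [List.mem_toFinset, mem_psubL]
    exact ⟨[i], hi.2, by simp, rfl⟩
  · intro u hu
    have hu' : u ∈ psubL z := List.mem_toFinset.mp hu
    rw [mem_psubL] at hu'
    obtain ⟨p, hp, hp0, rfl⟩ := hu'
    cases p with
    | nil => exact absurd rfl hp0
    | cons i q =>
      have hi : [i] ∈ z := hz'.1.closed' [i] q (by simpa using hp)
      refine ⟨br z [i], ?_, ?_⟩
      · rw [Finset.mem_image]
        refine ⟨i, ?_, rfl⟩
        rw [Finset.mem_filter, Finset.mem_range]
        exact ⟨hz'.1.letters hi (by simp), hi⟩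
      · have e : br z (i :: q) = br (br z [i]) q := by
          rw [br_br hz'.1.sorted]; rfl
        rw [e]
        show _ ∈ insert _ (psubL (br z [i])).toFinset
        by_cases hq : q = []
        · rw [hq, br_nil]; exact Finset.mem_insert_self _ _
        · apply Finset.mem_insert_of_mem
          rw [List.mem_toFinset, mem_psubL]
          exact ⟨q, by rw [mem_br]; simpa using hp, hq, rfl⟩
  · -- total size of the children
    have hsum : ∀ I : Finset ℕ, ((I.filter (fun i => [i] ∈ z)).sum (fun i => (br z [i]).length))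
        ≤ k := by
      intro I
      have h1 : ((I.filter (fun i => [i] ∈ z)).biUnion
          (fun i => ((br z [i]).map (fun w => i :: w)).toFinset)) ⊆ z.toFinset.erase [] := by
        intro w hw
        rw [Finset.mem_biUnion] at hw
        obtain ⟨i, _, hw⟩ := hw
        rw [List.mem_toFinset, List.mem_map] at hw
        obtain ⟨w', hw', rfl⟩ := hw
        rw [mem_br] at hw'
        rw [Finset.mem_erase, List.mem_toFinset]
        exact ⟨by simp, by simpa using hw'⟩
      have h2 := Finset.card_le_card h1
      rw [Finset.card_biUnion] at h2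
      · rw [Finset.card_erase_of_mem (List.mem_toFinset.mpr hz'.1.nil_mem),
          List.toFinset_card_of_nodup (sorted_nodup hz'.1.sorted), hz'.2] at h2
        refine le_trans (le_of_eq ?_) h2
        apply Finset.sum_congr rfl
        intro i _
        rw [List.toFinset_card_of_nodup]
        · simp
        · exact (sorted_nodup (br_sorted hz'.1.sorted _)).map (fun a b h => by simpa using h)
      · intro i _ j _ hij
        rw [Function.onFun, Finset.disjoint_left]
        intro w h1 h2
        rw [List.mem_toFinset, List.mem_map] at h1 h2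
        obtain ⟨a, _, rfl⟩ := h1
        obtain ⟨b, _, h⟩ := h2
        simp at h
        exact hij h.1.symm
    -- product bound along index sets
    have hprod : ∀ I : Finset ℕ, I.Nonempty → (∀ i ∈ I, [i] ∈ z) →
        ∏ i ∈ I, (ρ * L.g (br z [i]).length) ≤ ρ * L.g (∑ i ∈ I, (br z [i]).length) := by
      intro I hI
      induction hI using Finset.Nonempty.cons_induction with
      | singleton i => intro _; simp
      | cons i I hi hI ih =>
        intro hmem
        rw [Finset.prod_cons, Finset.sum_cons]
        have ih' := ih (fun j hj => hmem j (Finset.mem_cons_of_mem hj))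
        have hi1 : 1 ≤ (br z [i]).length :=
          (hz'.1.br hL (hmem i (Finset.mem_cons_self i I))).pos_length
        obtain ⟨j, hj⟩ := hI
        have hj1 : 1 ≤ (br z [j]).length :=
          (hz'.1.br hL (hmem j (Finset.mem_cons_of_mem hj))).pos_length
        have hs1 : (br z [j]).length ≤ ∑ i ∈ I, (br z [i]).length :=
          Finset.single_le_sum (f := fun i => (br z [i]).length) (fun _ _ => Nat.zero_le _) hj
        have hs2 := hsum (Finset.cons i I hi)
        rw [Finset.filter_true_of_mem hmem, Finset.sum_cons] at hs2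
        have hJ' := hJ (br z [i]).length (∑ i ∈ I, (br z [i]).length) hi1 (by omega) (by omega)
        have hg0 := L.g_nonneg (br z [i]).length
        have hg1 := L.g_nonneg ((br z [i]).length + ∑ i ∈ I, (br z [i]).length)
        calc ρ * L.g (br z [i]).length * ∏ x ∈ I, (ρ * L.g (br z [x]).length)
            ≤ ρ * L.g (br z [i]).length * (ρ * L.g (∑ i ∈ I, (br z [i]).length)) :=
              mul_le_mul_of_nonneg_left ih' (by positivity)
          _ = ρ * ρ * (L.g (br z [i]).length * L.g (∑ i ∈ I, (br z [i]).length)) := by ring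
          _ ≤ ρ * ρ * (A * L.g ((br z [i]).length + ∑ i ∈ I, (br z [i]).length)) :=
              mul_le_mul_of_nonneg_left hJ' (by positivity)
          _ = (ρ * A) * (ρ * L.g ((br z [i]).length + ∑ i ∈ I, (br z [i]).length)) := by ring
          _ ≤ 1 * (ρ * L.g ((br z [i]).length + ∑ i ∈ I, (br z [i]).length)) :=
              mul_le_mul_of_nonneg_right hρA (by positivity)
          _ = _ := one_mul _
    intro J hJsub hJne
    -- choose an index for each member of `J`
    have hch : ∀ v ∈ J, ∃ i, [i] ∈ z ∧ br z [i] = v := by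
      intro v hv
      have := hJsub hv
      rw [Finset.mem_image] at this
      obtain ⟨i, hi, hiv⟩ := this
      exact ⟨i, (Finset.mem_filter.mp hi).2, hiv⟩
    choose! idx hidx1 hidx2 using hch
    have hinj : Set.InjOn idx J := by
      intro v hv v' hv' h
      rw [← hidx2 v hv, ← hidx2 v' hv', h]
    have e1 : ∏ v ∈ J, (ρ * L.g v.length) = ∏ i ∈ J.image idx, (ρ * L.g (br z [i]).length) := by
      rw [Finset.prod_image hinj]
      apply Finset.prod_congr rfl
      intro v hv
      rw [hidx2 v hv]
    have hmem : ∀ i ∈ J.image idx, [i] ∈ z := by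
      intro i hi
      rw [Finset.mem_image] at hi
      obtain ⟨v, hv, rfl⟩ := hi
      exact hidx1 v hv
    show ∏ v ∈ J, (ρ * L.g v.length) ≤ ρ * L.g (k+1)
    rw [e1]
    refine (hprod _ (hJne.image idx) hmem).trans ?_
    apply mul_le_mul_of_nonneg_left _ hρ
    apply hmono
    · obtain ⟨v, hv⟩ := hJne
      have h1 : 1 ≤ (br z [idx v]).length := (hz'.1.br hL (hidx1 v hv)).pos_length
      have h2 : (br z [idx v]).length ≤ ∑ i ∈ J.image idx, (br z [i]).length :=
        Finset.single_le_sum (f := fun i => (br z [i]).length) (fun _ _ => Nat.zero_le _)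
          (Finset.mem_image_of_mem idx hv)
      omega
    · have h3 := hsum (J.image idx)
      rw [Finset.filter_true_of_mem hmem] at h3
      omega

end Lat

end Pool.Agent.LatticeTrees
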