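import Mathlib
import Pool.Agent.LatticeTrees.Defs
import Pool.Agent.LatticeTrees.KL

set_option autoImplicit false
set_option linter.unusedSectionVars false
set_option linter.unusedSimpArgs false

namespace Pool.Agent.LatticeTrees

open SimpleGraph

section general

variable {G : SimpleGraph (ℤ × ℤ)}

lemma card_edges_coe (H : G.Subgraph) : Nat.card H.coe.edgeSet = H.edgeSet.ncard := by
  rw [← Subgraph.image_coe_edgeSet_coe, Set.ncard_image_of_injective]
  · rfl
  · exact Sym2.map.injective Subtype.val_injective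

lemma isTree_of_card {H : G.Subgraph} (hc : H.Connected) (hf : H.verts.Finite)
    (he : H.edgeSet.ncard + 1 ≤ H.verts.ncard) : H.coe.IsTree := by
  have : Finite H.verts := hf
  rw [isTree_iff_connected_and_card]
  have h1 := hc.coe
  refine ⟨h1, ?_⟩
  have h2 := h1.card_vert_le_card_edgeSet_add_one
  rw [card_edges_coe] at h2 ⊢
  have h3 : Nat.card H.verts = H.verts.ncard := rfl
  omega

lemma card_of_isTree {H : G.Subgraph} (hf : H.verts.Finite) (ht : H.coe.IsTree) :
    H.edgeSet.ncard + 1 = H.verts.ncard := by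
  have : Finite H.verts := hf
  rw [isTree_iff_connected_and_card, card_edges_coe] at ht
  exact ht.2

lemma connected_of_isTree {H : G.Subgraph} (ht : H.coe.IsTree) : H.Connected := by
  rw [Subgraph.connected_iff']; exact ht.connected

/-- join two subgraphs by an edge -/
def joinE (H : G.Subgraph) {v w : ℤ × ℤ} (h : G.Adj v w) (K : G.Subgraph) : G.Subgraph :=
  (H ⊔ G.subgraphOfAdj h) ⊔ K

lemma joinE_verts {H K : G.Subgraph} {v w : ℤ × ℤ} {h : G.Adj v w} (hv : v ∈ H.verts)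
    (hw : w ∈ K.verts) : (joinE H h K).verts = H.verts ∪ K.verts := by
  unfold joinE
  rw [Subgraph.verts_sup, Subgraph.verts_sup, subgraphOfAdj_verts]
  ext x
  simp only [Set.mem_union, Set.mem_insert_iff, Set.mem_singleton_iff]
  constructor
  · rintro ((h | (rfl | rfl)) | h)
    · left; exact h
    · left; exact hv
    · right; exact hw
    · right; exact h
  · rintro (h | h)
    · left; left; exact h
    · right; exact h

lemma joinE_tree {H K : G.Subgraph} {v w : ℤ × ℤ} {h : G.Adj v w} (hv : v ∈ H.verts)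
    (hw : w ∈ K.verts) (hHf : H.verts.Finite) (hKf : K.verts.Finite) (hH : H.coe.IsTree)
    (hK : K.coe.IsTree) (hd : Disjoint H.verts K.verts) :
    (joinE H h K).coe.IsTree ∧ (joinE H h K).verts.Finite ∧
      (joinE H h K).verts.ncard = H.verts.ncard + K.verts.ncard := by
  have hf : (joinE H h K).verts.Finite := by
    rw [joinE_verts hv hw]; exact hHf.union hKf
  have hn : (joinE H h K).verts.ncard = H.verts.ncard + K.verts.ncard := by
    rw [joinE_verts hv hw, Set.ncard_union_eq hd hHf hKf]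
  refine ⟨?_, hf, hn⟩
  apply isTree_of_card _ hf
  · have h1 : (joinE H h K).edgeSet = (H.edgeSet ∪ {s(v, w)}) ∪ K.edgeSet := by
      unfold joinE
      rw [Subgraph.edgeSet_sup, Subgraph.edgeSet_sup, edgeSet_subgraphOfAdj]
    have h2 := Set.ncard_union_le (H.edgeSet ∪ {s(v, w)}) K.edgeSet
    have h3 := Set.ncard_union_le H.edgeSet {s(v, w)}
    rw [Set.ncard_singleton] at h3
    have h4 := card_of_isTree hHf hH
    have h5 := card_of_isTree hKf hK
    rw [h1, hn]
    omega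
  · unfold joinE
    apply Subgraph.connected_sup
    · apply Subgraph.Connected.preconnected
      apply Subgraph.connected_sup (connected_of_isTree hH).preconnected
        (Subgraph.subgraphOfAdj_connected h).preconnected
      exact ⟨v, by simp [hv]⟩
    · exact (connected_of_isTree hK).preconnected
    · exact ⟨w, by simp [hw]⟩

/-- lexicographic key -/
def κ (v : ℤ × ℤ) : ℤ ×ₗ ℤ := toLex v

lemma κ_inj {u v : ℤ × ℤ} (h : κ u = κ v) : u = v := toLex.injective h

lemma κ_lt_right (v : ℤ × ℤ) : κ v < κ (v + (1, 0)) := by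
  unfold κ
  rw [Prod.Lex.toLex_lt_toLex]
  left; simp

lemma κ_add (u v a : ℤ × ℤ) : κ (u + a) ≤ κ (v + a) ↔ κ u ≤ κ v := by
  unfold κ
  rw [Prod.Lex.toLex_le_toLex, Prod.Lex.toLex_le_toLex]
  simp

lemma joinE_rec {H K : G.Subgraph} {v w : ℤ × ℤ} {h : G.Adj v w} (hv : v ∈ H.verts)
    (hw : w ∈ K.verts) (h1 : ∀ x ∈ H.verts, κ x ≤ κ v) (h2 : ∀ x ∈ K.verts, κ v < κ x) :
    (∀ x, x ∈ H.verts ↔ x ∈ (joinE H h K).verts ∧ κ x ≤ κ v) ∧
    (∀ x y, H.Adj x y ↔ (joinE H h K).Adj x y ∧ κ x ≤ κ v ∧ κ y ≤ κ v) ∧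
    (∀ x, x ∈ K.verts ↔ x ∈ (joinE H h K).verts ∧ κ v < κ x) ∧
    (∀ x y, K.Adj x y ↔ (joinE H h K).Adj x y ∧ κ v < κ x ∧ κ v < κ y) := by
  have hvw := h2 w hw
  have hadj : ∀ x y, (joinE H h K).Adj x y ↔ H.Adj x y ∨ s(v, w) = s(x, y) ∨ K.Adj x y := by
    intro x y
    unfold joinE
    rw [Subgraph.sup_adj, Subgraph.sup_adj, subgraphOfAdj_adj, or_assoc]
  refine ⟨?_, ?_, ?_, ?_⟩
  · intro x
    rw [joinE_verts hv hw, Set.mem_union]
    constructor
    · intro hx; exact ⟨Or.inl hx, h1 x hx⟩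
    · rintro ⟨hx | hx, hle⟩
      · exact hx
      · exact absurd (h2 x hx) (not_lt.mpr hle)
  · intro x y
    rw [hadj]
    constructor
    · intro hx; exact ⟨Or.inl hx, h1 x hx.fst_mem, h1 y hx.snd_mem⟩
    · rintro ⟨hx | hx | hx, hle1, hle2⟩
      · exact hx
      · rw [Sym2.eq_iff] at hx
        rcases hx with ⟨rfl, rfl⟩ | ⟨rfl, rfl⟩
        · exact absurd hvw (not_lt.mpr hle2)
        · exact absurd hvw (not_lt.mpr hle1)
      · exact absurd (h2 x hx.fst_mem) (not_lt.mpr hle1)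
  · intro x
    rw [joinE_verts hv hw, Set.mem_union]
    constructor
    · intro hx; exact ⟨Or.inr hx, h2 x hx⟩
    · rintro ⟨hx | hx, hle⟩
      · exact absurd hle (not_lt.mpr (h1 x hx))
      · exact hx
  · intro x y
    rw [hadj]
    constructor
    · intro hx; exact ⟨Or.inr (Or.inr hx), h2 x hx.fst_mem, h2 y hx.snd_mem⟩
    · rintro ⟨hx | hx | hx, hle1, hle2⟩
      · exact absurd hle1 (not_lt.mpr (h1 x hx.fst_mem))
      · rw [Sym2.eq_iff] at hx
        rcases hx with ⟨rfl, rfl⟩ | ⟨rfl, rfl⟩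
        · exact absurd hle1 (lt_irrefl _)
        · exact absurd hle2 (lt_irrefl _)
      · exact hx

/-- geometric hypotheses -/
structure Geo (G : SimpleGraph (ℤ × ℤ)) : Prop where
  right : ∀ v, G.Adj v (v + (1, 0))
  trans : ∀ a : ℤ × ℤ, Even (a.1 + a.2) → ∀ u v, G.Adj u v → G.Adj (u + a) (v + a)

/-- translate a subgraph -/
def shift (hG : Geo G) (a : ℤ × ℤ) (ha : Even (a.1 + a.2)) (H : G.Subgraph) : G.Subgraph where
  verts := {x | x - a ∈ H.verts}
  Adj x y := H.Adj (x - a) (y - a)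
  adj_sub := by
    intro x y h
    have := hG.trans a ha _ _ h.adj_sub
    simpa using this
  edge_vert := by
    intro x y h
    exact h.fst_mem
  symm := ⟨fun x y h => h.symm⟩

/-- translation isomorphism -/
def shiftIso (hG : Geo G) (a : ℤ × ℤ) (ha : Even (a.1 + a.2)) (H : G.Subgraph) :
    H.coe ≃g (shift hG a ha H).coe where
  toFun x := ⟨x.1 + a, by simp [shift]⟩
  invFun x := ⟨x.1 - a, x.2⟩
  left_inv x := by simp
  right_inv x := by simp
  map_rel_iff' := by
    intro x y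
    show H.Adj (x.1 + a - a) (y.1 + a - a) ↔ H.Adj x.1 y.1
    rw [add_sub_cancel_right, add_sub_cancel_right]

lemma shift_ncard (hG : Geo G) (a : ℤ × ℤ) (ha : Even (a.1 + a.2)) (H : G.Subgraph) :
    (shift hG a ha H).verts.ncard = H.verts.ncard :=
  (Nat.card_congr (shiftIso hG a ha H).toEquiv).symm

lemma shift_finite (hG : Geo G) (a : ℤ × ℤ) (ha : Even (a.1 + a.2)) {H : G.Subgraph}
    (hH : H.verts.Finite) : (shift hG a ha H).verts.Finite := by
  have : Finite H.verts := hH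
  exact Finite.of_equiv _ (shiftIso hG a ha H).toEquiv

lemma exists_max {H : G.Subgraph} (hf : H.verts.Finite) (hne : H.verts.Nonempty) :
    ∃ v ∈ H.verts, ∀ x ∈ H.verts, κ x ≤ κ v := Set.exists_max_image H.verts κ hf hne

lemma exists_min {H : G.Subgraph} (hf : H.verts.Finite) (hne : H.verts.Nonempty) :
    ∃ v ∈ H.verts, ∀ x ∈ H.verts, κ v ≤ κ x := Set.exists_min_image H.verts κ hf hne

open Classical in
/-- lexicographically largest vertex -/
noncomputable def vmax (H : G.Subgraph) : ℤ × ℤ :=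
  if h : ∃ v ∈ H.verts, ∀ x ∈ H.verts, κ x ≤ κ v then h.choose else (0, 0)

open Classical in
/-- lexicographically smallest vertex -/
noncomputable def vmin (H : G.Subgraph) : ℤ × ℤ :=
  if h : ∃ v ∈ H.verts, ∀ x ∈ H.verts, κ v ≤ κ x then h.choose else (0, 0)

lemma vmax_spec {H : G.Subgraph} (hf : H.verts.Finite) (hne : H.verts.Nonempty) :
    vmax H ∈ H.verts ∧ ∀ x ∈ H.verts, κ x ≤ κ (vmax H) := by
  unfold vmax
  rw [dif_pos (exists_max hf hne)]
  exact (exists_max hf hne).choose_spec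

lemma vmin_spec {H : G.Subgraph} (hf : H.verts.Finite) (hne : H.verts.Nonempty) :
    vmin H ∈ H.verts ∧ ∀ x ∈ H.verts, κ (vmin H) ≤ κ x := by
  unfold vmin
  rw [dif_pos (exists_min hf hne)]
  exact (exists_min hf hne).choose_spec

lemma vmax_eq {H : G.Subgraph} {v : ℤ × ℤ} (hv : v ∈ H.verts) (hm : ∀ x ∈ H.verts, κ x ≤ κ v) :
    vmax H = v := by
  unfold vmax
  have h : ∃ v ∈ H.verts, ∀ x ∈ H.verts, κ x ≤ κ v := ⟨v, hv, hm⟩
  rw [dif_pos h]
  have := h.choose_spec
  exact κ_inj (le_antisymm (hm _ this.1) (this.2 _ hv))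

/-- attach the right neighbour of the largest vertex -/
noncomputable def addR (hG : Geo G) (H : G.Subgraph) : G.Subgraph :=
  joinE H (hG.right (vmax H)) (G.singletonSubgraph (vmax H + (1, 0)))

lemma singleton_tree (v : ℤ × ℤ) : (G.singletonSubgraph v).coe.IsTree := by
  apply isTree_of_card Subgraph.singletonSubgraph_connected
  · simp
  · simp [edgeSet_singletonSubgraph]

lemma addR_spec (hG : Geo G) {H : G.Subgraph} {n : ℕ} (hH : H ∈ latticeTrees G n) :
    addR hG H ∈ latticeTrees G (n+1) ∧ vmax (addR hG H) = vmax H + (1, 0) ∧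
    (∀ x, x ∈ H.verts ↔ x ∈ (addR hG H).verts ∧ κ x ≤ κ (vmax H)) ∧
    (∀ x y, H.Adj x y ↔ (addR hG H).Adj x y ∧ κ x ≤ κ (vmax H) ∧ κ y ≤ κ (vmax H)) := by
  obtain ⟨ht, h0, hf, hn⟩ := hH
  obtain ⟨hv, hm⟩ := vmax_spec hf ⟨_, h0⟩
  have hw : vmax H + (1, 0) ∈ (G.singletonSubgraph (vmax H + (1, 0))).verts := by simp
  have hlt : ∀ x ∈ (G.singletonSubgraph (vmax H + (1, 0))).verts, κ (vmax H) < κ x := by
    intro x hx
    simp only [singletonSubgraph_verts, Set.mem_singleton_iff] at hx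
    rw [hx]; exact κ_lt_right _
  have hd : Disjoint H.verts (G.singletonSubgraph (vmax H + (1, 0))).verts := by
    rw [Set.disjoint_left]
    intro x hx hx'
    exact absurd (hlt x hx') (not_lt.mpr (hm x hx))
  obtain ⟨a1, a2, a3⟩ := joinE_tree (h := hG.right (vmax H)) hv hw hf (by simp) ht
    (singleton_tree _) hd
  obtain ⟨b1, b2, _, _⟩ := joinE_rec (h := hG.right (vmax H)) hv hw hm hlt
  refine ⟨⟨a1, ((b1 _).mp h0).1, a2, ?_⟩, ?_, b1, b2⟩
  · unfold addR
    rw [a3, hn]; simp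
  · apply vmax_eq
    · unfold addR
      rw [joinE_verts hv hw]; right; exact hw
    · intro x hx
      unfold addR at hx
      rw [joinE_verts hv hw] at hx
      rcases hx with hx | hx
      · exact (hm x hx).trans (κ_lt_right _).le
      · simp only [singletonSubgraph_verts, Set.mem_singleton_iff] at hx
        rw [hx]

lemma addR_injOn (hG : Geo G) {H H' : G.Subgraph} {n n' : ℕ} (hH : H ∈ latticeTrees G n)
    (hH' : H' ∈ latticeTrees G n') (h : addR hG H = addR hG H') : H = H' := by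
  obtain ⟨_, a2, a3, a4⟩ := addR_spec hG hH
  obtain ⟨_, b2, b3, b4⟩ := addR_spec hG hH'
  have hv : vmax H = vmax H' := by
    rw [h, b2] at a2
    simpa using a2.symm
  apply Subgraph.ext
  · ext x
    rw [a3, b3, h, hv]
  · ext x y
    rw [a4, b4, h, hv]

/-- pairs whose translation vector is even -/
def evenPairs (G : SimpleGraph (ℤ × ℤ)) (i j : ℕ) : Set (G.Subgraph × G.Subgraph) :=
  {p | p.1 ∈ latticeTrees G i ∧ p.2 ∈ latticeTrees G j ∧
    Even ((vmax p.1 + (1, 0) - vmin p.2).1 + (vmax p.1 + (1, 0) - vmin p.2).2)}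

lemma even_join (hG : Geo G) {i j : ℕ} {p : G.Subgraph × G.Subgraph} (hp : p ∈ evenPairs G i j) :
    ∃ U ∈ latticeTrees G (i + j), vmax p.1 ∈ U.verts ∧ (vmax p.1 + (1, 0) - vmin p.2) ∈ U.verts ∧
    (∀ x, x ∈ p.1.verts ↔ x ∈ U.verts ∧ κ x ≤ κ (vmax p.1)) ∧
    (∀ x y, p.1.Adj x y ↔ U.Adj x y ∧ κ x ≤ κ (vmax p.1) ∧ κ y ≤ κ (vmax p.1)) ∧
    (∀ x, x ∈ p.2.verts ↔ x + (vmax p.1 + (1, 0) - vmin p.2) ∈ U.verts ∧
      κ (vmax p.1) < κ (x + (vmax p.1 + (1, 0) - vmin p.2))) ∧
    (∀ x y, p.2.Adj x y ↔ U.Adj (x + (vmax p.1 + (1, 0) - vmin p.2))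
      (y + (vmax p.1 + (1, 0) - vmin p.2)) ∧
      κ (vmax p.1) < κ (x + (vmax p.1 + (1, 0) - vmin p.2)) ∧
      κ (vmax p.1) < κ (y + (vmax p.1 + (1, 0) - vmin p.2))) := by
  obtain ⟨⟨ht1, h01, hf1, hn1⟩, ⟨ht2, h02, hf2, hn2⟩, ha⟩ := hp
  obtain ⟨hv, hm⟩ := vmax_spec hf1 ⟨_, h01⟩
  obtain ⟨hv2, hm2⟩ := vmin_spec hf2 ⟨_, h02⟩
  set a := vmax p.1 + (1, 0) - vmin p.2 with hadef
  have hw : vmax p.1 + (1, 0) ∈ (shift hG a ha p.2).verts := by
    show vmax p.1 + (1, 0) - a ∈ p.2.verts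
    have : vmax p.1 + (1, 0) - a = vmin p.2 := by rw [hadef]; abel
    rw [this]; exact hv2
  have hlt : ∀ x ∈ (shift hG a ha p.2).verts, κ (vmax p.1) < κ x := by
    intro x hx
    have hx' : x - a ∈ p.2.verts := hx
    have h1 := hm2 _ hx'
    rw [← κ_add _ _ a] at h1
    have e1 : x - a + a = x := by abel
    have e2 : vmin p.2 + a = vmax p.1 + (1, 0) := by rw [hadef]; abel
    rw [e1, e2] at h1
    exact lt_of_lt_of_le (κ_lt_right _) h1
  have hd : Disjoint p.1.verts (shift hG a ha p.2).verts := by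
    rw [Set.disjoint_left]
    intro x hx hx'
    exact absurd (hlt x hx') (not_lt.mpr (hm x hx))
  obtain ⟨a1, a2, a3⟩ := joinE_tree (h := hG.right (vmax p.1)) hv hw hf1
    (shift_finite hG a ha hf2) ht1 ((shiftIso hG a ha p.2).isTree_iff.mp ht2) hd
  obtain ⟨b1, b2, b3, b4⟩ := joinE_rec (h := hG.right (vmax p.1)) hv hw hm hlt
  refine ⟨joinE p.1 (hG.right (vmax p.1)) (shift hG a ha p.2),
    ⟨a1, ((b1 _).mp h01).1, a2, by rw [a3, hn1, shift_ncard, hn2]⟩, ((b1 _).mp hv).1, ?_, b1, b2,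
    ?_, ?_⟩
  · apply ((b3 _).mp _).1
    show a - a ∈ p.2.verts
    rw [sub_self]; exact h02
  · intro x
    rw [← b3]
    show x ∈ p.2.verts ↔ x + a - a ∈ p.2.verts
    rw [add_sub_cancel_right]
  · intro x y
    rw [← b4]
    show p.2.Adj x y ↔ p.2.Adj (x + a - a) (y + a - a)
    rw [add_sub_cancel_right, add_sub_cancel_right]

lemma even_card (hG : Geo G) (hfin : ∀ n, (latticeTrees G n).Finite) (i j : ℕ) :
    (evenPairs G i j).ncard ≤ (i + j) * (i + j) * (latticeTrees G (i + j)).ncard := by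
  classical
  -- choose the joined tree
  have hch : ∀ p, p ∈ evenPairs G i j → _ := fun p hp => even_join hG (p := p) hp
  choose! U hU using hch
  set S : Set (G.Subgraph × ((ℤ × ℤ) × (ℤ × ℤ))) :=
    ⋃ V ∈ latticeTrees G (i + j), {V} ×ˢ (V.verts ×ˢ V.verts) with hS
  have hSfin : S.Finite := by
    rw [hS]
    apply Set.Finite.biUnion (hfin _)
    intro V hV
    exact (Set.finite_singleton V).prod (hV.2.2.1.prod hV.2.2.1)
  have h1 : (evenPairs G i j).ncard ≤ S.ncard := by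
    apply Set.ncard_le_ncard_of_injOn
      (fun p => (U p, (vmax p.1, vmax p.1 + (1, 0) - vmin p.2))) _ _ hSfin
    · intro p hp
      have := hU p hp
      simp only [hS, Set.mem_iUnion, Set.mem_prod, Set.mem_singleton_iff]
      exact ⟨U p, this.1, rfl, this.2.1, this.2.2.1⟩
    · intro p hp q hq h
      simp only [Prod.mk.injEq] at h
      obtain ⟨e1, e2, e3⟩ := h
      obtain ⟨_, _, _, p1, p2, p3, p4⟩ := hU p hp
      obtain ⟨_, _, _, q1, q2, q3, q4⟩ := hU q hq
      apply Prod.ext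
      · apply Subgraph.ext
        · ext x; rw [p1, q1, e1, e2]
        · ext x y; rw [p2, q2, e1, e2]
      · apply Subgraph.ext
        · ext x; rw [p3, q3, e1, e3, e2]
        · ext x y; rw [p4, q4, e1, e3, e2]
  refine h1.trans ?_
  -- count the codomain
  have h2 : S.ncard ≤ ∑ V ∈ (hfin (i+j)).toFinset, (i + j) * (i + j) := by
    have e : S = ⋃ V ∈ (hfin (i+j)).toFinset, {V} ×ˢ (V.verts ×ˢ V.verts) := by
      rw [hS]; ext x; simp
    rw [e]
    refine (Finset.set_ncard_biUnion_le _ _).trans ?_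
    apply Finset.sum_le_sum
    intro V hV
    rw [Set.Finite.mem_toFinset] at hV
    rw [Set.ncard_prod, Set.ncard_prod, Set.ncard_singleton, one_mul, hV.2.2.2]
  refine h2.trans ?_
  rw [Finset.sum_const, smul_eq_mul, Set.ncard_eq_toFinset_card _ (hfin (i+j)), mul_comm]

lemma pairs_card (hG : Geo G) (hfin : ∀ n, (latticeTrees G n).Finite) (i j : ℕ) :
    (latticeTrees G i).ncard * (latticeTrees G j).ncard ≤
      (evenPairs G i j).ncard + (evenPairs G (i+1) j).ncard := by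
  classical
  have hefin : ∀ i j, (evenPairs G i j).Finite := by
    intro i j
    apply ((hfin i).prod (hfin j)).subset
    intro p hp
    exact ⟨hp.1, hp.2.1⟩
  rw [← Set.ncard_prod]
  set O : Set (G.Subgraph × G.Subgraph) :=
    (latticeTrees G i ×ˢ latticeTrees G j) \ evenPairs G i j with hO
  have h1 : latticeTrees G i ×ˢ latticeTrees G j ⊆ evenPairs G i j ∪ O := by
    intro p hp
    by_cases h : p ∈ evenPairs G i j
    · left; exact h
    · right; exact ⟨hp, h⟩
  have hOfin : O.Finite := ((hfin i).prod (hfin j)).subset Set.sdiff_subset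
  refine (Set.ncard_le_ncard h1 ((hefin i j).union hOfin)).trans ?_
  refine (Set.ncard_union_le _ _).trans ?_
  apply Nat.add_le_add_left
  apply Set.ncard_le_ncard_of_injOn (fun p => (addR hG p.1, p.2)) _ _ (hefin (i+1) j)
  · rintro p ⟨⟨hp1, hp2⟩, hp3⟩
    obtain ⟨a1, a2, _, _⟩ := addR_spec hG hp1
    refine ⟨a1, hp2, ?_⟩
    show Even ((vmax (addR hG p.1) + (1, 0) - vmin p.2).1 +
      (vmax (addR hG p.1) + (1, 0) - vmin p.2).2)
    rw [a2]
    have h2 : ¬ Even ((vmax p.1 + (1, 0) - vmin p.2).1 + (vmax p.1 + (1, 0) - vmin p.2).2) :=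
      fun h => hp3 ⟨hp1, hp2, h⟩
    rw [Int.not_even_iff_odd] at h2
    obtain ⟨c, hc⟩ := h2
    refine ⟨c + 1, ?_⟩
    simp only [Prod.fst_add, Prod.snd_add, Prod.fst_sub, Prod.snd_sub] at hc ⊢
    omega
  · rintro p ⟨⟨hp1, hp2⟩, _⟩ q ⟨⟨hq1, hq2⟩, _⟩ h
    simp only [Prod.mk.injEq] at h
    exact Prod.ext (addR_injOn hG hp1 hq1 h.1) h.2

lemma trees_mono (hG : Geo G) (hfin : ∀ n, (latticeTrees G n).Finite) (n : ℕ) :
    (latticeTrees G n).ncard ≤ (latticeTrees G (n+1)).ncard := by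
  apply Set.ncard_le_ncard_of_injOn (addR hG) _ _ (hfin _)
  · intro H hH; exact (addR_spec hG hH).1
  · intro H hH H' hH' h; exact addR_injOn hG hH hH' h

lemma trees_one : (latticeTrees G 1).Nonempty :=
  ⟨G.singletonSubgraph (0, 0), singleton_tree _, by simp, by simp, by simp⟩

end general

end Pool.Agent.LatticeTrees
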