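import Mathlib
import Pool.Agent.LatticeTrees.Graph

set_option autoImplicit false
set_option linter.unusedSectionVars false
set_option linter.unusedSimpArgs false

namespace Pool.Agent.LatticeTrees

open SimpleGraph

/-- compatibility of the direction system and the graph -/
structure Compat (L : Lat) (G : SimpleGraph (ℤ × ℤ)) : Prop where
  adj : ∀ u v, G.Adj u v ↔ ∃ i < L.m, v = L.nb u i
  inj : ∀ u i j, i < L.m → j < L.m → L.nb u i = L.nb u j → i = j
  hom : L.Hom

/-- the subgraph of a word tree -/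
def toSub (L : Lat) (G : SimpleGraph (ℤ × ℤ)) (t : List (List ℕ)) : G.Subgraph where
  verts := {v | ∃ w ∈ t, L.pos w = v}
  Adj u v := G.Adj u v ∧ ∃ w i, w ∈ t ∧ w ++ [i] ∈ t ∧
    ((L.pos w = u ∧ L.pos (w ++ [i]) = v) ∨ (L.pos w = v ∧ L.pos (w ++ [i]) = u))
  adj_sub := fun h => h.1
  edge_vert := by
    rintro u v ⟨_, w, i, h1, h2, ⟨h3, h4⟩ | ⟨h3, h4⟩⟩
    · exact ⟨w, h1, h3⟩
    · exact ⟨w ++ [i], h2, h4⟩
  symm := ⟨by
    rintro u v ⟨h0, w, i, h1, h2, h3⟩
    exact ⟨h0.symm, w, i, h1, h2, h3.symm⟩⟩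

variable {L : Lat} {G : SimpleGraph (ℤ × ℤ)}

lemma step_adj (hC : Compat L G) {w : List ℕ} {i : ℕ} (hi : i < L.m) :
    G.Adj (L.pos w) (L.pos (w ++ [i])) := by
  rw [L.pos_snoc, hC.adj]
  exact ⟨i, hi, rfl⟩

lemma toSub_verts (t : List (List ℕ)) :
    (toSub L G t).verts = ((t.toFinset.image L.pos : Finset (ℤ × ℤ)) : Set (ℤ × ℤ)) := by
  ext v
  simp [toSub]

lemma toSub_ncard {t : List (List ℕ)} (ht : L.IsT t) : (toSub L G t).verts.ncard = t.length := by
  rw [toSub_verts, Set.ncard_coe_finset, Finset.card_image_of_injOn,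
    List.toFinset_card_of_nodup (sorted_nodup ht.sorted)]
  intro w hw w' hw' h
  simp only [List.coe_toFinset, Set.mem_setOf_eq] at hw hw'
  exact ht.inj w hw w' hw' h

lemma toSub_finite (t : List (List ℕ)) : (toSub L G t).verts.Finite := by
  rw [toSub_verts]; exact Finset.finite_toSet _

lemma toSub_edges (t : List (List ℕ)) (ht : L.IsT t) :
    (toSub L G t).edgeSet.ncard + 1 ≤ t.length := by
  classical
  have h1 : (toSub L G t).edgeSet ⊆
      (((t.toFinset.erase []).image (fun w => s(L.pos w.dropLast, L.pos w)) :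
        Finset (Sym2 (ℤ × ℤ))) : Set (Sym2 (ℤ × ℤ))) := by
    intro e
    induction e using Sym2.ind with
    | _ u v =>
      intro he
      rw [Subgraph.mem_edgeSet] at he
      obtain ⟨_, w, i, hw, hwi, h⟩ := he
      rw [Finset.mem_coe, Finset.mem_image]
      refine ⟨w ++ [i], ?_, ?_⟩
      · rw [Finset.mem_erase, List.mem_toFinset]; exact ⟨by simp, hwi⟩
      · rw [List.dropLast_concat]
        rcases h with ⟨h3, h4⟩ | ⟨h3, h4⟩
        · rw [h3, h4]
        · rw [h3, h4, Sym2.eq_swap]
  have h2 := Set.ncard_le_ncard h1 (Finset.finite_toSet _)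
  rw [Set.ncard_coe_finset] at h2
  have h3 : ((t.toFinset.erase []).image (fun w => s(L.pos w.dropLast, L.pos w))).card ≤
      (t.toFinset.erase []).card := Finset.card_image_le
  rw [Finset.card_erase_of_mem (List.mem_toFinset.mpr ht.nil_mem),
    List.toFinset_card_of_nodup (sorted_nodup ht.sorted)] at h3
  have := ht.pos_length
  omega

lemma toSub_connected (hC : Compat L G) {t : List (List ℕ)} (ht : L.IsT t) :
    (toSub L G t).Connected := by
  rw [Subgraph.connected_iff']
  have key : ∀ w (hw : w ∈ t), (toSub L G t).coe.Reachable ⟨(0, 0), ⟨[], ht.nil_mem, rfl⟩⟩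
      ⟨L.pos w, ⟨w, hw, rfl⟩⟩ := by
    intro w
    induction w using List.reverseRecOn with
    | nil => intro hw; exact Reachable.refl _
    | append_singleton w i ih =>
      intro hw
      have h1 := ht.closed w i hw
      refine (ih h1.1).trans ?_
      apply Adj.reachable
      show (toSub L G t).Adj (L.pos w) (L.pos (w ++ [i]))
      exact ⟨step_adj hC h1.2, w, i, h1.1, hw, Or.inl ⟨rfl, rfl⟩⟩
  haveI : Nonempty (toSub L G t).verts := ⟨⟨(0, 0), ⟨[], ht.nil_mem, rfl⟩⟩⟩
  refine ⟨?_⟩
  rintro ⟨u, wu, hwu, rfl⟩ ⟨v, wv, hwv, rfl⟩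
  exact (key wu hwu).symm.trans (key wv hwv)

lemma toSub_mem (hC : Compat L G) {t : List (List ℕ)} (ht : L.IsT t) :
    toSub L G t ∈ latticeTrees G t.length := by
  refine ⟨?_, ⟨[], ht.nil_mem, rfl⟩, toSub_finite t, toSub_ncard ht⟩
  apply isTree_of_card (toSub_connected hC ht) (toSub_finite t)
  rw [toSub_ncard ht]
  exact toSub_edges t ht

lemma toSub_inj_aux (hC : Compat L G) {t t' : List (List ℕ)} (ht : L.IsT t) (ht' : L.IsT t')
    (h : toSub L G t = toSub L G t') : ∀ q, q ∈ t → q ∈ t' := by
  intro q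
  induction q using List.reverseRecOn with
  | nil => intro _; exact ht'.nil_mem
  | append_singleton q i ih =>
    intro hq
    have h1 := ht.closed q i hq
    have h2 := ih h1.1
    have h3 : (toSub L G t').Adj (L.pos q) (L.pos (q ++ [i])) := by
      rw [← h]
      exact ⟨step_adj hC h1.2, q, i, h1.1, hq, Or.inl ⟨rfl, rfl⟩⟩
    obtain ⟨_, a, j, ha, haj, ⟨h4, h5⟩ | ⟨h4, h5⟩⟩ := h3
    · have h6 := ht'.inj _ ha _ h2 h4
      subst h6
      have hj := (ht'.closed _ _ haj).2
      rw [L.pos_snoc, L.pos_snoc] at h5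
      have := hC.inj _ _ _ hj h1.2 h5
      rw [← this]; exact haj
    · have h6 := ht'.inj _ haj _ h2 h5
      have hat : a ∈ t := by
        have : a ++ [j] ∈ t := by rw [h6]; exact h1.1
        exact (ht.closed _ _ this).1
      have h7 := ht.inj _ hat _ hq h4
      have h8 := congrArg List.length h7
      have h9 := congrArg List.length h6
      simp at h8 h9
      omega

lemma toSub_inj (hC : Compat L G) {t t' : List (List ℕ)} (ht : L.IsT t) (ht' : L.IsT t')
    (h : toSub L G t = toSub L G t') : t = t' :=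
  sorted_ext ht.sorted ht'.sorted
    (fun q => ⟨toSub_inj_aux hC ht ht' h q, toSub_inj_aux hC ht' ht h.symm q⟩)

lemma exists_word_tree (hC : Compat L G) {n : ℕ} {H : G.Subgraph} (hH : H ∈ latticeTrees G n) :
    ∀ k, k + 1 ≤ n → ∃ t, L.IsT t ∧ t.length = k + 1 ∧ toSub L G t ≤ H := by
  classical
  obtain ⟨hT, h0, hf, hn⟩ := hH
  intro k
  induction k with
  | zero =>
    intro _
    refine ⟨[[]], ⟨by simp, by simp, ?_, ?_⟩, rfl, ?_⟩
    · intro w i h; simp at h
    · intro w hw w' hw' _
      simp only [List.mem_singleton] at hw hw'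
      rw [hw, hw']
    · refine ⟨?_, ?_⟩
      · rintro v ⟨w, hw, rfl⟩
        simp only [List.mem_singleton] at hw
        rw [hw]; exact h0
      · rintro u v ⟨_, w, i, _, hwi, _⟩
        simp at hwi
  | succ k ih =>
    intro hk
    obtain ⟨t, ht, hlen, hle⟩ := ih (by omega)
    -- a vertex of `H` outside
    have hex : ∃ v ∈ H.verts, v ∉ (toSub L G t).verts := by
      by_contra hcon
      push Not at hcon
      have h1 := Set.ncard_le_ncard (s := H.verts) hcon (toSub_finite t)
      rw [toSub_ncard ht, hlen, hn] at h1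
      omega
    obtain ⟨v, hv, hvt⟩ := hex
    obtain ⟨p⟩ := hT.connected.preconnected ⟨(0, 0), h0⟩ ⟨v, hv⟩
    obtain ⟨d, _, hd1, hd2⟩ := p.exists_boundary_dart
      {x | (x : ℤ × ℤ) ∈ (toSub L G t).verts} ⟨[], ht.nil_mem, rfl⟩ hvt
    have hadj : H.Adj d.fst.1 d.snd.1 := d.adj
    obtain ⟨w, hw, hwd⟩ := hd1
    have hG := hadj.adj_sub
    rw [hC.adj] at hG
    obtain ⟨i, hi, hdi⟩ := hG
    have hpos : L.pos (w ++ [i]) = d.snd.1 := by rw [L.pos_snoc, hwd, hdi]
    have hnew : w ++ [i] ∉ t := fun h => hd2 ⟨w ++ [i], h, hpos⟩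
    set t' := (insert (w ++ [i]) t.toFinset).sort (· ≤ ·) with ht'def
    have hmem : ∀ x, x ∈ t' ↔ x = w ++ [i] ∨ x ∈ t := by
      intro x
      rw [ht'def, Finset.mem_sort, Finset.mem_insert, List.mem_toFinset]
    have hlen' : t'.length = k + 1 + 1 := by
      rw [ht'def, Finset.length_sort, Finset.card_insert_of_notMem (by
        rw [List.mem_toFinset]; exact hnew),
        List.toFinset_card_of_nodup (sorted_nodup ht.sorted), hlen]
    refine ⟨t', ⟨(Finset.sortedLT_sort _).pairwise, ?_, ?_, ?_⟩, hlen', ?_⟩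
    · rw [hmem]; right; exact ht.nil_mem
    · intro x j hx
      rw [hmem] at hx ⊢
      rcases hx with hx | hx
      · have := List.append_inj' hx rfl
        rw [this.1]
        have h3 := this.2
        simp only [List.cons.injEq, and_true] at h3
        rw [h3]
        exact ⟨Or.inr hw, hi⟩
      · have := ht.closed _ _ hx
        exact ⟨Or.inr this.1, this.2⟩
    · intro x hx y hy hxy
      rw [hmem] at hx hy
      rcases hx with rfl | hx <;> rcases hy with rfl | hy
      · rfl
      · exfalso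
        rw [hpos] at hxy
        exact hd2 ⟨y, hy, hxy.symm⟩
      · exfalso
        rw [hpos] at hxy
        exact hd2 ⟨x, hx, hxy⟩
      · exact ht.inj x hx y hy hxy
    · refine ⟨?_, ?_⟩
      · rintro x ⟨y, hy, rfl⟩
        rw [hmem] at hy
        rcases hy with rfl | hy
        · rw [hpos]; exact hadj.snd_mem
        · exact hle.1 ⟨y, hy, rfl⟩
      · rintro x y ⟨hxy, a, j, ha, haj, hor⟩
        rw [hmem] at ha haj
        rcases haj with haj | haj
        · have h5 := List.append_inj' haj rfl
          have h6 := h5.2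
          simp only [List.cons.injEq, and_true] at h6
          rw [h5.1, h6] at hor
          rcases hor with ⟨h7, h8⟩ | ⟨h7, h8⟩
          · rw [← h7, ← h8, hpos, hwd]; exact hadj
          · rw [← h7, ← h8, hpos, hwd]; exact hadj.symm
        · have ha' := (ht.closed _ _ haj).1
          exact hle.2 ⟨hxy, a, j, ha', haj, hor⟩

lemma toSub_surj (hC : Compat L G) {n : ℕ} (hn : 1 ≤ n) {H : G.Subgraph}
    (hH : H ∈ latticeTrees G n) : ∃ t, L.IsT t ∧ t.length = n ∧ toSub L G t = H := by
  obtain ⟨t, ht, hlen, hle⟩ := exists_word_tree hC hH (n - 1) (by omega)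
  have hlen' : t.length = n := by omega
  refine ⟨t, ht, hlen', ?_⟩
  obtain ⟨hT, h0, hf, hcard⟩ := hH
  have hm := toSub_mem hC ht
  have hv : (toSub L G t).verts = H.verts := by
    apply Set.eq_of_subset_of_ncard_le hle.1 _ hf
    rw [toSub_ncard ht, hcard, hlen']
  have e1 := card_of_isTree hf hT
  have e2 := card_of_isTree hm.2.2.1 hm.1
  have hfe : H.edgeSet.Finite := by
    have : Finite H.verts := hf
    rw [← Subgraph.image_coe_edgeSet_coe]
    exact (Set.toFinite _).image _
  have he : (toSub L G t).edgeSet = H.edgeSet := by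
    apply Set.eq_of_subset_of_ncard_le (Subgraph.edgeSet_mono hle) _ hfe
    rw [toSub_ncard ht, hlen'] at e2
    rw [hcard] at e1
    omega
  apply Subgraph.ext hv
  ext u v
  rw [← Subgraph.mem_edgeSet, he, Subgraph.mem_edgeSet]

/-- bijection with lattice trees -/
theorem trees_eq_image (hC : Compat L G) {n : ℕ} (hn : 1 ≤ n) :
    latticeTrees G n = toSub L G '' (L.TT n : Set (List (List ℕ))) := by
  ext H
  constructor
  · intro hH
    obtain ⟨t, ht, hlen, rfl⟩ := toSub_surj hC hn hH
    exact ⟨t, by rw [Finset.mem_coe, L.mem_TT]; exact ⟨ht, hlen⟩, rfl⟩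
  · rintro ⟨t, ht, rfl⟩
    rw [Finset.mem_coe, L.mem_TT] at ht
    rw [← ht.2]
    exact toSub_mem hC ht.1

lemma toSub_injOn (hC : Compat L G) (n : ℕ) :
    Set.InjOn (toSub L G) (L.TT n : Set (List (List ℕ))) := by
  intro t ht t' ht' h
  rw [Finset.mem_coe, L.mem_TT] at ht ht'
  exact toSub_inj hC ht.1 ht'.1 h

lemma trees_finite (hC : Compat L G) (n : ℕ) : (latticeTrees G n).Finite := by
  rcases Nat.eq_zero_or_pos n with rfl | hn
  · have : latticeTrees G 0 = ∅ := by
      ext H
      simp only [Set.mem_empty_iff_false, iff_false]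
      rintro ⟨_, h0, hf, hc⟩
      rw [Set.ncard_eq_zero hf] at hc
      rw [hc] at h0
      exact h0
    rw [this]; exact Set.finite_empty
  · rw [trees_eq_image hC hn]
    exact (Finset.finite_toSet _).image _

lemma trees_ncard (hC : Compat L G) {n : ℕ} (hn : 1 ≤ n) :
    (latticeTrees G n).ncard = (L.TT n).card := by
  rw [trees_eq_image hC hn, Set.ncard_image_of_injOn (toSub_injOn hC n), Set.ncard_coe_finset]

/-! ### inequalities for the counting sequence -/

lemma g_mono_succ (hG : Geo G) (hC : Compat L G) {n : ℕ} (hn : 1 ≤ n) : L.g n ≤ L.g (n+1) := by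
  have h := trees_mono hG (trees_finite hC) n
  rw [trees_ncard hC hn, trees_ncard hC (by omega)] at h
  unfold Lat.g
  exact_mod_cast h

lemma g_mono (hG : Geo G) (hC : Compat L G) : ∀ i j, 1 ≤ i → i ≤ j → L.g i ≤ L.g j := by
  intro i j hi hij
  induction j, hij using Nat.le_induction with
  | base => exact le_rfl
  | succ j hij ih => exact ih.trans (g_mono_succ hG hC (by omega))

lemma g_one (hC : Compat L G) : 1 ≤ L.g 1 := by
  have h1 : 0 < (latticeTrees G 1).ncard := by
    rw [Set.ncard_pos (trees_finite hC 1)]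
    exact trees_one
  rw [trees_ncard hC le_rfl] at h1
  unfold Lat.g
  exact_mod_cast h1

lemma g_pos (hG : Geo G) (hC : Compat L G) {n : ℕ} (hn : 1 ≤ n) : 1 ≤ L.g n :=
  (g_one hC).trans (g_mono hG hC 1 n le_rfl hn)

/-- removing a leaf -/
lemma TT_succ (L : Lat) {n : ℕ} (hn : 1 ≤ n) :
    (L.TT (n+1)).card ≤ (L.TT n).card * (n * L.m) := by
  classical
  have hex : ∀ t ∈ L.TT (n+1), ∃ w ∈ t, w ≠ [] ∧ ∀ w' ∈ t, w'.length ≤ w.length := by
    intro t ht
    rw [L.mem_TT] at ht
    obtain ⟨ht, hlen⟩ := ht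
    obtain ⟨w, hw, hmax⟩ := Finset.exists_max_image t.toFinset List.length
      ⟨[], List.mem_toFinset.mpr ht.nil_mem⟩
    rw [List.mem_toFinset] at hw
    refine ⟨w, hw, ?_, fun w' hw' => hmax w' (List.mem_toFinset.mpr hw')⟩
    rintro rfl
    have h1 : ∀ w' ∈ t, w' = [] := by
      intro w' hw'
      have := hmax w' (List.mem_toFinset.mpr hw')
      exact List.length_eq_zero_iff.mp (by simpa using this)
    have h2 : t = List.replicate t.length [] := List.eq_replicate_of_mem h1
    have h3 := sorted_nodup ht.sorted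
    rw [h2, List.nodup_replicate] at h3
    omega
  choose! lf hlf1 hlf2 hlf3 using hex
  have hbr : ∀ t ∈ L.TT (n+1), br t (lf t) = [[]] := by
    intro t ht
    have ht' := L.mem_TT.mp ht
    apply sorted_ext (br_sorted ht'.1.sorted _) (by simp)
    intro q
    rw [mem_br, List.mem_singleton]
    constructor
    · intro hq
      have := hlf3 t ht _ hq
      simp at this
      exact this
    · rintro rfl
      simpa using hlf1 t ht
  have hcard : ((L.TT n).sigma (fun z' => z'.toFinset ×ˢ Finset.range L.m)).card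
      ≤ (L.TT n).card * (n * L.m) := by
    rw [Finset.card_sigma, ← smul_eq_mul, ← Finset.sum_const]
    apply Finset.sum_le_sum
    intro z' hz'
    rw [L.mem_TT] at hz'
    rw [Finset.card_product, Finset.card_range]
    apply Nat.mul_le_mul_right
    exact (List.toFinset_card_le _).trans (by omega)
  refine le_trans ?_ hcard
  have hps : ∀ p : List ℕ, p ≠ [] → p = p.dropLast ++ [p.getLastD 0] := by
    intro p hp
    have := List.dropLast_append_getLast hp
    rw [List.getLastD_eq_getLast?, List.getLast?_eq_some_getLast hp]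
    simpa using this.symm
  apply Finset.card_le_card_of_injOn
    (fun t => ⟨prune t (lf t), ((lf t).dropLast, (lf t).getLastD 0)⟩)
  · intro t ht
    rw [Finset.mem_coe] at ht
    have h1 := hlf1 t ht
    have h2 := hlf2 t ht
    have h3 := hbr t ht
    have ht' := L.mem_TT.mp ht
    have hlen := length_prune t (lf t)
    rw [h3] at hlen
    rw [Finset.mem_coe, Finset.mem_sigma]
    refine ⟨?_, ?_⟩
    · show prune t (lf t) ∈ L.TT n
      rw [L.mem_TT]
      refine ⟨ht'.1.prune h2, ?_⟩
      simp at hlen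
      omega
    · rw [Finset.mem_product]
      refine ⟨?_, ?_⟩
      · show (lf t).dropLast ∈ (prune t (lf t)).toFinset
        rw [List.mem_toFinset, mem_prune]
        constructor
        · apply ht'.1.closed' _ [(lf t).getLastD 0]
          rw [← hps _ h2]; exact h1
        · intro e he
          have := congrArg List.length he
          have h5 : (lf t).length ≠ 0 := by
            intro h; exact h2 (List.length_eq_zero_iff.mp h)
          simp at this
          omega
      · show (lf t).getLastD 0 ∈ Finset.range L.m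
        rw [Finset.mem_range]
        have h4 : (lf t).dropLast ++ [(lf t).getLastD 0] ∈ t := by rw [← hps _ h2]; exact h1
        exact (ht'.1.closed _ _ h4).2
  · intro t ht t' ht' heq
    rw [Finset.mem_coe] at ht ht'
    simp only [Sigma.mk.injEq] at heq
    obtain ⟨e1, e2⟩ := heq
    have e2 := eq_of_heq e2
    simp only [Prod.mk.injEq] at e2
    have e3 : lf t = lf t' := by
      rw [hps _ (hlf2 t ht), hps _ (hlf2 t' ht'), e2.1, e2.2]
    have hs := (L.mem_TT.mp ht).1.sorted
    have hs' := (L.mem_TT.mp ht').1.sorted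
    apply Lat.recover hs hs' (p := lf t)
    · rw [e1, e3]
    · rw [hbr t ht, e3, hbr t' ht']

lemma g_succ (L : Lat) {n : ℕ} (hn : 1 ≤ n) : L.g (n+1) ≤ (n * L.m) * L.g n := by
  have := TT_succ L hn
  unfold Lat.g
  rw [mul_comm]
  exact_mod_cast this

lemma g_le_pow (hC : Compat L G) (N : ℕ) : ∀ n, 1 ≤ n → n ≤ N + 1 →
    L.g n ≤ (N * L.m) ^ (n - 1) * L.g 1 := by
  intro n hn
  induction n, hn using Nat.le_induction with
  | base => intro _; simp
  | succ n hn ih =>
    intro hN
    have h1 := g_succ L hn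
    have h2 := ih (by omega)
    have h3 : (n:ℝ) ≤ N := by exact_mod_cast (by omega : n ≤ N)
    have h4 := L.g_nonneg n
    have h5 : n + 1 - 1 = (n - 1) + 1 := by omega
    rw [h5, pow_succ]
    calc L.g (n+1) ≤ (n * L.m) * L.g n := h1
      _ ≤ (N * L.m) * L.g n := by gcongr
      _ ≤ (N * L.m) * ((N * L.m) ^ (n - 1) * L.g 1) := by gcongr
      _ = _ := by ring

lemma g_one_eq (hC : Compat L G) : L.g 1 = 1 := by
  apply le_antisymm _ (g_one hC)
  have : L.TT 1 ⊆ {[[]]} := by
    intro t ht
    rw [L.mem_TT] at ht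
    rw [Finset.mem_singleton]
    obtain ⟨a, ha⟩ := List.length_eq_one_iff.mp ht.2
    have := ht.1.nil_mem
    rw [ha] at this ⊢
    simp at this
    rw [this]
  have h := Finset.card_le_card this
  rw [Finset.card_singleton] at h
  unfold Lat.g
  exact_mod_cast h

/-- the join constant -/
noncomputable def joinA (L : Lat) (N : ℕ) : ℕ := N * N + (N + 1) * (N + 1) * (N * L.m)

theorem join_ineq (hG : Geo G) (hC : Compat L G) (N : ℕ) : L.Join N (joinA L N) := by
  intro i j hi hj hij
  have h1 := pairs_card hG (trees_finite hC) i j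
  have h2 := even_card hG (trees_finite hC) i j
  have h3 := even_card hG (trees_finite hC) (i+1) j
  have h4 := TT_succ L (n := i + j) (by omega)
  have e : i + 1 + j = i + j + 1 := by omega
  rw [trees_ncard hC hi, trees_ncard hC hj] at h1
  rw [trees_ncard hC (by omega)] at h2 h3
  rw [e] at h3
  have hN : i + j ≤ N := hij
  have h5 : (L.TT i).card * (L.TT j).card ≤ joinA L N * (L.TT (i+j)).card := by
    calc (L.TT i).card * (L.TT j).card
        ≤ (i + j) * (i + j) * (L.TT (i+j)).card + (i+j+1) * (i+j+1) * (L.TT (i+j+1)).card := by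
          omega
      _ ≤ (i + j) * (i + j) * (L.TT (i+j)).card +
          (i+j+1) * (i+j+1) * ((L.TT (i+j)).card * ((i+j) * L.m)) := by gcongr
      _ = ((i + j) * (i + j) + (i+j+1) * (i+j+1) * ((i+j) * L.m)) * (L.TT (i+j)).card := by ring
      _ ≤ (N * N + (N+1) * (N+1) * (N * L.m)) * (L.TT (i+j)).card := by gcongr
  unfold Lat.g
  exact_mod_cast h5

end Pool.Agent.LatticeTrees
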