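import Mathlib
import Pool.Agent.LatticeTrees.Step
import Pool.Agent.LatticeTrees.Bij

set_option autoImplicit false
set_option linter.unusedSectionVars false
set_option linter.unusedSimpArgs false

namespace Pool.Agent.LatticeTrees

open RC

/-- parameters of the sampler -/
def pA (m N : ℕ) : ℕ := N * N + (N + 1) * (N + 1) * (N * m)
def pE (m N : ℕ) : ℕ := N * N * m
def pC (m N : ℕ) : ℕ := 16 * N * (pE m N + 1)
def pM (m N : ℕ) : ℕ := 4 * N * N * m * pA m N * pC m N + 4 * N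
def pJ (M : ℕ) : ℕ := Nat.size (2 * M)

lemma pJ_spec {M : ℕ} (hM : 1 ≤ M) : 2 * M ≤ 2 ^ (pJ M) ∧ 2 ^ (pJ M) ≤ 4 * M := by
  unfold pJ
  have h1 := Nat.lt_size_self (2 * M)
  have h2 : ¬ (Nat.size (2 * M) ≤ Nat.size (2 * M) - 1) := by
    have : 0 < Nat.size (2 * M) := Nat.size_pos.mpr (by omega)
    omega
  rw [Nat.size_le] at h2
  have h3 : 0 < Nat.size (2 * M) := Nat.size_pos.mpr (by omega)
  obtain ⟨s, hs⟩ : ∃ s, Nat.size (2 * M) = s + 1 := ⟨Nat.size (2 * M) - 1, by omega⟩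
  rw [hs] at h1 h2 ⊢
  simp only [Nat.add_sub_cancel] at h2
  rw [pow_succ] at h1 ⊢
  omega

variable {L : Lat} {G : SimpleGraph (ℤ × ℤ)}

lemma num_holds (hG : Geo G) (hC : Compat L G) (hm : 1 ≤ L.m) {N : ℕ} (hN : 1 ≤ N) :
    L.sys.Num N (pM L.m N) (pE L.m N) ((pC L.m N : ℝ) / pM L.m N) := by
  have hCpos : 0 < pC L.m N := by unfold pC; positivity
  have hMpos : 0 < pM L.m N := by unfold pM; positivity
  have hCr : (0:ℝ) < pC L.m N := by exact_mod_cast hCpos
  have hMr : (0:ℝ) < pM L.m N := by exact_mod_cast hMpos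
  have hApos : 0 < pA L.m N := by unfold pA; positivity
  have hbig : 4 * N * N * L.m * pA L.m N * pC L.m N ≤ pM L.m N := by unfold pM; omega
  have hJ : L.Join N (pA L.m N : ℕ) := join_ineq hG hC N
  have hρ : (0:ℝ) ≤ (pC L.m N : ℝ) / pM L.m N := by positivity
  have hρA : (pC L.m N : ℝ) / pM L.m N * (pA L.m N : ℕ) ≤ 1 := by
    rw [div_mul_eq_mul_div, div_le_one hMr]
    have : pC L.m N * pA L.m N ≤ pM L.m N := by
      refine le_trans ?_ hbig
      have h1 : 1 ≤ 4 * N * N * L.m := Nat.one_le_iff_ne_zero.mpr (by positivity)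
      calc pC L.m N * pA L.m N = 1 * (pA L.m N * pC L.m N) := by ring
        _ ≤ (4 * N * N * L.m) * (pA L.m N * pC L.m N) := Nat.mul_le_mul_right _ h1
        _ = _ := by ring
    exact_mod_cast this
  have hρ1 : (pC L.m N : ℝ) / pM L.m N ≤ 1 := by
    refine le_trans ?_ hρA
    have : (1:ℝ) ≤ (pA L.m N : ℕ) := by exact_mod_cast hApos
    nlinarith
  have hsmall : (2 * (N:ℝ)) * ((pC L.m N : ℝ) / pM L.m N * (pA L.m N : ℕ) * N * L.m) ≤ 1/2 := by
    have : (2 * (N:ℝ)) * ((pC L.m N : ℝ) / pM L.m N * (pA L.m N : ℕ) * N * L.m)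
        = (4 * N * N * L.m * pA L.m N * pC L.m N : ℝ) / pM L.m N * (1/2) := by
      field_simp; ring
    rw [this]
    have h2 : (4 * N * N * L.m * pA L.m N * pC L.m N : ℝ) / pM L.m N ≤ 1 := by
      rw [div_le_one hMr]
      exact_mod_cast hbig
    linarith
  refine ⟨hMpos, by positivity, ?_, ?_, ?_, ?_⟩
  · intro k hk _
    have := g_pos hG hC hk
    show 0 < L.g k
    linarith
  · intro k hk
    show (pC L.m N : ℝ) / pM L.m N * L.g k < 2 ^ (pE L.m N + 1)
    have h1 : L.g k ≤ 2 ^ (pE L.m N) := by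
      rcases Nat.eq_zero_or_pos k with rfl | hk0
      · have : L.g 0 = 0 := by
          unfold Lat.g
          have : L.TT 0 = ∅ := by
            apply Finset.eq_empty_of_forall_notMem
            intro t ht
            have h := L.mem_TT.mp ht
            have := h.1.pos_length
            omega
          rw [this]; simp
        rw [this]; positivity
      · have h2 := g_le_pow hC N k hk0 (by omega)
        rw [g_one_eq hC, mul_one] at h2
        refine h2.trans ?_
        have h3 : (N * L.m : ℕ) ≤ 2 ^ (N * L.m) := Nat.lt_two_pow_self.le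
        have h4 : (N * L.m : ℕ) ^ (k - 1) ≤ 2 ^ (pE L.m N) := by
          calc (N * L.m) ^ (k - 1) ≤ (2 ^ (N * L.m)) ^ (k - 1) := Nat.pow_le_pow_left h3 _
            _ = 2 ^ (N * L.m * (k - 1)) := by rw [← pow_mul]
            _ ≤ 2 ^ (pE L.m N) := by
              apply Nat.pow_le_pow_right (by norm_num)
              unfold pE
              calc N * L.m * (k - 1) ≤ N * L.m * N := Nat.mul_le_mul_left _ (by omega)
                _ = N * N * L.m := by ring
        exact_mod_cast h4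
    calc (pC L.m N : ℝ) / pM L.m N * L.g k ≤ 1 * L.g k :=
          mul_le_mul_of_nonneg_right hρ1 (L.g_nonneg k)
      _ ≤ 2 ^ (pE L.m N) := by rw [one_mul]; exact h1
      _ < 2 ^ (pE L.m N + 1) := by rw [pow_succ]; nlinarith [pow_pos (two_pos (α := ℝ)) (pE L.m N)]
  · intro k hk z hz
    exact Lat.child_bound hC.hom hρ hρA hJ (g_mono hG hC) k hk z hz
  · intro k hk F _ hF
    exact Lat.kl hC.hom (by positivity) hρ hJ hsmall k hk F hF

lemma one_sub_pow_le {M : ℕ} (hM : 1 ≤ M) (k : ℕ) :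
    (1 - 1 / (16 * (M:ℝ))) ^ (16 * M * k) ≤ (1/2) ^ k := by
  rw [pow_mul]
  have hM' : (1:ℝ) ≤ M := by exact_mod_cast hM
  have hc : (0:ℝ) < 1 / (16 * (M:ℝ)) := by positivity
  have hc1 : 1 / (16 * (M:ℝ)) ≤ 1 := by
    rw [div_le_one (by positivity)]; linarith
  apply pow_le_pow_left₀
  · apply pow_nonneg; linarith
  have h1 : 1 + ((16 * M : ℕ):ℝ) * (1 / (16 * (M:ℝ))) ≤ (1 + 1 / (16 * (M:ℝ))) ^ (16 * M) :=
    one_add_mul_le_pow (by linarith) _
  have h2 : ((16 * M : ℕ):ℝ) * (1 / (16 * (M:ℝ))) = 1 := by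
    push_cast; field_simp
  rw [h2] at h1
  have h3 : (1 - 1 / (16 * (M:ℝ))) ^ (16 * M) * (1 + 1 / (16 * (M:ℝ))) ^ (16 * M) ≤ 1 := by
    rw [← mul_pow]
    apply pow_le_one₀
    · nlinarith
    · nlinarith
  have h4 : 0 ≤ (1 - 1 / (16 * (M:ℝ))) ^ (16 * M) := by
    apply pow_nonneg; linarith
  nlinarith

/-- the step of the sampler -/
noncomputable def samp (L : Lat) (N : ℕ) : List (List ℕ) → RC (List (List ℕ)) :=
  L.sys.step N (pM L.m N) (pE L.m N) (fun _ => pJ (pM L.m N))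

theorem samp_conv (hG : Geo G) (hC : Compat L G) (hm : 1 ≤ L.m) {N : ℕ} (hN : 1 ≤ N)
    (g : List (List ℕ) → ℝ) (hg0 : ∀ x, 0 ≤ g x) (hg1 : ∀ x, g x ≤ 1) (k : ℕ)
    {x : List (List ℕ)} (hx : x ∈ L.TT N) :
    |E (iter (samp L N) (16 * pM L.m N * k) x) g - (∑ y ∈ L.TT N, g y) / (L.TT N).card|
      ≤ (1/2) ^ k := by
  have hCpos : 0 < pC L.m N := by unfold pC; positivity
  have hMpos : 0 < pM L.m N := by unfold pM; positivity
  have hCr : (0:ℝ) < pC L.m N := by exact_mod_cast hCpos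
  have hMr : (0:ℝ) < pM L.m N := by exact_mod_cast hMpos
  have hApos : 0 < pA L.m N := by unfold pA; positivity
  have hbig : 4 * N * N * L.m * pA L.m N * pC L.m N ≤ pM L.m N := by unfold pM; omega
  refine le_trans ?_ (one_sub_pow_le hMpos k)
  apply Sys.chain_conv (L.sys_laws hC.hom) (num_holds hG hC hm hN) _ _ hN _ _ g hg0 hg1 _ hx
  · intro n _ hn
    have := pJ_spec hMpos
    exact ⟨le_trans (by omega) this.1, this.2⟩
  · unfold pM; omega
  · rw [div_le_one hMr]
    have : pC L.m N ≤ pM L.m N := by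
      refine le_trans ?_ hbig
      have h1 : 1 ≤ 4 * N * N * L.m * pA L.m N := Nat.one_le_iff_ne_zero.mpr (by positivity)
      calc pC L.m N = 1 * pC L.m N := by ring
        _ ≤ _ := Nat.mul_le_mul_right _ h1
    exact_mod_cast this
  · have e1 : (pM L.m N : ℝ) * ((pC L.m N : ℝ) / pM L.m N) = pC L.m N := by
      field_simp
    rw [e1]
    have hN' : (0:ℝ) < N := by exact_mod_cast hN
    have hE : (0:ℝ) < (pE L.m N : ℝ) + 1 := by positivity
    have e2 : (pC L.m N : ℝ) = 16 * N * ((pE L.m N : ℝ) + 1) := by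
      unfold pC; push_cast; ring
    rw [e2]
    apply le_of_eq
    field_simp
    norm_num

theorem samp_supp (hC : Compat L G) {N : ℕ} {x : List (List ℕ)} (hx : x ∈ L.TT N) {y : List (List ℕ)}
    (h : supp (samp L N x) y) : y ∈ L.TT N :=
  Sys.step_supp (L.sys_laws hC.hom) hx h

lemma iter_supp {τ : Type} [DecidableEq τ] {T : Finset τ} {P : τ → RC τ}
    (hP : ∀ x ∈ T, ∀ y, supp (P x) y → y ∈ T) (R : ℕ) :
    ∀ x ∈ T, ∀ y, supp (iter P R x) y → y ∈ T := by
  induction R with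
  | zero => intro x hx y hy; simp only [iter, supp_ret] at hy; rw [hy]; exact hx
  | succ R ih =>
    intro x hx y hy
    simp only [iter] at hy
    rw [supp_bind] at hy
    obtain ⟨z, hz, hy⟩ := hy
    exact ih z (hP x hx z hz) y hy

end Pool.Agent.LatticeTrees
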