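import Mathlib
import Pool.Agent.LatticeTrees.Params

set_option autoImplicit false
set_option linter.unusedSectionVars false
set_option linter.unusedSimpArgs false

namespace Pool.Agent.LatticeTrees

/-- a direction system from displacement vectors -/
def mkLat (m : ℕ) (alt : Bool) (d : ℕ → ℤ × ℤ) : Lat where
  m := m
  nb v i := if alt && decide ((v.1 + v.2) % 2 = 1) then v - d i else v + d i

/-- sign of a vertex -/
def sg (alt : Bool) (v : ℤ × ℤ) : ℤ := if alt && decide ((v.1 + v.2) % 2 = 1) then -1 else 1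

lemma mkLat_nb (m : ℕ) (alt : Bool) (d : ℕ → ℤ × ℤ) (v : ℤ × ℤ) (i : ℕ) :
    (mkLat m alt d).nb v i = v + sg alt v • d i := by
  unfold mkLat sg
  simp only
  split_ifs <;> simp [sub_eq_add_neg]

lemma posF_eq (m : ℕ) (alt : Bool) (d : ℕ → ℤ × ℤ)
    (hd : alt = true → ∀ i, ((d i).1 + (d i).2) % 2 = 1) (v : ℤ × ℤ) (w : List ℕ) :
    (mkLat m alt d).posF v w = v + sg alt v • (mkLat m alt d).pos w ∧
    sg alt ((mkLat m alt d).posF v w) = sg alt v * sg alt ((mkLat m alt d).pos w) := by
  have hsg : ∀ u i, alt = true → sg alt (u + sg alt u • d i) = - sg alt u := by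
    intro u i ha
    have h := hd ha i
    subst ha
    unfold sg
    simp only [Bool.true_and, decide_eq_true_eq]
    by_cases hu : (u.1 + u.2) % 2 = 1
    · simp only [hu, if_true, neg_smul, one_smul, Prod.fst_add, Prod.snd_add, Prod.fst_neg,
        Prod.snd_neg]
      rw [if_neg (by omega)]; norm_num
    · simp only [hu, if_false, one_smul, Prod.fst_add, Prod.snd_add]
      rw [if_pos (by omega)]
  have hsg0 : alt = false → ∀ u, sg alt u = 1 := by
    intro h u; simp [sg, h]
  induction w using List.reverseRecOn with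
  | nil =>
    simp only [Lat.pos, Lat.posF, List.foldl_nil]
    constructor
    · simp
    · cases alt <;> simp [sg]
  | append_singleton w i ih =>
    obtain ⟨ih1, ih2⟩ := ih
    have e1 : (mkLat m alt d).posF v (w ++ [i]) =
        (mkLat m alt d).nb ((mkLat m alt d).posF v w) i := by simp [Lat.posF]
    have e2 := (mkLat m alt d).pos_snoc w i
    rw [e1, e2, mkLat_nb, mkLat_nb, ih2]
    constructor
    · rw [ih1, smul_add, smul_smul, add_assoc]
    · cases halt : alt with
      | false =>
        subst halt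
        simp [hsg0 rfl]
      | true =>
        subst halt
        rw [← ih2, hsg _ i rfl, ih2, hsg _ i rfl]
        ring

lemma sg_ne_zero (alt : Bool) (v : ℤ × ℤ) : sg alt v ≠ 0 := by
  unfold sg; split_ifs <;> norm_num

lemma mkLat_hom (m : ℕ) (alt : Bool) (d : ℕ → ℤ × ℤ)
    (hd : alt = true → ∀ i, ((d i).1 + (d i).2) % 2 = 1) : (mkLat m alt d).Hom := by
  intro p w w'
  rw [(posF_eq m alt d hd _ w).1, (posF_eq m alt d hd _ w').1, add_right_inj]
  have h := sg_ne_zero alt ((mkLat m alt d).pos p)
  constructor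
  · intro h1
    have h2 := congrArg Prod.fst h1
    have h3 := congrArg Prod.snd h1
    simp only [Prod.smul_fst, Prod.smul_snd, smul_eq_mul] at h2 h3
    exact Prod.ext (mul_left_cancel₀ h h2) (mul_left_cancel₀ h h3)
  · intro h1; rw [h1]

/-- displacement vectors -/
def dSq : ℕ → ℤ × ℤ
  | 0 => (1, 0)
  | 1 => (0, 1)
  | 2 => (-1, 0)
  | _ => (0, -1)

def dTri : ℕ → ℤ × ℤ
  | 0 => (1, 0)
  | 1 => (0, 1)
  | 2 => (-1, 0)
  | 3 => (0, -1)
  | 4 => (-1, 1)
  | _ => (1, -1)

def dHex : ℕ → ℤ × ℤ
  | 0 => (1, 0)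
  | 1 => (-1, 0)
  | _ => (0, 1)

def latSq : Lat := mkLat 4 false dSq
def latTri : Lat := mkLat 6 false dTri
def latHex : Lat := mkLat 3 true dHex

lemma compat_sq : Compat latSq squareLattice where
  adj := by
    rintro ⟨a, b⟩ ⟨c, e⟩
    simp only [squareLattice, SimpleGraph.fromRel_adj, Prod.mk_add_mk, Prod.mk.injEq, ne_eq,
      not_and, latSq, mkLat, Bool.false_and]
    constructor
    · rintro ⟨_, (h | h) | (h | h)⟩
      · exact ⟨0, by norm_num, by simp [dSq]; omega⟩
      · exact ⟨1, by norm_num, by simp [dSq]; omega⟩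
      · exact ⟨2, by norm_num, by simp [dSq]; omega⟩
      · exact ⟨3, by norm_num, by simp [dSq]; omega⟩
    · rintro ⟨i, hi, h⟩
      interval_cases i <;> simp [dSq] at h <;> omega
  inj := by
    rintro ⟨a, b⟩ i j hi hj h
    change i < 4 at hi
    change j < 4 at hj
    simp only [latSq, mkLat, Bool.false_and] at h
    interval_cases i <;> interval_cases j <;> simp [dSq] at h ⊢
  hom := mkLat_hom _ _ _ (by simp)

lemma compat_tri : Compat latTri triangularLattice where
  adj := by
    rintro ⟨a, b⟩ ⟨c, e⟩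
    simp only [triangularLattice, SimpleGraph.fromRel_adj, Prod.mk_add_mk, Prod.mk.injEq, ne_eq,
      not_and, latTri, mkLat, Bool.false_and]
    constructor
    · rintro ⟨_, (h | h | h) | (h | h | h)⟩
      · exact ⟨0, by norm_num, by simp [dTri]; omega⟩
      · exact ⟨1, by norm_num, by simp [dTri]; omega⟩
      · exact ⟨4, by norm_num, by simp [dTri]; omega⟩
      · exact ⟨2, by norm_num, by simp [dTri]; omega⟩
      · exact ⟨3, by norm_num, by simp [dTri]; omega⟩
      · exact ⟨5, by norm_num, by simp [dTri]; omega⟩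
    · rintro ⟨i, hi, h⟩
      interval_cases i <;> simp [dTri] at h <;> omega
  inj := by
    rintro ⟨a, b⟩ i j hi hj h
    change i < 6 at hi
    change j < 6 at hj
    simp only [latTri, mkLat, Bool.false_and] at h
    interval_cases i <;> interval_cases j <;> simp [dTri] at h ⊢
  hom := mkLat_hom _ _ _ (by simp)

lemma compat_hex : Compat latHex hexagonalLattice where
  adj := by
    rintro ⟨a, b⟩ ⟨c, e⟩
    simp only [hexagonalLattice, SimpleGraph.fromRel_adj, Prod.mk_add_mk, Prod.mk.injEq, ne_eq,
      not_and, latHex, mkLat, Bool.true_and, Int.even_iff]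
    constructor
    · rintro ⟨_, (h | h) | (h | h)⟩
      · by_cases hp : (a + b) % 2 = 1
        · exact ⟨1, by norm_num, by simp [dHex, hp]; omega⟩
        · exact ⟨0, by norm_num, by simp [dHex, hp]; omega⟩
      · have hp : ¬ (a + b) % 2 = 1 := by omega
        exact ⟨2, by norm_num, by simp [dHex, hp]; omega⟩
      · by_cases hp : (a + b) % 2 = 1
        · exact ⟨0, by norm_num, by simp [dHex, hp]; omega⟩
        · exact ⟨1, by norm_num, by simp [dHex, hp]; omega⟩
      · have hp : (a + b) % 2 = 1 := by omega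
        exact ⟨2, by norm_num, by simp [dHex, hp]; omega⟩
    · rintro ⟨i, hi, h⟩
      by_cases hp : (a + b) % 2 = 1
      · interval_cases i <;> simp [dHex, hp] at h <;> omega
      · interval_cases i <;> simp [dHex, hp] at h <;> omega
  inj := by
    rintro ⟨a, b⟩ i j hi hj h
    change i < 3 at hi
    change j < 3 at hj
    simp only [latHex, mkLat, Bool.true_and] at h
    by_cases hp : (a + b) % 2 = 1
    · interval_cases i <;> interval_cases j <;> simp [dHex, hp] at h ⊢ <;> omega
    · interval_cases i <;> interval_cases j <;> simp [dHex, hp] at h ⊢ <;> omega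
  hom := mkLat_hom _ _ _ (by
    intro _ i
    match i with
    | 0 => simp [dHex]
    | 1 => simp [dHex]
    | n + 2 => simp [dHex])

lemma geo_sq : Geo squareLattice where
  right := by
    rintro ⟨a, b⟩
    simp [squareLattice, SimpleGraph.fromRel_adj]
  trans := by
    rintro ⟨x, y⟩ _ ⟨a, b⟩ ⟨c, e⟩
    simp only [squareLattice, SimpleGraph.fromRel_adj, Prod.mk_add_mk, Prod.mk.injEq, ne_eq]
    omega

lemma geo_tri : Geo triangularLattice where
  right := by
    rintro ⟨a, b⟩
    simp [triangularLattice, SimpleGraph.fromRel_adj]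
  trans := by
    rintro ⟨x, y⟩ _ ⟨a, b⟩ ⟨c, e⟩
    simp only [triangularLattice, SimpleGraph.fromRel_adj, Prod.mk_add_mk, Prod.mk.injEq, ne_eq]
    omega

lemma geo_hex : Geo hexagonalLattice where
  right := by
    rintro ⟨a, b⟩
    simp [hexagonalLattice, SimpleGraph.fromRel_adj]
  trans := by
    rintro ⟨x, y⟩ h ⟨a, b⟩ ⟨c, e⟩
    simp only [Int.even_iff] at h
    simp only [hexagonalLattice, SimpleGraph.fromRel_adj, Prod.mk_add_mk, Prod.mk.injEq, ne_eq,
      Int.even_iff]
    omega

/-! ### the initial tree -/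

/-- alternating word -/
def altW (n : ℕ) : List ℕ := (List.range n).map (fun j => j % 2)

/-- path along the alternating word -/
def x0 (n : ℕ) : List (List ℕ) := (List.range n).map altW

/-- moving in the direction given by the parity increases the coordinate sum -/
def Stair (L : Lat) : Prop := 2 ≤ L.m ∧ ∀ n : ℕ, ∀ v : ℤ × ℤ, v.1 + v.2 = n →
  (L.nb v (n % 2)).1 + (L.nb v (n % 2)).2 = n + 1

lemma stair_sq : Stair latSq := by
  refine ⟨by decide, ?_⟩
  intro n v hv
  rcases Nat.mod_two_eq_zero_or_one n with h | h <;>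
    simp [latSq, mkLat, dSq, h] <;> omega

lemma stair_tri : Stair latTri := by
  refine ⟨by decide, ?_⟩
  intro n v hv
  rcases Nat.mod_two_eq_zero_or_one n with h | h <;>
    simp [latTri, mkLat, dTri, h] <;> omega

lemma stair_hex : Stair latHex := by
  refine ⟨by decide, ?_⟩
  intro n v hv
  rcases Nat.mod_two_eq_zero_or_one n with h | h
  · have h1 : ¬ (v.1 + v.2) % 2 = 1 := by omega
    simp [latHex, mkLat, dHex, h, h1]; omega
  · have h1 : (v.1 + v.2) % 2 = 1 := by omega
    simp [latHex, mkLat, dHex, h, h1]; omega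

lemma altW_succ (n : ℕ) : altW (n+1) = altW n ++ [n % 2] := by
  simp [altW, List.range_succ]

lemma pos_altW {L : Lat} (hS : Stair L) (n : ℕ) :
    (L.pos (altW n)).1 + (L.pos (altW n)).2 = n := by
  induction n with
  | zero => simp [altW, Lat.pos, Lat.posF]
  | succ n ih =>
    rw [altW_succ, L.pos_snoc, hS.2 n _ ih]
    push_cast; ring

lemma altW_lt {i j : ℕ} (h : i < j) : altW i < altW j := by
  obtain ⟨k, rfl⟩ : ∃ k, j = i + (k + 1) := ⟨j - i - 1, by omega⟩
  have : altW (i + (k+1)) = altW i ++ ((List.range (k+1)).map (fun j => (i + j) % 2)) := by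
    unfold altW
    rw [List.range_add, List.map_append, List.map_map]
    rfl
  rw [this]
  have h2 : altW i ++ [] < altW i ++ ((List.range (k+1)).map (fun j => (i + j) % 2)) := by
    rw [append_lt_append_left, List.range_succ_eq_map]
    simp only [List.map_cons]
    exact List.nil_lt_cons _ _
  simpa using h2

lemma x0_mem {L : Lat} (hS : Stair L) {N : ℕ} (hN : 1 ≤ N) : x0 N ∈ L.TT N := by
  rw [L.mem_TT]
  refine ⟨⟨?_, ?_, ?_, ?_⟩, by simp [x0]⟩
  · unfold x0
    rw [List.pairwise_map]
    exact List.pairwise_lt_range.imp (fun h => altW_lt h)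
  · unfold x0
    rw [List.mem_map]
    exact ⟨0, by simp; omega, by simp [altW]⟩
  · intro w i h
    unfold x0 at h ⊢
    rw [List.mem_map] at h ⊢
    obtain ⟨j, hj, h⟩ := h
    rw [List.mem_range] at hj
    cases j with
    | zero => simp [altW] at h
    | succ j =>
      rw [altW_succ] at h
      have h1 := List.append_inj' h rfl
      have h2 := h1.2
      simp only [List.cons.injEq, and_true] at h2
      refine ⟨⟨j, by rw [List.mem_range]; omega, h1.1⟩, ?_⟩
      have := hS.1
      omega
  · intro w hw w' hw' h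
    unfold x0 at hw hw'
    rw [List.mem_map] at hw hw'
    obtain ⟨i, _, rfl⟩ := hw
    obtain ⟨j, _, rfl⟩ := hw'
    have h1 := pos_altW hS i
    have h2 := pos_altW hS j
    rw [h, h2] at h1
    have : j = i := by exact_mod_cast h1
    rw [this]

end Pool.Agent.LatticeTrees
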