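import Mathlib
import Pool.Agent.LatticeTrees.Algo2
import Pool.Agent.LatticeTrees.Lattices

set_option autoImplicit false
set_option linter.unusedSectionVars false
set_option linter.unusedSimpArgs false

namespace Pool.Agent.LatticeTrees

open RC Pool.Agent.PT Pool.Agent.LatticeTrees.Lat

variable {α β : Type} [Enc α] [Enc β] {L : Lat}

lemma pbddNat {f : α → ℕ} (hf : PolyTime f) : PBdd f :=
  hf.pbdd.of_le (fun x => by rw [sz_nat]; omega)

/-- size bound for a state of the process -/
def stBound (m M Em N : ℕ) : ℕ :=
  (N * M) * ((N + 1) * ((N + 1) * (2 * m + 4)) + (2 * Em + 1) + 1 + 1) + 1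

lemma sz_StB {M Em k N : ℕ} (hk : k ≤ N) {A : List (List (List ℕ) × ℕ)}
    (hA : StB L M Em k A) : sz A ≤ stBound L.m M Em N := by
  unfold stBound
  have h1 : ∀ p ∈ A, sz p ≤ (N + 1) * ((N + 1) * (2 * L.m + 4)) + (2 * Em + 1) + 1 := by
    intro p hp
    have h2 := hA.2 p hp
    have h3 := sz_WB (h2.1.mono hk)
    rw [sz_prod, sz_nat]
    omega
  refine (sz_le_of_forall h1).trans ?_
  have h4 : A.length ≤ N * M := hA.1.trans (Nat.mul_le_mul_right _ hk)
  have := Nat.mul_le_mul_right ((N + 1) * ((N + 1) * (2 * L.m + 4)) + (2 * Em + 1) + 1 + 1) h4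
  omega

theorem polyTime_proc (hL : PLat L) {M Em N : α → ℕ} {x : α → List (List ℕ)}
    {bits : α → List Bool} (hM : PolyTime M) (hEm : PolyTime Em) (hN : PolyTime N)
    (hx : PolyTime x) (hbits : PolyTime bits) :
    PolyTime (fun a => run (L.sys.proc (M a) (Em a) (fun u => decide (u ∈ L.sys.sub (x a)))
      (N a)) (bits a)) := by
  have hv : PolyTime (fun a => ((M a, Em a, x a) : Env)) := by fun_prop
  have hstep : PolyTime (fun p : α × PSt => procStep L (M p.1, Em p.1, x p.1) p.2) :=
    (polyTime_procStep hL).comp (f := fun p : α × PSt => ((M p.1, Em p.1, x p.1), p.2))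
      (PolyTime.pair (hv.comp PolyTime.fst') PolyTime.snd')
  have h := PolyTime.iterate' (f := fun a s => procStep L (M a, Em a, x a) s) (n := N)
    (g := fun a => ((0, some [], bits a) : PSt)) hstep hN
    (PolyTime.pair (PolyTime.const _) (PolyTime.pair (PolyTime.const _) hbits))
    (s := fun a => (2 * N a + 1) + ((stBound L.m (M a) (Em a) (N a) + 2) + sz (bits a) + 1) + 1)
    (by
      have h1 := pbddNat hM
      have h2 := pbddNat hEm
      have h3 := pbddNat hN
      have h4 := hbits.pbdd
      unfold stBound
      fun_prop)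
    (by
      intro a i hi
      obtain ⟨o, b, e1, e2, e3⟩ := procStep_StB (L := L) (M a, Em a, x a) i (bits a)
      have e1' : (fun s => procStep L (M a, Em a, x a) s)^[i] (0, some [], bits a) = (i, o, b) := e1
      rw [e1']
      have e4 := sz_le_of_sublist e2
      have e5 : sz o ≤ stBound L.m (M a) (Em a) (N a) + 2 := by
        cases o with
        | none => simp
        | some A =>
          have := sz_StB (N := N a) (by omega) (e3 A rfl)
          rw [sz_some]
          exact Nat.add_le_add_right this 2
      rw [sz_prod, sz_prod, sz_nat]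
      simp only
      omega)
  refine (PolyTime.snd h).congr ?_
  intro a
  have := run_proc (L := L) (M a) (Em a) (x a) (N a) (bits a)
  have e : (fun s => procStep L (M a, Em a, x a) s)^[N a] (0, some [], bits a)
    = (procStep L (M a, Em a, x a))^[N a] (0, some [], bits a) := rfl
  rw [e, this]

/-! ### one step of the chain -/

theorem polyTime_samp (hL : PLat L) {N : α → ℕ} {x : α → List (List ℕ)}
    {bits : α → List Bool} (hN : PolyTime N) (hx : PolyTime x) (hbits : PolyTime bits) :
    PolyTime (fun a => run (samp L (N a) (x a)) (bits a)) := by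
  have hA : PolyTime (fun a => pA L.m (N a)) := by unfold pA; fun_prop
  have hE : PolyTime (fun a => pE L.m (N a)) := by unfold pE; fun_prop
  have hC : PolyTime (fun a => pC L.m (N a)) := by unfold pC; fun_prop
  have hM : PolyTime (fun a => pM L.m (N a)) := by unfold pM; fun_prop
  have hJ : PolyTime (fun a => pJ (pM L.m (N a))) := by unfold pJ; fun_prop
  have hp := polyTime_proc hL hM hE hN hx hbits
  have h := PolyTime.optionCases
    (o := fun a => (run (L.sys.proc (pM L.m (N a)) (pE L.m (N a))
      (fun u => decide (u ∈ L.sys.sub (x a))) (N a)) (bits a)).1)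
    (f := fun a => (x a, (run (L.sys.proc (pM L.m (N a)) (pE L.m (N a))
      (fun u => decide (u ∈ L.sys.sub (x a))) (N a)) (bits a)).2))
    (g := fun a A => (pick (x a) (run (select (pJ (pM L.m (N a)))
        ((Sys.keys A).filter (fun u => decide (L.sys.size u = N a))))
        (run (L.sys.proc (pM L.m (N a)) (pE L.m (N a))
          (fun u => decide (u ∈ L.sys.sub (x a))) (N a)) (bits a)).2).1,
      (run (select (pJ (pM L.m (N a)))
        ((Sys.keys A).filter (fun u => decide (L.sys.size u = N a))))
        (run (L.sys.proc (pM L.m (N a)) (pE L.m (N a))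
          (fun u => decide (u ∈ L.sys.sub (x a))) (N a)) (bits a)).2).2))
    (PolyTime.fst hp) (PolyTime.pair hx (PolyTime.snd hp)) (by
      have hfil : PolyTime (fun q : α × List (List (List ℕ) × ℕ) =>
          (Sys.keys q.2).filter (fun u => decide (L.sys.size u = N q.1))) := by
        unfold Sys.keys
        have h1 : PolyTime (fun q : α × List (List (List ℕ) × ℕ) => q.2.map Prod.fst) :=
          PolyTime.map PolyTime.snd' (g := fun _ (q : List (List ℕ) × ℕ) => q.1)
            (PolyTime.fst PolyTime.snd')
        refine PolyTime.filter h1 (g := fun q u => decide (u.length = N q.1)) ?_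
        have h2 : PolyTime (fun p : (α × List (List (List ℕ) × ℕ)) × List (List ℕ) => N p.1.1) :=
          hN.comp (f := fun p : (α × List (List (List ℕ) × ℕ)) × List (List ℕ) => p.1.1)
            (by fun_prop)
        fun_prop
      have hb : PolyTime (fun q : α × List (List (List ℕ) × ℕ) =>
          (run (L.sys.proc (pM L.m (N q.1)) (pE L.m (N q.1))
          (fun u => decide (u ∈ L.sys.sub (x q.1))) (N q.1)) (bits q.1)).2) :=
        (PolyTime.snd hp).comp PolyTime.fst'
      have hs := polyTime_select (hJ.comp PolyTime.fst') hfil hb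
      exact PolyTime.pair (polyTime_pick (hx.comp PolyTime.fst') (PolyTime.fst hs))
        (PolyTime.snd hs))
  refine h.congr ?_
  intro a
  unfold samp Sys.step
  rw [run_bind]
  generalize run (L.sys.proc (pM L.m (N a)) (pE L.m (N a))
      (fun u => decide (u ∈ L.sys.sub (x a))) (N a)) (bits a) = s
  obtain ⟨o, b⟩ := s
  cases o with
  | none => rfl
  | some A =>
    simp only [Option.elim_some]
    rw [run_bind]
    rfl

/-! ### iteration -/

/-- one step of the chain on pairs -/
noncomputable def chainStep (L : Lat) (N : ℕ) (s : List (List ℕ) × List Bool) :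
    List (List ℕ) × List Bool := run (samp L N s.1) s.2

lemma run_iter (N R : ℕ) (x : List (List ℕ)) (bits : List Bool) :
    run (iter (samp L N) R x) bits = (chainStep L N)^[R] (x, bits) := by
  induction R generalizing x bits with
  | zero => rfl
  | succ R ih =>
    rw [Function.iterate_succ_apply]
    simp only [iter, run_bind, ih]
    rfl

lemma run_bits_sublist {γ : Type} (c : RC γ) (bits : List Bool) :
    (run c bits).2.Sublist bits := by
  induction c generalizing bits with
  | ret a => exact List.Sublist.refl _
  | flip f ih => exact (ih _ _).trans (List.tail_sublist _)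

lemma WB_of_mem {N : ℕ} {x : List (List ℕ)} (hx : x ∈ L.TT N) : WB L N x := by
  rw [L.mem_TT] at hx
  refine ⟨hx.2.le, fun w hw => ⟨?_, fun i hi => hx.1.letters hw hi⟩⟩
  have := hx.1.length_word hw
  omega

lemma chain_mem (hC : L.Hom) {N : ℕ} {x : List (List ℕ)} (hx : x ∈ L.TT N)
    (bits : List Bool) (i : ℕ) :
    ((chainStep L N)^[i] (x, bits)).1 ∈ L.TT N ∧
      ((chainStep L N)^[i] (x, bits)).2.Sublist bits := by
  induction i with
  | zero => exact ⟨hx, List.Sublist.refl _⟩
  | succ i ih =>
    rw [Function.iterate_succ_apply']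
    refine ⟨?_, (run_bits_sublist _ _).trans ih.2⟩
    exact Sys.step_supp (L.sys_laws hC) ih.1 (run_supp _ _)

lemma x0_zero : x0 0 = [] := rfl

theorem polyTime_x0 {N : α → ℕ} (hN : PolyTime N) : PolyTime (fun a => x0 (N a)) := by
  unfold x0
  refine PolyTime.map (l := fun a => List.range (N a)) (by fun_prop) (g := fun _ n => altW n) ?_
  unfold altW
  exact PolyTime.map (l := fun p : α × ℕ => List.range p.2) (by fun_prop)
    (g := fun _ j => j % 2) (by fun_prop)

/-- the tree produced by the sampler -/
noncomputable def out (L : Lat) (N k : ℕ) (r : List Bool) : List (List ℕ) :=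
  (run (iter (samp L N) (16 * pM L.m N * k) (x0 N)) r).1

theorem polyTime_out (hL : PLat L) (hC : L.Hom) (hS : Stair L) {N k : α → ℕ}
    {r : α → List Bool} (hN : PolyTime N) (hk : PolyTime k) (hr : PolyTime r) :
    PolyTime (fun a => out L (N a) (k a) (r a)) := by
  have hstep : PolyTime (fun p : α × (List (List ℕ) × List Bool) => chainStep L (N p.1) p.2) := by
    unfold chainStep
    exact polyTime_samp hL (hN.comp PolyTime.fst') (PolyTime.fst PolyTime.snd')
      (PolyTime.snd PolyTime.snd')
  have hM : PolyTime (fun a => pM L.m (N a)) := by unfold pM pA pC pE; fun_prop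
  have h := PolyTime.iterate' (f := fun a s => chainStep L (N a) s)
    (n := fun a => 16 * pM L.m (N a) * k a) (g := fun a => (x0 (N a), r a)) hstep
    (by fun_prop) (PolyTime.pair (polyTime_x0 hN) hr)
    (s := fun a => (N a + 1) * ((N a + 1) * (2 * L.m + 4)) + sz (r a) + 1)
    (by
      have h3 := pbddNat hN
      have h4 := hr.pbdd
      fun_prop)
    (by
      intro a i hi
      rcases Nat.eq_zero_or_pos (N a) with h0 | h0
      · exfalso
        rw [h0] at hi
        simp [pM] at hi
      · obtain ⟨g1, g2⟩ := chain_mem hC (x0_mem hS h0) (r a) i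
        have g3 := sz_WB (WB_of_mem g1)
        have g4 := sz_le_of_sublist g2
        have e : (fun s => chainStep L (N a) s)^[i] (x0 (N a), r a) =
          (chainStep L (N a))^[i] (x0 (N a), r a) := rfl
        rw [e, sz_prod]
        omega)
  refine (PolyTime.fst h).congr ?_
  intro a
  unfold out
  rw [run_iter]

end Pool.Agent.LatticeTrees
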