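import Mathlib
import Pool.Agent.LatticeTrees.Algo3
import Pool.Agent.PT.Bridge

set_option autoImplicit false
set_option linter.unusedSectionVars false
set_option linter.unusedSimpArgs false

namespace Pool.Agent.LatticeTrees

open RC Pool.Agent.PT Pool.Agent.LatticeTrees.Lat

/-! ### neighbour functions are polynomial time -/

lemma sz_int (a : ℤ) : sz a = 2 * a.natAbs + 3 := by
  have h : ∀ s : ℕ ⊕ ℕ, sz s = (match s with
    | .inl n => 2 * n + 3
    | .inr n => 2 * n + 5) := by
    intro s
    cases s with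
    | inl n =>
      have : sz (Sum.inl n : ℕ ⊕ ℕ) = sz n + 2 := by
        simp [sz, code, toD_inl]
      rw [this, sz_nat]
    | inr n =>
      have : sz (Sum.inr n : ℕ ⊕ ℕ) = sz n + 4 := by
        simp [sz, code, toD_inr]
      rw [this, sz_nat]
  have e : sz a = sz (PT.intSum a) := rfl
  rw [e, h]
  cases a with
  | ofNat n => simp [PT.intSum]
  | negSucc n => simp [PT.intSum, Int.natAbs_negSucc]; omega

theorem plat_mk (m : ℕ) (alt : Bool) (d : ℕ → ℤ × ℤ) (hd : PolyTime d)
    (hb : ∃ B, ∀ i, (d i).1.natAbs ≤ B ∧ (d i).2.natAbs ≤ B) : PLat (mkLat m alt d) where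
  nb := by
    have h1 : PolyTime (fun p : (ℤ × ℤ) × ℕ => sg alt p.1) := by
      unfold sg
      refine (PolyTime.ite (P := fun p : (ℤ × ℤ) × ℕ => alt = true ∧
        (p.1.1 + p.1.2).natAbs % 2 = 1) (f := fun _ => (-1 : ℤ)) (g := fun _ => (1:ℤ))
        (PolyTime.decide_and (PolyTime.const _) (by fun_prop)) (by fun_prop)
        (by fun_prop)).congr ?_
      intro p
      have : (p.1.1 + p.1.2) % 2 = 1 ↔ (p.1.1 + p.1.2).natAbs % 2 = 1 := by omega
      simp only [Bool.and_eq_true, decide_eq_true_eq, this]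
    have h2 : PolyTime (fun p : (ℤ × ℤ) × ℕ => d p.2) := hd.comp PolyTime.snd'
    refine (PolyTime.pair (f := fun p : (ℤ × ℤ) × ℕ => p.1.1 + sg alt p.1 * (d p.2).1)
      (g := fun p => p.1.2 + sg alt p.1 * (d p.2).2) (by fun_prop) (by fun_prop)).congr ?_
    intro p
    rw [mkLat_nb]
    rfl
  grow := by
    obtain ⟨B, hB⟩ := hb
    refine ⟨4 * B, ?_⟩
    intro v i
    have h1 := (hB i).1
    have h2 := (hB i).2
    rw [sz_prod, sz_prod, sz_int, sz_int, sz_int, sz_int]
    unfold mkLat
    simp only
    split_ifs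
    · simp only [Prod.fst_sub, Prod.snd_sub]
      omega
    · simp only [Prod.fst_add, Prod.snd_add]
      omega

lemma plat_sq : PLat latSq := by
  apply plat_mk
  · refine (PolyTime.ite (P := fun i : ℕ => i = 0) (f := fun _ => ((1:ℤ), (0:ℤ)))
      (g := fun i => if i = 1 then ((0:ℤ), (1:ℤ)) else if i = 2 then ((-1:ℤ), (0:ℤ)) else
        ((0:ℤ), (-1:ℤ))) (by fun_prop) (by fun_prop)
      (PolyTime.ite (by fun_prop) (by fun_prop) (PolyTime.ite (by fun_prop) (by fun_prop)
        (by fun_prop)))).congr ?_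
    intro i
    match i with
    | 0 => rfl
    | 1 => rfl
    | 2 => rfl
    | n + 3 => simp [dSq]
  · refine ⟨1, ?_⟩
    intro i
    match i with
    | 0 => simp [dSq]
    | 1 => simp [dSq]
    | 2 => simp [dSq]
    | n + 3 => simp [dSq]

lemma plat_tri : PLat latTri := by
  apply plat_mk
  · refine (PolyTime.ite (P := fun i : ℕ => i = 0) (f := fun _ => ((1:ℤ), (0:ℤ)))
      (g := fun i => if i = 1 then ((0:ℤ), (1:ℤ)) else if i = 2 then ((-1:ℤ), (0:ℤ)) else
        if i = 3 then ((0:ℤ), (-1:ℤ)) else if i = 4 then ((-1:ℤ), (1:ℤ)) else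
        ((1:ℤ), (-1:ℤ))) (by fun_prop) (by fun_prop)
      (PolyTime.ite (by fun_prop) (by fun_prop) (PolyTime.ite (by fun_prop) (by fun_prop)
        (PolyTime.ite (by fun_prop) (by fun_prop) (PolyTime.ite (by fun_prop) (by fun_prop)
        (by fun_prop)))))).congr ?_
    intro i
    match i with
    | 0 => rfl
    | 1 => rfl
    | 2 => rfl
    | 3 => rfl
    | 4 => rfl
    | n + 5 => simp [dTri]
  · refine ⟨1, ?_⟩
    intro i
    match i with
    | 0 => simp [dTri]
    | 1 => simp [dTri]
    | 2 => simp [dTri]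
    | 3 => simp [dTri]
    | 4 => simp [dTri]
    | n + 5 => simp [dTri]

lemma plat_hex : PLat latHex := by
  apply plat_mk
  · refine (PolyTime.ite (P := fun i : ℕ => i = 0) (f := fun _ => ((1:ℤ), (0:ℤ)))
      (g := fun i => if i = 1 then ((-1:ℤ), (0:ℤ)) else ((0:ℤ), (1:ℤ))) (by fun_prop) (by fun_prop)
      (PolyTime.ite (by fun_prop) (by fun_prop) (by fun_prop))).congr ?_
    intro i
    match i with
    | 0 => rfl
    | 1 => rfl
    | n + 2 => simp [dHex]
  · refine ⟨1, ?_⟩
    intro i
    match i with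
    | 0 => simp [dHex]
    | 1 => simp [dHex]
    | n + 2 => simp [dHex]

/-! ### number of coins -/

variable {L : Lat} {G : SimpleGraph (ℤ × ℤ)}

lemma proc_len {M Em : ℕ} {F : List (List ℕ) → Bool} {k : ℕ} {A : List (List (List ℕ) × ℕ)}
    (h : supp (L.sys.proc M Em F k) (some A)) : A.length ≤ k * M := by
  induction k generalizing A with
  | zero =>
    simp only [Sys.proc, supp_ret, Option.some.injEq] at h
    subst h; simp
  | succ k ih =>
    simp only [Sys.proc] at h
    rw [supp_bind] at h
    obtain ⟨o, ho, h⟩ := h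
    cases o with
    | none => simp at h
    | some B =>
      simp only [Option.elim_some] at h
      rw [supp_bind] at h
      obtain ⟨p, hp, h⟩ := h
      cases p with
      | none => simp at h
      | some p =>
        obtain ⟨e, K⟩ := p
        simp only [Option.elim_some, supp_ret, Option.some.injEq] at h
        subst h
        have h1 := ih ho
        obtain ⟨_, _, _, _, h2, _⟩ := loop_supp hp
        have h3 : (L.sys.upd B (e, K)).length = K.length := by simp [Sys.upd]
        rw [List.length_append, h3, Nat.add_mul]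
        omega

lemma cand_length (A : List (List (List ℕ))) (k : ℕ) :
    (L.cand A k).length ≤ (A.length + 1) ^ L.m := by
  unfold cand
  refine (List.length_filter_le _ _).trans ?_
  rw [List.length_map, length_prods]
  simp

lemma proc_depth (M Em : ℕ) (F : List (List ℕ) → Bool) (N : ℕ) :
    ∀ k, k ≤ N → depthLE (L.sys.proc M Em F k) (k * (Em * (N * M + 1) ^ L.m)) := by
  intro k
  induction k with
  | zero => intro _; trivial
  | succ k ih =>
    intro hk
    simp only [Sys.proc]
    have h1 := ih (by omega)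
    rw [Nat.add_mul, one_mul]
    apply depthLE_bind h1
    intro o ho
    cases o with
    | none => trivial
    | some A =>
      simp only [Option.elim_some]
      have h2 := proc_len ho
      have h3 := loop_depth M F (L.sys.cost A) Em 0 (L.sys.cand (A.map Prod.fst) (k+1))
      have h4 : (L.sys.cand (A.map Prod.fst) (k+1)).length ≤ (N * M + 1) ^ L.m := by
        refine (cand_length (L := L) _ _).trans ?_
        apply Nat.pow_le_pow_left
        rw [List.length_map]
        have : k * M ≤ N * M := Nat.mul_le_mul_right _ (by omega)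
        omega
      have h5 := depthLE_bind (f := fun r : Option (ℕ × List (List (List ℕ))) =>
        RC.ret (r.elim none (fun p => some (A ++ L.sys.upd A p)))) (m := 0) h3
        (fun _ _ => trivial)
      refine depthLE_mono h5 ?_
      rw [Nat.add_zero]
      exact Nat.mul_le_mul_left _ h4

/-- number of coins for one step of the chain -/
def coins (m N : ℕ) : ℕ :=
  N * (pE m N * (N * pM m N + 1) ^ m) + (2 * pM m N) * (N * pM m N)

lemma samp_depth (N : ℕ) (x : List (List ℕ)) : depthLE (samp L N x) (coins L.m N) := by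
  unfold samp Sys.step coins
  apply depthLE_bind (proc_depth _ _ _ N N le_rfl)
  intro o ho
  cases o with
  | none => trivial
  | some A =>
    simp only [Option.elim_some]
    have h1 := proc_len ho
    have h2 := select_depth (pJ (pM L.m N))
      ((Sys.keys A).filter (fun u => decide (L.sys.size u = N)))
    have h3 := depthLE_bind (f := fun l => RC.ret (pick x l)) (m := 0) h2 (fun _ _ => trivial)
    refine depthLE_mono h3 ?_
    rw [Nat.add_zero]
    apply Nat.mul_le_mul
    · unfold pJ
      rw [Nat.size_le]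
      exact Nat.lt_two_pow_self
    · refine (List.length_filter_le _ _).trans ?_
      simpa [Sys.keys] using h1

lemma iter_depth {τ : Type} [DecidableEq τ] {P : τ → RC τ} {D : ℕ} (hP : ∀ x, depthLE (P x) D)
    (R : ℕ) (x : τ) : depthLE (iter P R x) (R * D) := by
  induction R generalizing x with
  | zero => trivial
  | succ R ih =>
    simp only [iter]
    have := depthLE_bind (f := iter P R) (m := R * D) (hP x) (fun a _ => ih a)
    refine depthLE_mono this ?_
    rw [Nat.add_mul]; omega

/-- number of coins needed in total -/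
def Q0 (m n k : ℕ) : ℕ := 16 * pM m n * k * coins m n

lemma pA_mono (m : ℕ) : Monotone (pA m) := by
  intro a b h; unfold pA; gcongr

lemma pE_mono (m : ℕ) : Monotone (pE m) := by
  intro a b h; unfold pE; gcongr

lemma pC_mono (m : ℕ) : Monotone (pC m) := by
  intro a b h; unfold pC; gcongr; exact pE_mono m h

lemma pM_mono (m : ℕ) : Monotone (pM m) := by
  intro a b h; unfold pM; gcongr; exact pA_mono m h; exact pC_mono m h

lemma coins_mono (m : ℕ) : Monotone (coins m) := by
  intro a b h
  have h1 := pE_mono m h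
  have h2 := pM_mono m h
  unfold coins
  gcongr

lemma exists_poly (m : ℕ) : ∃ p : Polynomial ℕ, ∀ n k, Q0 m n k ≤ p.eval (n + k) := by
  obtain ⟨P, hP⟩ : PBdd (fun n : ℕ => Q0 m (sz n) (sz n)) := by
    unfold Q0 coins pM pC pE pA
    fun_prop
  refine ⟨P.comp (2 * Polynomial.X + 1), ?_⟩
  intro n k
  have h1 : Q0 m n k ≤ Q0 m (sz (n + k)) (sz (n + k)) := by
    have h0 : n ≤ sz (n + k) := by rw [sz_nat]; omega
    have h0' : k ≤ sz (n + k) := by rw [sz_nat]; omega
    have h2 := pM_mono m h0
    have h3 := coins_mono m h0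
    unfold Q0
    gcongr
  refine h1.trans ((hP (n + k)).trans ?_)
  rw [Polynomial.eval_comp, sz_nat]
  simp

/-! ### decoding -/

/-- edge list of a word tree -/
def edges (L : Lat) (t : List (List ℕ)) : List ((ℤ × ℤ) × (ℤ × ℤ)) :=
  (t.filter (fun w => decide (w ≠ []))).map (fun w => (L.pos (w.take (w.length - 1)), L.pos w))

lemma mem_edges {t : List (List ℕ)} {e : (ℤ × ℤ) × (ℤ × ℤ)} :
    e ∈ edges L t ↔ ∃ w i, w ++ [i] ∈ t ∧ e = (L.pos w, L.pos (w ++ [i])) := by
  unfold edges
  rw [List.mem_map]
  constructor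
  · rintro ⟨w, hw, rfl⟩
    rw [List.mem_filter] at hw
    simp only [decide_eq_true_eq] at hw
    obtain ⟨a, i, rfl⟩ : ∃ a i, w = a ++ [i] :=
      ⟨w.dropLast, w.getLast hw.2, (List.dropLast_append_getLast hw.2).symm⟩
    exact ⟨a, i, hw.1, by simp⟩
  · rintro ⟨w, i, h, rfl⟩
    exact ⟨w ++ [i], by rw [List.mem_filter]; exact ⟨h, by simp⟩, by simp⟩

lemma ofEdges_edges {t : List (List ℕ)} (ht : L.IsT t) :
    ofEdges G (edges L t) = toSub L G t := by
  apply SimpleGraph.Subgraph.ext
  · ext v
    show (v = (0, 0) ∨ ∃ e ∈ edges L t, v = e.1 ∨ v = e.2) ↔ ∃ w ∈ t, L.pos w = v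
    constructor
    · rintro (rfl | ⟨e, he, h⟩)
      · exact ⟨[], ht.nil_mem, rfl⟩
      · rw [mem_edges] at he
        obtain ⟨w, i, hw, rfl⟩ := he
        rcases h with rfl | rfl
        · exact ⟨w, (ht.closed _ _ hw).1, rfl⟩
        · exact ⟨w ++ [i], hw, rfl⟩
    · rintro ⟨w, hw, rfl⟩
      by_cases h0 : w = []
      · left; rw [h0]; rfl
      · right
        obtain ⟨a, i, rfl⟩ : ∃ a i, w = a ++ [i] :=
          ⟨w.dropLast, w.getLast h0, (List.dropLast_append_getLast h0).symm⟩
        exact ⟨_, mem_edges.mpr ⟨a, i, hw, rfl⟩, Or.inr rfl⟩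
  · ext u v
    show (G.Adj u v ∧ ((u, v) ∈ edges L t ∨ (v, u) ∈ edges L t)) ↔ (G.Adj u v ∧ ∃ w i, w ∈ t ∧
      w ++ [i] ∈ t ∧ ((L.pos w = u ∧ L.pos (w ++ [i]) = v) ∨
        (L.pos w = v ∧ L.pos (w ++ [i]) = u)))
    rw [mem_edges, mem_edges]
    constructor
    · rintro ⟨h0, ⟨w, i, hw, h⟩ | ⟨w, i, hw, h⟩⟩
      · simp only [Prod.mk.injEq] at h
        exact ⟨h0, w, i, (ht.closed _ _ hw).1, hw, Or.inl ⟨h.1.symm, h.2.symm⟩⟩
      · simp only [Prod.mk.injEq] at h
        exact ⟨h0, w, i, (ht.closed _ _ hw).1, hw, Or.inr ⟨h.1.symm, h.2.symm⟩⟩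
    · rintro ⟨h0, w, i, _, hw, ⟨rfl, rfl⟩ | ⟨rfl, rfl⟩⟩
      · exact ⟨h0, Or.inl ⟨w, i, hw, rfl⟩⟩
      · exact ⟨h0, Or.inr ⟨w, i, hw, rfl⟩⟩

/-! ### codes -/

lemma replicate_cancel {m n : ℕ} {a b : List Bool}
    (h : List.replicate m true ++ false :: a = List.replicate n true ++ false :: b) :
    m = n ∧ a = b := by
  induction m generalizing n with
  | zero =>
    cases n with
    | zero => simpa using h
    | succ n => simp [List.replicate_succ] at h
  | succ m ih =>
    cases n with
    | zero => simp [List.replicate_succ] at h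
    | succ n =>
      simp only [List.replicate_succ, List.cons_append, List.cons.injEq, true_and] at h
      have := ih h
      exact ⟨by omega, this.2⟩

lemma encIn_injective : Function.Injective encIn := by
  rintro ⟨n, k, r⟩ ⟨n', k', r'⟩ h
  unfold encIn at h
  obtain ⟨h1, h2⟩ := replicate_cancel h
  obtain ⟨h3, h4⟩ := replicate_cancel h2
  simp only at h1 h3 h4
  rw [h1, h3, h4]

lemma encZ_cancel {y z : ℤ} {a b : List Bool} (h : encZ y ++ a = encZ z ++ b) :
    y = z ∧ a = b := by
  unfold encZ at h
  simp only [List.cons_append, List.append_assoc, List.cons.injEq, List.nil_append] at h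
  obtain ⟨h1, h2⟩ := h
  obtain ⟨h3, h4⟩ := replicate_cancel h2
  refine ⟨?_, h4⟩
  simp only [decide_eq_decide] at h1
  omega

lemma encOut_injective : Function.Injective encOut := by
  intro l
  induction l with
  | nil =>
    intro l' h
    cases l' with
    | nil => rfl
    | cons e l' => simp [encOut, encE, encZ] at h
  | cons e l ih =>
    intro l' h
    cases l' with
    | nil => simp [encOut, encE, encZ] at h
    | cons e' l' =>
      have h' : encZ e.1.1 ++ (encZ e.1.2 ++ (encZ e.2.1 ++ (encZ e.2.2 ++ encOut l))) =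
        encZ e'.1.1 ++ (encZ e'.1.2 ++ (encZ e'.2.1 ++ (encZ e'.2.2 ++ encOut l'))) := by
        simpa [encOut, encE] using h
      obtain ⟨a1, h'⟩ := encZ_cancel h'
      obtain ⟨a2, h'⟩ := encZ_cancel h'
      obtain ⟨a3, h'⟩ := encZ_cancel h'
      obtain ⟨a4, h'⟩ := encZ_cancel h'
      have := ih h'
      rw [this]
      obtain ⟨⟨_, _⟩, ⟨_, _⟩⟩ := e
      obtain ⟨⟨_, _⟩, ⟨_, _⟩⟩ := e'
      simp only at a1 a2 a3 a4
      rw [a1, a2, a3, a4]

/-- counting the leading ones -/
def leadStep (s : Bool × ℕ) (b : Bool) : Bool × ℕ :=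
  (s.1 && b, bif s.1 && b then s.2 + 1 else s.2)

def lead (l : List Bool) : ℕ := (l.foldl leadStep (true, 0)).2

lemma lead_false (l : List Bool) (c : ℕ) : l.foldl leadStep (false, c) = (false, c) := by
  induction l with
  | nil => rfl
  | cons b l ih => simpa [leadStep] using ih

lemma lead_true (n c : ℕ) (l : List Bool) :
    (List.replicate n true ++ false :: l).foldl leadStep (true, c) = (false, c + n) := by
  induction n generalizing c with
  | zero =>
    simp only [List.replicate_zero, List.nil_append, List.foldl_cons]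
    exact lead_false l c
  | succ n ih =>
    simp only [List.replicate_succ, List.cons_append, List.foldl_cons]
    have : leadStep (true, c) true = (true, c + 1) := rfl
    rw [this, ih]
    congr 1; omega

lemma lead_eq (n : ℕ) (l : List Bool) : lead (List.replicate n true ++ false :: l) = n := by
  unfold lead
  rw [lead_true]; simp

variable {α : Type} [Enc α]

theorem polyTime_lead {l : α → List Bool} (hl : PolyTime l) : PolyTime (fun x => lead (l x)) := by
  unfold lead
  refine PolyTime.snd ?_
  refine PolyTime.foldl_add hl (g := fun _ s b => leadStep s b) (y := fun _ => (true, 0)) ?_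
    (by fun_prop) (s := fun _ => 5) (by fun_prop) ?_
  · unfold leadStep
    refine PolyTime.pair (by fun_prop) ?_
    exact PolyTime.cond (by fun_prop) (by fun_prop) (by fun_prop)
  · intro x b _ c
    unfold leadStep
    have h1 := sz_bool (c.1 && b)
    have h2 := sz_pos c.1
    have h3 : sz false = 1 := rfl
    have h4 : sz true = 3 := rfl
    rw [sz_prod, sz_prod, sz_nat, sz_nat]
    cases (c.1 && b) <;> simp only [cond_true, cond_false, h3, h4] at * <;> omega

/-- the function computed by the machine -/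
noncomputable def theF (L : Lat) (x : ℕ × ℕ × List Bool) : List ((ℤ × ℤ) × (ℤ × ℤ)) :=
  edges L (out L x.1 x.2.1 x.2.2)

/-- the function on bit strings -/
noncomputable def theG (L : Lat) (l : List Bool) : List Bool :=
  encOut (theF L (lead l, lead (l.drop (lead l + 1)),
    (l.drop (lead l + 1)).drop (lead (l.drop (lead l + 1)) + 1)))

lemma theG_spec (L : Lat) (x : ℕ × ℕ × List Bool) : theG L (encIn x) = encOut (theF L x) := by
  obtain ⟨n, k, r⟩ := x
  unfold theG encIn
  simp only
  rw [lead_eq]
  have h1 : (List.replicate n true ++ false :: (List.replicate k true ++ false :: r)).drop (n + 1)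
      = List.replicate k true ++ false :: r := by
    rw [List.drop_append]
    simp
  rw [h1, lead_eq]
  have h2 : (List.replicate k true ++ false :: r).drop (k + 1) = r := by
    rw [List.drop_append]
    simp
  rw [h2]

theorem polyTime_edges (hL : PLat L) {t : α → List (List ℕ)} (ht : PolyTime t) :
    PolyTime (fun x => edges L (t x)) := by
  unfold edges
  have h1 : PolyTime (fun x => (t x).filter (fun w => decide (w ≠ []))) := by
    refine PolyTime.filter ht (g := fun _ w => decide (w ≠ [])) ?_
    exact PolyTime.decide_not (by fun_prop)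
  refine PolyTime.map h1 (g := fun _ w => (L.pos (w.take (w.length - 1)), L.pos w)) ?_
  exact PolyTime.pair (polyTime_pos hL (by fun_prop)) (polyTime_pos hL (by fun_prop))

theorem polyTime_encZ {z : α → ℤ} (hz : PolyTime z) : PolyTime (fun x => encZ (z x)) := by
  unfold encZ
  fun_prop

theorem polyTime_encE : PolyTime (fun e : (ℤ × ℤ) × (ℤ × ℤ) => encE e) := by
  unfold encE
  have h1 : PolyTime (fun p : (ℤ × ℤ) × (ℤ × ℤ) => encZ p.1.1) :=
    polyTime_encZ (by fun_prop)
  have h2 : PolyTime (fun p : (ℤ × ℤ) × (ℤ × ℤ) => encZ p.1.2) :=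
    polyTime_encZ (by fun_prop)
  have h3 : PolyTime (fun p : (ℤ × ℤ) × (ℤ × ℤ) => encZ p.2.1) :=
    polyTime_encZ (by fun_prop)
  have h4 : PolyTime (fun p : (ℤ × ℤ) × (ℤ × ℤ) => encZ p.2.2) :=
    polyTime_encZ (by fun_prop)
  exact PolyTime.append (PolyTime.append (PolyTime.append h1 h2) h3) h4

theorem polyTime_encOut {l : α → List ((ℤ × ℤ) × (ℤ × ℤ))} (hl : PolyTime l) :
    PolyTime (fun x => encOut (l x)) := by
  unfold encOut
  exact PolyTime.flatMap hl (g := fun (_ : α) (e : (ℤ × ℤ) × (ℤ × ℤ)) => encE e)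
    (polyTime_encE.comp PolyTime.snd')

theorem polyTime_theG (hL : PLat L) (hC : L.Hom) (hS : Stair L) : PolyTime (theG L) := by
  unfold theG theF
  have h1 : PolyTime (fun l : List Bool => lead l) := polyTime_lead PolyTime.id
  have h2 : PolyTime (fun l : List Bool => l.drop (lead l + 1)) := by fun_prop
  have h3 : PolyTime (fun l : List Bool => lead (l.drop (lead l + 1))) := polyTime_lead h2
  have h4 : PolyTime (fun l : List Bool =>
    (l.drop (lead l + 1)).drop (lead (l.drop (lead l + 1)) + 1)) := by fun_prop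
  have h5 : PolyTime (fun l : List Bool => out L (lead l) (lead (l.drop (lead l + 1)))
      ((l.drop (lead l + 1)).drop (lead (l.drop (lead l + 1)) + 1))) :=
    polyTime_out hL hC hS h1 h3 h4
  have h6 := polyTime_edges hL h5
  dsimp only
  exact polyTime_encOut h6

theorem theF_tm (hL : PLat L) (hC : L.Hom) (hS : Stair L) :
    Nonempty (Turing.TM2ComputableInPolyTime encIn encOut (theF L)) :=
  PolyTime.tm2_string (polyTime_theG hL hC hS) encIn encOut (theF L) (theG_spec L)

/-! ### the law of the output -/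

theorem out_mem (hC : L.Hom) (hS : Stair L) {n : ℕ} (hn : 1 ≤ n) (k : ℕ) (r : List Bool) :
    out L n k r ∈ L.TT n := by
  unfold out
  rw [run_iter]
  exact (chain_mem hC (x0_mem hS hn) r _).1

open Classical in
theorem law (hG : Geo G) (hC : Compat L G) (hS : Stair L) {n : ℕ} (hn : 1 ≤ n) (k : ℕ)
    {Q : ℕ} (hQ : Q0 L.m n k ≤ Q) (S : Set G.Subgraph) (hSub : S ⊆ latticeTrees G n) :
    |(({r : Fin Q → Bool | ofEdges G (theF L (n, k, List.ofFn r)) ∈ S}.ncard : ℝ)) / 2 ^ Q -
      (S.ncard : ℝ) / (latticeTrees G n).ncard| ≤ (1/2) ^ k := by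
  have hm : 1 ≤ L.m := by have := hS.1; omega
  set g : List (List ℕ) → ℝ := fun t => if toSub L G t ∈ S then 1 else 0 with hg
  have h1 := samp_conv hG hC hm hn g (fun x => by simp only [hg]; split_ifs <;> norm_num)
    (fun x => by simp only [hg]; split_ifs <;> norm_num) k (x0_mem hS hn)
  have h2 : (∑ y ∈ L.TT n, g y) = S.ncard := by
    have e1 : S = toSub L G '' ((L.TT n).filter (fun t => toSub L G t ∈ S) :
        Finset (List (List ℕ))) := by
      ext H
      constructor
      · intro hH
        have := hSub hH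
        rw [trees_eq_image hC hn] at this
        obtain ⟨t, ht, rfl⟩ := this
        exact ⟨t, by simpa using ⟨ht, hH⟩, rfl⟩
      · rintro ⟨t, ht, rfl⟩
        simp only [Finset.coe_filter] at ht
        exact ht.2
    have e2 : S.ncard = ((L.TT n).filter (fun t => toSub L G t ∈ S)).card := by
      conv_lhs => rw [e1]
      rw [Set.InjOn.ncard_image, Set.ncard_coe_finset]
      apply (toSub_injOn hC n).mono
      intro t ht
      exact Finset.mem_coe.mpr (Finset.mem_filter.mp (Finset.mem_coe.mp ht)).1
    rw [e2, hg, Finset.sum_ite]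
    simp
  have h3 := sum_run (iter (samp L n) (16 * pM L.m n * k) (x0 n)) g Q
    (depthLE_mono (iter_depth (samp_depth (L := L) n) _ _) hQ)
  have h4 : ∑ r : Fin Q → Bool, g (run (iter (samp L n) (16 * pM L.m n * k) (x0 n))
      (List.ofFn r)).1 = ({r : Fin Q → Bool | ofEdges G (theF L (n, k, List.ofFn r)) ∈ S}.ncard : ℝ) := by
    have e3 : ∀ r : Fin Q → Bool, (ofEdges G (theF L (n, k, List.ofFn r)) ∈ S ↔
        toSub L G (run (iter (samp L n) (16 * pM L.m n * k) (x0 n)) (List.ofFn r)).1 ∈ S) := by
      intro r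
      have := out_mem (L := L) hC.hom hS hn k (List.ofFn r)
      rw [L.mem_TT] at this
      unfold theF
      rw [ofEdges_edges this.1]
      rfl
    rw [hg, Finset.sum_ite]
    simp only [Finset.sum_const, Finset.sum_const_zero, add_zero, nsmul_eq_mul, mul_one]
    rw [← Set.ncard_coe_finset]
    have e4 : ((Finset.univ.filter (fun r : Fin Q → Bool => toSub L G
        (run (iter (samp L n) (16 * pM L.m n * k) (x0 n)) (List.ofFn r)).1 ∈ S) :
        Finset (Fin Q → Bool)) : Set (Fin Q → Bool)) =
        {r : Fin Q → Bool | ofEdges G (theF L (n, k, List.ofFn r)) ∈ S} := by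
      ext r
      simp [e3 r]
    rw [e4]
    simp
  rw [← h4, h3, trees_ncard hC hn, ← h2]
  have h5 : (2:ℝ) ^ Q * E (iter (samp L n) (16 * pM L.m n * k) (x0 n)) g / 2 ^ Q =
    E (iter (samp L n) (16 * pM L.m n * k) (x0 n)) g := by
    field_simp
  rw [h5]
  exact h1

theorem hasSampler (hG : Geo G) (hC : Compat L G) (hS : Stair L) (hL : PLat L) :
    HasEfficientSampler G := by
  obtain ⟨q, hq⟩ := exists_poly L.m
  refine ⟨theF L, q, theF_tm hL hC.hom hS, ?_⟩
  intro n k hn
  refine ⟨?_, ?_⟩
  · intro r
    have := out_mem (L := L) hC.hom hS hn k (List.ofFn r)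
    have h := L.mem_TT.mp this
    unfold theF
    rw [ofEdges_edges h.1]
    rw [trees_eq_image hC hn]
    exact ⟨_, this, rfl⟩
  · intro S hS'
    exact law hG hC hS hn k (hq n k) S hS'

theorem main (G : SimpleGraph (ℤ × ℤ))
    (hG : G = squareLattice ∨ G = hexagonalLattice ∨ G = triangularLattice) :
    HasEfficientSampler G := by
  rcases hG with rfl | rfl | rfl
  · exact hasSampler geo_sq compat_sq stair_sq plat_sq
  · exact hasSampler geo_hex compat_hex stair_hex plat_hex
  · exact hasSampler geo_tri compat_tri stair_tri plat_tri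

end Pool.Agent.LatticeTrees
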